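import Pool.Agent.Q192.PT.Stm
import Pool.Agent.Q192.PI.BFin
import Pool.Agent.Q192.PG.Main

/-!
# Project PT: assembly for hyperbolic systems
-/

set_option autoImplicit false
set_option linter.unusedSectionVars false

open Filter Topology Set Metric

namespace Pool.Agent.Q192.PT

open Pool.Agent.H721R2 Pool.Agent.H779R2.An Pool.Agent.Q130.UQ Pool.Agent.H789R2.AN
  Pool.Agent.H789R2.GP Pool.Agent.TH304.K289 Pool.Agent.TH289.L Pool.Agent.Y330.H Pool.Agent.Y330.G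
  Pool.Agent.Y330.J Pool.Agent.Q192.PI Pool.Agent.Q192.PI.B Pool.Agent.Q192.PG

universe u v

/-- Nonwandering points of the inverse. -/
theorem NWall.symm {X : Type u} [TopologicalSpace X] {f : X ≃ₜ X} (h : NWall f) :
    NWall f.symm := by
  intro U hU hUn
  obtain ⟨n, hn, y, ⟨x, hx, hxy⟩, hy⟩ := h U hU hUn
  refine ⟨n, hn, x, ⟨y, hy, ?_⟩, hx⟩
  rw [← hxy]
  exact (Function.LeftInverse.iterate f.symm_apply_apply n) x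

/-- The iterates of the inverse. -/
theorem iter_symm_eq {X : Type u} [TopologicalSpace X] {g f : X ≃ₜ X} {n : ℕ}
    (h : ∀ x, g x = f^[n] x) (x : X) : g.symm x = f.symm^[n] x := by
  apply g.injective
  rw [g.apply_symm_apply, h]
  exact ((Function.LeftInverse.iterate f.apply_symm_apply n) x).symm

/-- The bound for images of balls, if the whole space is the only minimal saturated set. -/
theorem wl_of {X : Type u} {E : Type v} [MetricSpace X] [CompactSpace X] [Nonempty X]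
    [NormedAddCommGroup E] [InnerProductSpace ℝ E] [FiniteDimensional ℝ E]
    (S : HypSys X E) (D : ℕ) (ε₀ Q α β K L R σ η b : ℝ) (ψ : X → V D → X) (hD : 2 ≤ D)
    (hS : Sc S ε₀ Q α β K L) (hC : Cht S D ε₀ R ψ) (hsc : Scale ε₀ R Q L σ η b)
    (hmin : ∀ Λ, UMin S Λ → Λ = Set.univ) : WL S D σ η β K R ψ univ := by
  have H := lem.{u, v}
  obtain ⟨a₀⟩ := (inferInstance : Nonempty X)
  have hG := hS.geo
  obtain ⟨f0, f0', f1, f2, f3, f4⟩ := hsc.facts hS.Q1 hS.L1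
  have hbR := hsc.bR
  have hbε := hsc.bε
  have hη0 := hsc.η0
  have hLB : LB D := H.h2 D hD (Pool.Agent.Q210.UQ.loewner D hD)
  have hcell := H.h1 X E S ε₀ Q α β K L hS
  have hun : USat S (Set.univ : Set X) := ⟨isClosed_univ, ⟨a₀, trivial⟩, fun _ _ => trivial,
    fun _ _ => trivial, fun _ _ _ _ => trivial⟩
  obtain ⟨Λ, -, hΛ⟩ := Pool.Agent.Q182.UQ.minEx S _ hun
  obtain rfl := hmin Λ hΛ
  have hCB := H.h4 X E S ε₀ σ η b hG (inf_disc hG hC (by omega)) hη0 (by linarith) (by linarith)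
    f0' (by linarith) _ hΛ
  have hW : Ws S (Set.univ : Set X) = Set.univ :=
    Set.eq_univ_of_forall fun y => ⟨y, trivial, SAsym.refl S y⟩
  rw [hW] at hCB
  have hU : ∀ z ∈ (Set.univ : Set X), S.g z ∈ (Set.univ : Set X) := fun _ _ => trivial
  have hBx := H.h6 X E S D ε₀ Q α β K L R σ η b ψ univ hD hS hC hsc hCB
  have hFn := H.h7 X E S D ε₀ Q α β K L R σ η b ψ (by omega) hS hC hsc hcell
  have hTL := H.h8 X E S D ε₀ Q α β K L R σ η b ψ univ hD hS hC hsc hBx hFn hLB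
  exact H.h9 X E S D ε₀ Q α β K L R σ η b ψ univ hD hS hC hsc hU hcell hTL

/-- The data of the two-sided argument for hyperbolic systems. -/
theorem data (h1 : ST1.{u, v}) (h7 : ST7.{u, v}) {X : Type u} {E : Type v} [MetricSpace X]
    [CompactSpace X] [PreconnectedSpace X] [Nonempty X] [NormedAddCommGroup E]
    [InnerProductSpace ℝ E] [FiniteDimensional ℝ E] (S : HypSys X E) (f : X ≃ₜ X) (n : ℕ)
    (hn : 1 ≤ n) (hf : ∀ x, S.g x = f^[n] x) (hNW : NWall f) (D D' : ℕ)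
    (α β K₁ K K₁' K' : ℝ) (hD : 2 ≤ D) (hD' : 2 ≤ D')
    (hfu : ∀ x, Module.finrank ℝ (S.Vu x) = D) (hfs : ∀ x, Module.finrank ℝ (S.Vs x) = D')
    (hα : S.a < α) (hβ : S.b < β) (hα1 : α ≤ 1 / 2) (hβ1 : β ≤ 1 / 2) (hK₁ : 1 ≤ K₁)
    (hK : K₁ < K) (hK₁' : 1 ≤ K₁') (hK' : K₁' < K')
    (hdu : ∀ x, ∀ v ∈ S.Vu x, ∀ w ∈ S.Vu x, ‖S.D x v‖ * ‖w‖ ≤ K₁ * (‖S.D x w‖ * ‖v‖))
    (hds : ∀ x, ∀ v ∈ S.Vs x, ∀ w ∈ S.Vs x, ‖S.D x v‖ * ‖w‖ ≤ K₁' * (‖S.D x w‖ * ‖v‖)) :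
    ∃ (ε₀ Q L R σ η b : ℝ) (ψ : X → V D → X) (ψ' : X → V D' → X), Sc S ε₀ Q α β K L ∧
      Cht S D ε₀ R ψ ∧ Sc S.symm ε₀ Q β α K' L ∧ Cht S.symm D' ε₀ R ψ' ∧
      Scale ε₀ R Q L σ η b ∧ WL S D σ η β K R ψ univ ∧ WL S.symm D' σ η α K' R ψ' univ := by
  obtain ⟨ε₀, Q, L, R, ψ, ψ', hS, hC, hS', hC'⟩ := h7 X E S D D' α β K₁ K K₁' K' hfu hfs hα hβ
    hα1 hβ1 hK₁ hK hK₁' hK' hdu hds
  have hG := hS.geo
  have hε0 := hG.pos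
  have hR := hC.pos
  have hQ := hS.Q1
  have hL := hS.L1
  have hQ0 : 0 < Q := by linarith
  have hL0 : 0 < L := by linarith
  obtain ⟨b, hb, hbR, hbε⟩ : ∃ b > 0, 64 * b ≤ R ∧ 64 * b ≤ ε₀ := by
    refine ⟨min (R / 64) (ε₀ / 64), lt_min (by positivity) (by positivity), ?_, ?_⟩
    · have := min_le_left (R / 64) (ε₀ / 64)
      linarith
    · have := min_le_right (R / 64) (ε₀ / 64)
      linarith
  set σ := b / (65536 * Q * L) with hσ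
  have hσ0 : 0 < σ := by positivity
  have hσb : 65536 * Q * L * σ = b := by rw [hσ]; field_simp
  set η := σ / (64 * Q) with hη
  have hη0 : 0 < η := by positivity
  have hησ : 64 * Q * η = σ := by rw [hη]; field_simp
  have hsc : Scale ε₀ R Q L σ η b := ⟨hη0, hησ.le, hσb.le, hbR, hbε⟩
  refine ⟨ε₀, Q, L, R, σ, η, b, ψ, ψ', hS, hC, hS', hC', hsc, ?_, ?_⟩
  · exact wl_of S D ε₀ Q α β K L R σ η b ψ hD hS hC hsc
      (h1 X E S ε₀ hG f n hn hf hNW)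
  · exact wl_of S.symm D' ε₀ Q β α K' L R σ η b ψ' hD' hS' hC' hsc
      (h1 X E S.symm ε₀ hS'.geo f.symm n hn (iter_symm_eq hf) hNW.symm)

/-- **Two-sided distortion bounds**, abstract form. -/
theorem absT (h1 : ST1.{u, v}) (h5 : ST5.{u, v}) (h6 : ST6) (h7 : ST7.{u, v}) {X : Type u}
    {E : Type v} [MetricSpace X]
    [CompactSpace X] [PreconnectedSpace X] [NormedAddCommGroup E]
    [InnerProductSpace ℝ E] [FiniteDimensional ℝ E] (S : HypSys X E) (f : X ≃ₜ X) (n : ℕ)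
    (hn : 1 ≤ n) (hf : ∀ x, S.g x = f^[n] x) (hNW : NWall f) (D D' : ℕ)
    (α β K₁ K K₁' K' : ℝ) (hD : 2 ≤ D) (hD' : 2 ≤ D')
    (hfu : ∀ x, Module.finrank ℝ (S.Vu x) = D) (hfs : ∀ x, Module.finrank ℝ (S.Vs x) = D')
    (hα : S.a < α) (hβ : S.b < β) (hα1 : α ≤ 1 / 2) (hβ1 : β ≤ 1 / 2) (hK₁ : 1 ≤ K₁)
    (hK : K₁ < K) (hK₁' : 1 ≤ K₁') (hK' : K₁' < K')
    (hdu : ∀ x, ∀ v ∈ S.Vu x, ∀ w ∈ S.Vu x, ‖S.D x v‖ * ‖w‖ ≤ K₁ * (‖S.D x w‖ * ‖v‖))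
    (hds : ∀ x, ∀ v ∈ S.Vs x, ∀ w ∈ S.Vs x, ‖S.D x v‖ * ‖w‖ ≤ K₁' * (‖S.D x w‖ * ‖v‖))
    (hp : 4 * D * D' * Real.log K * Real.log K' < Real.log α⁻¹ * Real.log β⁻¹) :
    ∀ a s, WS S.g a s → Lf S.g a s := by
  intro a₀ s₀ has
  have : Nonempty X := ⟨a₀⟩
  obtain ⟨ε₀, Q, L, R, σ, η, b, ψ, ψ', hS, hC, hS', hC', hsc, w1, w2⟩ := data h1 h7 S f n hn hf
    hNW D D' α β K₁ K K₁' K' hD hD' hfu hfs hα hβ hα1 hβ1 hK₁ hK hK₁' hK' hdu hds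
  have hnum := (h6 α β K K' D D' hS.α0 (by linarith [hS.α1]) hS.β0 (by linarith [hS.β1]) hS.K1
    hS'.K1 hp).1
  have hT := h5 X E S D D' ε₀ Q α β K K' L R σ η b ψ ψ' hS hC hS' hC' hsc w1 w2 hnum
  obtain ⟨c, hLP⟩ := exists_LP S
  exact lem.h12 X E S D ε₀ Q α β K L R σ η b c ψ hLP hS hC hsc hT a₀ s₀ has

/-- **Polynomial growth**, abstract form. -/
theorem pgT (g1 : SG1.{u}) (g2 : SG2.{u}) (g3 : SG3.{u}) (h1 : ST1.{u, v}) (h6 : ST6)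
    (h7 : ST7.{u, v}) (h8 : ST8.{u, v}) (h9 : ST9.{u, v}) {X : Type u}
    {E : Type v} [MetricSpace X]
    [CompactSpace X] [PreconnectedSpace X] [Nonempty X] [NormedAddCommGroup E]
    [InnerProductSpace ℝ E] [FiniteDimensional ℝ E] (S : HypSys X E) (hX : ULC X) (f : X ≃ₜ X)
    (n : ℕ) (hn : 1 ≤ n) (hf : ∀ x, S.g x = f^[n] x) (hNW : NWall f) (D D' : ℕ)
    (α β K₁ K K₁' K' : ℝ) (hD : 2 ≤ D) (hD' : 2 ≤ D')
    (hfu : ∀ x, Module.finrank ℝ (S.Vu x) = D) (hfs : ∀ x, Module.finrank ℝ (S.Vs x) = D')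
    (hα : S.a < α) (hβ : S.b < β) (hα1 : α ≤ 1 / 2) (hβ1 : β ≤ 1 / 2) (hK₁ : 1 ≤ K₁)
    (hK : K₁ < K) (hK₁' : 1 ≤ K₁') (hK' : K₁' < K')
    (hdu : ∀ x, ∀ v ∈ S.Vu x, ∀ w ∈ S.Vu x, ‖S.D x v‖ * ‖w‖ ≤ K₁ * (‖S.D x w‖ * ‖v‖))
    (hds : ∀ x, ∀ v ∈ S.Vs x, ∀ w ∈ S.Vs x, ‖S.D x v‖ * ‖w‖ ≤ K₁' * (‖S.D x w‖ * ‖v‖))
    (hp : 4 * D * D' * Real.log K * Real.log K' < Real.log α⁻¹ * Real.log β⁻¹)
    (hlf : ∀ a s, WS S.g a s → Lf S.g a s) : PG X := by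
  obtain ⟨ε₀, Q, L, R, σ, η, b, ψ, ψ', hS, hC, hS', hC', hsc, w1, w2⟩ := data h1 h7 S f n hn hf
    hNW D D' α β K₁ K K₁' K' hD hD' hfu hfs hα hβ hα1 hβ1 hK₁ hK hK₁' hK' hdu hds
  obtain ⟨c, hg⟩ := exists_LP S
  obtain ⟨c₁, hc₁, hs⟩ := exists_sl hg
  have hex : Ex S.g := ex_of_lf hg hc₁ hs hlf
  have hε0 := hS.geo.pos
  have hR := hC.pos
  have v1 := h8 X E S D ε₀ Q α β K L R σ η ψ hS hC w1
  have v2 := h8 X E S.symm D' ε₀ Q β α K' L R σ η ψ' hS' hC' w2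
  obtain ⟨ρ, hρ, hρR, hρε⟩ : ∃ ρ > 0, 64 * ρ ≤ R ∧ 64 * ρ ≤ ε₀ := by
    refine ⟨min R ε₀ / 64, by positivity, ?_, ?_⟩
    · have := min_le_left R ε₀
      linarith
    · have := min_le_right R ε₀
      linarith
  obtain ⟨δ, hδ, hδR⟩ : ∃ δ > 0, 64 * δ ≤ R := ⟨R / 64, by positivity, by linarith⟩
  set ms := ⌈4 * S.Ls⌉₊ with hms
  have hms' : 4 * S.Ls ≤ ms := Nat.le_ceil _
  have hms1 : 1 ≤ ms := by
    have := S.one_le_Ls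
    have h3 : (1 : ℝ) ≤ ms := by linarith
    exact_mod_cast h3
  set mu := ⌈4 * S.Lu⌉₊ with hmu
  have hmu' : 4 * S.Lu ≤ mu := Nat.le_ceil _
  have hmu1 : 1 ≤ mu := by
    have := S.one_le_Lu
    have h3 : (1 : ℝ) ≤ mu := by linarith
    exact_mod_cast h3
  have hr : Rad S.g ρ ms := Pool.Agent.Q237.PI.sA5 X E S D' ms hfs hms' ρ hρ
  have hr' : Rad S.g.symm δ mu := Pool.Agent.Q237.PI.sA5 X E S.symm D mu hfu hmu' δ hδ
  obtain ⟨C', hC', hw⟩ := h9 X E S D D' ε₀ Q α β K K' L R σ η b c ψ ψ' hg hex hS hC hS' hC' hsc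
    v1 v2 ρ δ ms mu hρ hρR hρε hδ hδR
  obtain ⟨A, hA⟩ := (h6 α β K K' D D' hS.α0 (by linarith [hS.α1]) hS.β0 (by linarith [hS.β1])
    hS.K1 hS'.K1 hp).2
  obtain ⟨B, hB⟩ := hA C'
  refine pg_of g1 g2 g3 S.g c hg hX ρ δ ms mu hρ hδ hms1 hmu1 hr hr' A B fun n => ?_
  obtain ⟨k, T, hkT, e1, e2, e3⟩ := hB n
  exact ⟨k + T, hkT, fun x z a ha => hw n k T e1 e2 e3 x z a ha⟩

end Pool.Agent.Q192.PT
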