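import Pool.Agent.Q192.PT.Stm

/-!
# Minimal saturated sets of an iterate of a homeomorphism without wandering points (ST1)
-/

set_option autoImplicit false

open Filter Topology Set Metric

namespace Pool.Agent.Q192.PT

open Pool.Agent.H721R2 Pool.Agent.H779R2.An Pool.Agent.Q130.UQ

universe u v

namespace T1A

variable {X : Type u} {E : Type v} [MetricSpace X] [CompactSpace X] [NormedAddCommGroup E]
  [NormedSpace ℝ E] {S : HypSys X E}

/-- powers of a homeomorphism -/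
def hp (f : X ≃ₜ X) : ℕ → (X ≃ₜ X)
  | 0 => Homeomorph.refl X
  | n + 1 => (hp f n).trans f

omit [CompactSpace X] in
theorem hp_coe (f : X ≃ₜ X) (n : ℕ) (x : X) : hp f n x = f^[n] x := by
  induction n with
  | zero => rfl
  | succ n ih =>
    rw [Function.iterate_succ_apply', ← ih]
    rfl

theorem UAsym_map {h : X → X} (hc : Continuous h) (hg : ∀ x, h (S.g.symm x) = S.g.symm (h x))
    {x y : X} (hxy : UAsym S x y) : UAsym S (h x) (h y) := by
  have hu : UniformContinuous h := CompactSpace.uniformContinuous_of_continuous hc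
  have hk : ∀ (k : ℕ) (x : X), S.g.symm^[k] (h x) = h (S.g.symm^[k] x) := by
    intro k x
    induction k with
    | zero => rfl
    | succ k ih => rw [Function.iterate_succ_apply', ih, Function.iterate_succ_apply', hg]
  unfold UAsym at hxy ⊢
  rw [Metric.tendsto_atTop] at hxy ⊢
  intro ε hε
  obtain ⟨δ, hδ, hd⟩ := Metric.uniformContinuous_iff.1 hu ε hε
  obtain ⟨N, hN⟩ := hxy δ hδ
  refine ⟨N, fun k hk' => ?_⟩
  have h1 := hN k hk'
  rw [Real.dist_0_eq_abs, abs_of_nonneg dist_nonneg] at h1 ⊢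
  rw [hk, hk]
  exact hd h1

theorem USat_image {Λ : Set X} (hΛ : USat S Λ) (h : X ≃ₜ X) (hg : ∀ x, h (S.g x) = S.g (h x)) :
    USat S (h '' Λ) := by
  have hg' : ∀ x, h (S.g.symm x) = S.g.symm (h x) := by
    intro x
    apply S.g.injective
    rw [Homeomorph.apply_symm_apply, ← hg, Homeomorph.apply_symm_apply]
  have hg'' : ∀ x, h.symm (S.g.symm x) = S.g.symm (h.symm x) := by
    intro x
    apply h.injective
    rw [Homeomorph.apply_symm_apply, hg', Homeomorph.apply_symm_apply]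
  refine ⟨h.isClosedMap _ hΛ.closed, hΛ.nonempty.image _, ?_, ?_, ?_⟩
  · rintro _ ⟨x, hx, rfl⟩
    exact ⟨S.g x, hΛ.map x hx, hg x⟩
  · rintro _ ⟨x, hx, rfl⟩
    exact ⟨S.g.symm x, hΛ.map' x hx, hg' x⟩
  · rintro _ ⟨x, hx, rfl⟩ y hy
    have h1 := UAsym_map (S := S) h.symm.continuous hg'' hy
    rw [Homeomorph.symm_apply_apply] at h1
    exact ⟨h.symm y, hΛ.sat x hx _ h1, h.apply_symm_apply y⟩

theorem UMin_image {Λ : Set X} (hΛ : UMin S Λ) (h : X ≃ₜ X) (hg : ∀ x, h (S.g x) = S.g (h x)) :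
    UMin S (h '' Λ) := by
  refine ⟨USat_image hΛ.toUSat h hg, fun Λ' hΛ' hsub => ?_⟩
  have hgs : ∀ x, h.symm (S.g x) = S.g (h.symm x) := by
    intro x
    apply h.injective
    rw [Homeomorph.apply_symm_apply, hg, Homeomorph.apply_symm_apply]
  have h1 := hΛ.min _ (USat_image hΛ' h.symm hgs) (by
    rintro _ ⟨x, hx, rfl⟩
    obtain ⟨w, hw, hwx⟩ := hsub hx
    rw [← hwx, Homeomorph.symm_apply_apply]
    exact hw)
  rw [← h1]
  ext x
  constructor
  · intro hx
    exact ⟨h.symm x, ⟨x, hx, rfl⟩, h.apply_symm_apply x⟩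
  · rintro ⟨_, ⟨w, hw, rfl⟩, hx⟩
    rw [Homeomorph.apply_symm_apply] at hx
    rwa [← hx]

theorem unif (f : X ≃ₜ X) {ε : ℝ} (hε : 0 < ε) (N : ℕ) :
    ∃ δ > 0, ∀ j < N, ∀ a c : X, dist a c ≤ δ → dist (f^[j] a) (f^[j] c) < ε := by
  induction N with
  | zero => exact ⟨1, one_pos, fun j hj => absurd hj (Nat.not_lt_zero _)⟩
  | succ N ih =>
    obtain ⟨δ, hδ, h1⟩ := ih
    have hu : UniformContinuous (f^[N]) :=
      CompactSpace.uniformContinuous_of_continuous (f.continuous.iterate N)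
    obtain ⟨δ', hδ', h2⟩ := Metric.uniformContinuous_iff.1 hu ε hε
    refine ⟨min δ (δ' / 2), lt_min hδ (half_pos hδ'), fun j hj a c hac => ?_⟩
    rcases Nat.lt_succ_iff_lt_or_eq.1 hj with hj | rfl
    · exact h1 j hj a c (hac.trans (min_le_left _ _))
    · exact h2 (lt_of_le_of_lt (hac.trans (min_le_right _ _)) (by linarith))

/-- Saturated sets that are invariant under a root of the system contain their stable sets, if no
point wanders. -/
theorem Ws_sub {ε₀ : ℝ} (hG : Geo S ε₀) (f : X ≃ₜ X) (n : ℕ) (hn : 1 ≤ n)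
    (hf : ∀ x, S.g x = f^[n] x) (hNW : NWall f) {Λ' : Set X} (hsat : USat S Λ')
    (hfm : ∀ (m : ℕ), ∀ x ∈ Λ', f^[m] x ∈ Λ') : Ws S Λ' ⊆ Λ' := by
  have hgf : (S.g : X → X) = f^[n] := funext hf
  have hgk : ∀ (k : ℕ) (x : X), S.g^[k] x = f^[n * k] x := by
    intro k x
    rw [hgf, Function.iterate_mul]
  rintro y ⟨x, hx, hxy⟩
  by_contra hy
  obtain ⟨ε, hε⟩ : ∃ ε, ε = infDist y Λ' := ⟨_, rfl⟩
  have hε0 : 0 < ε := by
    rw [hε]
    exact (hsat.closed.notMem_iff_infDist_pos hsat.nonempty).1 hy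
  obtain ⟨δ, hδ, hδf⟩ := unif f (half_pos hε0) n
  obtain ⟨δ0, hδ0, hb⟩ := exists_bracket S (min δ ε₀) (lt_min hδ hG.pos)
  obtain ⟨N, hN⟩ := hxy.eventually (half_pos hδ0)
  have hit : ∀ (k : ℕ), ∀ x ∈ Λ', S.g^[k] x ∈ Λ' := by
    intro k x hx
    rw [hgk]
    exact hfm _ x hx
  have hO1 : ∀ᶠ y' in 𝓝 y, ∀ m, n * N ≤ m → infDist (f^[m] y') Λ' < ε / 2 := by
    have hc : ContinuousAt (S.g^[N]) y := (S.g.continuous.iterate N).continuousAt
    filter_upwards [hc (Metric.ball_mem_nhds _ (half_pos hδ0))] with y' hy' m hm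
    have h1 : dist (S.g^[N] y') (S.g^[N] y) < δ0 / 2 := hy'
    have h2 := (hN N le_rfl).dist_le
    obtain ⟨w, h4, h5⟩ := hb (S.g^[N] y') (S.g^[N] x) (by
      have := dist_triangle (S.g^[N] y') (S.g^[N] y) (S.g^[N] x)
      rw [dist_comm (S.g^[N] y) (S.g^[N] x)] at this
      linarith)
    have hw : w ∈ Λ' := hsat.sat _ (hit N x hx) w
      (hG.uasym _ _ (h5.mono (min_le_right _ _))).symm
    have hq : N ≤ m / n := by
      rw [Nat.le_div_iff_mul_le (by omega), mul_comm]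
      exact hm
    have hj : m % n < n := Nat.mod_lt _ (by omega)
    have e1 : f^[m] y' = f^[m % n] (S.g^[m / n - N] (S.g^[N] y')) := by
      rw [← Function.iterate_add_apply S.g, Nat.sub_add_cancel hq, hgk,
        ← Function.iterate_add_apply, Nat.mod_add_div]
    have h6 := hδf (m % n) hj _ _ ((h4 (m / n - N)).trans (min_le_left _ _))
    rw [e1]
    exact (infDist_le_dist_of_mem (hfm _ _ (hit _ _ hw))).trans_lt h6
  have hper : ∀ p, 1 ≤ p → f^[p] y ≠ y := by
    intro p hp1 hpy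
    have h1 : f^[p * (n * N)] y = y := by
      rw [Function.iterate_mul]
      exact Function.iterate_fixed hpy _
    have h2 := hO1.self_of_nhds (p * (n * N)) (Nat.le_mul_of_pos_left _ hp1)
    rw [h1, ← hε] at h2
    linarith
  have hO2 : ∀ᶠ y' in 𝓝 y, ∀ m ∈ Finset.range (n * N), 1 ≤ m →
      dist y' y < dist (f^[m] y) y / 2 ∧ dist (f^[m] y') (f^[m] y) < dist (f^[m] y) y / 2 := by
    rw [Filter.eventually_all_finset]
    intro m _
    by_cases hm : 1 ≤ m
    · have hd : 0 < dist (f^[m] y) y / 2 := half_pos (dist_pos.2 (hper m hm))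
      have hc : ContinuousAt (f^[m]) y := (f.continuous.iterate m).continuousAt
      filter_upwards [Metric.ball_mem_nhds y hd, hc (Metric.ball_mem_nhds _ hd)] with y' h1 h2 _
      exact ⟨h1, h2⟩
    · exact Eventually.of_forall fun y' h => absurd h hm
  have hO3 : ∀ᶠ y' in 𝓝 y, ε / 2 < infDist y' Λ' := by
    have hc : Continuous fun y' => infDist y' Λ' := continuous_infDist_pt _
    refine hc.continuousAt.eventually (lt_mem_nhds ?_)
    show ε / 2 < infDist y Λ'
    rw [← hε]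
    linarith
  obtain ⟨O, hO, hOo, hyO⟩ := _root_.mem_nhds_iff.1 (hO1.and (hO2.and hO3))
  obtain ⟨m, hm, z, ⟨y', hy', rfl⟩, hz⟩ := hNW O hOo ⟨y, hyO⟩
  obtain ⟨a1, a2, a3⟩ := hO hy'
  obtain ⟨b1, b2, b3⟩ := hO hz
  rcases lt_or_ge m (n * N) with hmN | hmN
  · have c1 := (a2 m (Finset.mem_range.2 hmN) hm).2
    have c2 := (b2 m (Finset.mem_range.2 hmN) hm).1
    have c3 := dist_triangle (f^[m] y) (f^[m] y') y
    rw [dist_comm (f^[m] y) (f^[m] y')] at c3
    linarith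
  · have c1 := a1 m hmN
    have c2 : ε / 2 < infDist (f^[m] y') Λ' := b3
    linarith

end T1A

open T1A in
theorem sT1 : ST1.{u, v} := by
  intro X E _ _ _ _ _ S ε₀ hG f n hn hf hNW Λ hΛ
  have hcomm : ∀ (j : ℕ) (x : X), hp f j (S.g x) = S.g (hp f j x) := by
    intro j x
    rw [hp_coe, hp_coe, hf, hf, ← Function.iterate_add_apply, ← Function.iterate_add_apply,
      add_comm]
  have hmin : ∀ j, UMin S (hp f j '' Λ) := fun j => UMin_image hΛ (hp f j) (hcomm j)
  obtain ⟨Λ', hΛ'⟩ : ∃ Λ' : Set X, Λ' = ⋃ j ∈ Finset.range n, hp f j '' Λ := ⟨_, rfl⟩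
  have hmem : ∀ x, x ∈ Λ' ↔ ∃ j < n, x ∈ hp f j '' Λ := by
    intro x
    rw [hΛ']
    simp only [Set.mem_iUnion, Finset.mem_range, exists_prop]
  have hf' : ∀ x ∈ Λ', f x ∈ Λ' := by
    intro x hx
    obtain ⟨j, hj, w, hw, rfl⟩ := (hmem x).1 hx
    rw [hmem]
    by_cases hj' : j + 1 < n
    · exact ⟨j + 1, hj', w, hw, rfl⟩
    · have hjn : j + 1 = n := by omega
      refine ⟨0, by omega, S.g w, hΛ.map w hw, ?_⟩
      show S.g w = f (hp f j w)
      rw [hf, ← hjn, hp_coe, Function.iterate_succ_apply']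
  have hfm : ∀ (m : ℕ), ∀ x ∈ Λ', f^[m] x ∈ Λ' := by
    intro m x hx
    induction m with
    | zero => exact hx
    | succ m ih =>
      rw [Function.iterate_succ_apply']
      exact hf' _ ih
  have hsub0 : Λ ⊆ Λ' := fun x hx => (hmem x).2 ⟨0, by omega, x, hx, rfl⟩
  have hsat : USat S Λ' := by
    refine ⟨?_, ?_, ?_, ?_, ?_⟩
    · rw [hΛ']
      exact isClosed_biUnion_finset (fun j _ => (hmin j).closed)
    · exact hΛ.nonempty.mono hsub0
    · intro x hx
      rw [hf]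
      exact hfm n x hx
    · intro x hx
      obtain ⟨j, hj, hx'⟩ := (hmem x).1 hx
      exact (hmem _).2 ⟨j, hj, (hmin j).map' x hx'⟩
    · intro x hx y hxy
      obtain ⟨j, hj, hx'⟩ := (hmem x).1 hx
      exact (hmem _).2 ⟨j, hj, (hmin j).sat x hx' y hxy⟩
  have hW := Ws_sub hG f n hn hf hNW hsat hfm
  have hopen : IsOpen Λ' := by
    obtain ⟨δ0, hδ0, hb0⟩ := exists_bracket S ε₀ hG.pos
    rw [Metric.isOpen_iff]
    intro y hy
    refine ⟨δ0, hδ0, fun y' hy' => ?_⟩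
    rw [Metric.mem_ball] at hy'
    obtain ⟨w, h1, h2⟩ := hb0 y' y hy'.le
    have hw : w ∈ Λ' := hsat.sat y hy w (hG.uasym _ _ h2).symm
    exact hW ⟨w, hw, (hG.sasym _ _ h1).symm⟩
  have huniv : Λ' = Set.univ := by
    rcases isClopen_iff.1 ⟨hsat.closed, hopen⟩ with h | h
    · obtain ⟨x, hx⟩ := hsat.nonempty
      rw [h] at hx
      exact absurd hx (Set.notMem_empty x)
    · exact h
  have hdis : ∀ j, (hp f j '' Λ ∩ Λ).Nonempty → hp f j '' Λ = Λ := by
    intro j hne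
    have hI : USat S (hp f j '' Λ ∩ Λ) := by
      refine ⟨(hmin j).closed.inter hΛ.closed, hne, ?_, ?_, ?_⟩
      · exact fun x hx => ⟨(hmin j).map x hx.1, hΛ.map x hx.2⟩
      · exact fun x hx => ⟨(hmin j).map' x hx.1, hΛ.map' x hx.2⟩
      · exact fun x hx y hxy => ⟨(hmin j).sat x hx.1 y hxy, hΛ.sat x hx.2 y hxy⟩
    rw [← (hmin j).min _ hI Set.inter_subset_left]
    exact hΛ.min _ hI Set.inter_subset_right
  have hcl : IsClosed Λᶜ := by
    classical
    have h1 : Λᶜ = ⋃ j ∈ (Finset.range n).filter (fun j => ¬ (hp f j '' Λ ∩ Λ).Nonempty),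
        hp f j '' Λ := by
      ext x
      simp only [Set.mem_iUnion, Finset.mem_filter, Finset.mem_range, exists_prop]
      constructor
      · intro hx
        have hx' : x ∈ Λ' := by
          rw [huniv]
          exact Set.mem_univ x
        obtain ⟨j, hj, hxj⟩ := (hmem x).1 hx'
        refine ⟨j, ⟨hj, fun hne => hx ?_⟩, hxj⟩
        rwa [hdis j hne] at hxj
      · rintro ⟨j, ⟨-, hj⟩, hxj⟩ hx
        exact hj ⟨x, hxj, hx⟩
    rw [h1]
    exact isClosed_biUnion_finset (fun j _ => (hmin j).closed)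
  rcases isClopen_iff.1 ⟨hΛ.closed, isClosed_compl_iff.1 hcl⟩ with h | h
  · obtain ⟨x, hx⟩ := hΛ.nonempty
    rw [h] at hx
    exact absurd hx (Set.notMem_empty x)
  · exact h

end Pool.Agent.Q192.PT
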