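import Pool.Agent.Q192.PT.Stm

/-!
# Project PT, job ST2: uniqueness of stable holonomies on an unstable ball
-/

set_option autoImplicit false

open Filter Topology Set Metric

namespace Pool.Agent.Q192.PT

open Pool.Agent.H721R2 Pool.Agent.H779R2.An Pool.Agent.Q130.UQ Pool.Agent.H789R2.AN
  Pool.Agent.H789R2.GP Pool.Agent.Q192.PI.B

universe u v

theorem sT2 : ST2.{u, v} := by
  intro X E _ _ _ _ S D ε₀ Q α β K L R σ η b ψ hS hC hsc y r hr T φ φ' hφ hφ' a₀ ha₀ h0 a ha
  obtain ⟨w₀, hw₀, rfl⟩ := ha₀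
  obtain ⟨w, hw, rfl⟩ := ha
  have hG := hS.geo
  have hL := hS.L1
  have hη0 := hsc.η0
  obtain ⟨hσ0, hb0, f1, f2, f3, f4⟩ := hsc.facts hS.Q1 hL
  have hbε := hsc.bε
  have hLT : (0 : ℝ) < L ^ T := by positivity
  obtain ⟨N₀, hN₀⟩ := exists_nat_gt (L ^ T * (2 * ‖w - w₀‖) / σ)
  set N := N₀ + 1 with hN
  have hN0 : (0 : ℝ) < N := by rw [hN]; positivity
  have hNσ : L ^ T * (2 * ‖w - w₀‖) / N ≤ σ := by
    rw [div_le_iff₀ hN0]
    rw [div_lt_iff₀ hσ0] at hN₀
    rw [hN]
    push_cast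
    nlinarith
  set c : ℕ → V D := fun i => w₀ + ((i : ℝ) / N) • (w - w₀) with hc
  have hcb : ∀ i ≤ N, c i ∈ ball (0 : V D) r := by
    intro i hi
    have h1 : (i : ℝ) ≤ N := by exact_mod_cast hi
    exact (convex_ball (0 : V D) r).add_smul_sub_mem hw₀ hw
      ⟨by positivity, div_le_one_of_le₀ h1 hN0.le⟩
  have hcR : ∀ i ≤ N, ‖c i‖ ≤ R := by
    intro i hi
    have h1 := hcb i hi
    rw [mem_ball_zero_iff] at h1
    linarith
  have hst : ∀ i < N, S.URel σ (S.g^[T] (ψ y (c i))) (S.g^[T] (ψ y (c (i + 1)))) := by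
    intro i hi
    have h2 := URel_fwd hS T (hC.urel hG (x := y) (hcR i hi.le) (hcR (i + 1) hi))
    refine h2.mono ?_
    have e1 : c i - c (i + 1) = (-(1 / (N : ℝ))) • (w - w₀) := by
      simp only [hc]
      rw [add_sub_add_left_eq_sub, ← sub_smul]
      congr 1
      push_cast
      ring
    rw [e1, norm_smul, norm_neg, Real.norm_eq_abs, abs_of_nonneg (by positivity)]
    calc L ^ T * (2 * (1 / (N : ℝ) * ‖w - w₀‖)) = L ^ T * (2 * ‖w - w₀‖) / N := by ring
      _ ≤ σ := hNσ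
  have key : ∀ i ≤ N, φ (ψ y (c i)) = φ' (ψ y (c i)) := by
    intro i
    induction i with
    | zero =>
      intro _
      simp only [hc, Nat.cast_zero, zero_div, zero_smul, add_zero]
      exact h0
    | succ i ih =>
      intro hi
      have h1 := ih (by omega)
      have ha : ψ y (c i) ∈ ψ y '' ball 0 r := ⟨_, hcb i (by omega), rfl⟩
      have ha' : ψ y (c (i + 1)) ∈ ψ y '' ball 0 r := ⟨_, hcb (i + 1) hi, rfl⟩
      have h2 := hφ.loc _ ha _ ha' (hst i (by omega))
      have h3 := hφ'.loc _ ha _ ha' (hst i (by omega))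
      rw [← h1] at h3
      have h4 := (hφ.rel _ ha').symm.trans (hφ'.rel _ ha')
      have h5 := h2.symm.trans h3
      have h6 := hG.uniq _ _ (h4.mono (by linarith)) (h5.mono (by linarith))
      exact (S.g.injective.iterate T) h6
  have h7 := key N le_rfl
  have h8 : c N = w := by
    simp only [hc]
    rw [div_self hN0.ne', one_smul, add_sub_cancel]
  rwa [h8] at h7

end Pool.Agent.Q192.PT
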