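import Pool.Agent.Q192.PT.Stm

/-!
# Project PT, job ST3: one step of a stable holonomy
-/

set_option autoImplicit false

open Filter Topology Set Metric

namespace Pool.Agent.Q192.PT

open Pool.Agent.H721R2 Pool.Agent.H779R2.An Pool.Agent.Q130.UQ Pool.Agent.H789R2.AN
  Pool.Agent.H789R2.GP Pool.Agent.Q192.PI.B

universe u v

theorem sT3 : ST3.{u, v} := by
  intro X E _ _ _ _ S ε₀ Q α β K L R σ η b hS hsc A φ m k y c' e e₁ τ hφ hyA he0 heσ hτ0 hτσ
    hsm hrel hyc hnum
  have hG := hS.geo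
  have hL := hS.L1
  have hQ := hS.Q1
  have hα := hS.α0
  have hη0 := hsc.η0
  obtain ⟨hσ0, hb0, f1, f2, f3, f4⟩ := hsc.facts hQ hL
  have hbε := hsc.bε
  set e₂ : ℝ := Q * (e + τ) with he₂
  have he₂σ : e₂ ≤ 3 * (Q * σ) := by
    rw [he₂]
    have : Q * (e + τ) ≤ Q * (3 * σ) := mul_le_mul_of_nonneg_left (by linarith) (by linarith)
    linarith
  have hee : e + τ ≤ e₂ := by
    rw [he₂]
    nlinarith
  have he₂0 : 0 ≤ e₂ := by linarith
  have he₂ε : 4 * e₂ ≤ ε₀ := by linarith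
  -- the brackets
  have key : ∀ a : X, ∃ w, a ∈ A → S.URel e₂ c' w ∧ S.SRel e₂ (S.g.symm^[k] (φ a)) w := by
    intro a
    by_cases ha : a ∈ A
    · have h1 : dist (S.g.symm^[k] (φ a)) c' ≤ e + τ := by
        have h2 := dist_triangle (S.g.symm^[k] (φ a)) (S.g.symm^[k] (φ y)) c'
        have h3 := (hsm a ha).dist_le
        have h4 := hyc.dist_le
        rw [dist_comm] at h3
        linarith
      obtain ⟨w, h2, h3⟩ := hS.br (S.g.symm^[k] (φ a)) c' (by linarith)
      have h4 : Q * dist (S.g.symm^[k] (φ a)) c' ≤ e₂ :=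
        mul_le_mul_of_nonneg_left h1 (by linarith)
      exact ⟨w, fun _ => ⟨(h3.mono h4).symm, h2.mono h4⟩⟩
    · exact ⟨c', fun h => absurd h ha⟩
  choose W hW using key
  have hUW : ∀ a ∈ A, UAsym S c' (W a) := fun a ha =>
    hG.uasym _ _ ((hW a ha).1.mono (by linarith))
  have hU' : ∀ a ∈ A, UAsym S (S.g^[k] c') (S.g^[k] (W a)) := fun a ha => (hUW a ha).iter k
  have hWy : W y = c' := by
    have h1 := (hW y hyA).2
    exact (hG.uniq _ _ ((hyc.symm.trans h1).mono (by linarith))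
      ((hW y hyA).1.mono (by linarith))).symm
  -- the relation at the time m
  have hrel' : ∀ a ∈ A, S.SRel (e₁ + α ^ (m + k) * e₂) (S.g^[m] a)
      (S.g^[m] (S.g^[k] (W a))) := by
    intro a ha j
    have h1 := hrel a ha j
    have h2 := hS.sc _ _ ((hW a ha).2.mono (by linarith)) (j + m + k)
    have h3 := (hW a ha).2.dist_le
    have h4 := dist_triangle (S.g^[j] (S.g^[m] a)) (S.g^[j] (S.g^[m] (φ a)))
      (S.g^[j] (S.g^[m] (S.g^[k] (W a))))
    have h5 : S.g^[j + m + k] (S.g.symm^[k] (φ a)) = S.g^[j] (S.g^[m] (φ a)) := by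
      rw [Function.iterate_add_apply, Function.iterate_add_apply,
        Pool.Agent.H779R2.An.iter_iter_symm]
    have h6 : S.g^[j + m + k] (W a) = S.g^[j] (S.g^[m] (S.g^[k] (W a))) := by
      rw [Function.iterate_add_apply, Function.iterate_add_apply]
    rw [h5, h6] at h2
    have h7 : α ^ (j + m + k) ≤ α ^ (m + k) :=
      pow_le_pow_of_le_one hα.le (by linarith [hS.α1]) (by omega)
    have h8 : α ^ (j + m + k) * dist (S.g.symm^[k] (φ a)) (W a) ≤ α ^ (m + k) * e₂ :=
      mul_le_mul h7 h3 dist_nonneg (by positivity)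
    linarith
  have hη : ∀ a ∈ A, S.SRel η (S.g^[m] a) (S.g^[m] (S.g^[k] (W a))) := fun a ha =>
    (hrel' a ha).mono hnum
  refine ⟨fun a => S.g^[k] (W a), ⟨hφ.ua, fun a ha a' ha' => (hU' a ha).symm.trans (hU' a' ha'),
    ?_, hη, ?_⟩, ?_, fun a ha => ?_⟩
  · intro a ha a' ha' he
    have h0 : W a = W a' := (S.g.injective.iterate k) he
    have h1 := (hW a ha).2
    have h2 := (hW a' ha').2
    rw [← h0] at h2
    have h3 : S.SRel (e₂ + e₂) (S.g.symm^[k] (φ a)) (S.g.symm^[k] (φ a')) := h1.trans h2.symm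
    have h4 : S.URel (e + e) (S.g.symm^[k] (φ a)) (S.g.symm^[k] (φ a')) :=
      (hsm a ha).symm.trans (hsm a' ha')
    have h5 := hG.uniq _ _ (h3.mono (by linarith)) (h4.mono (by linarith))
    exact hφ.inj ha ha' ((S.g.symm.injective.iterate k) h5)
  · intro a ha a' ha' hU
    have h1 := hφ.loc a ha a' ha' hU
    have hWW : S.URel (2 * e₂) (W a) (W a') :=
      ((hW a ha).1.symm.trans (hW a' ha').1).mono (by linarith)
    have h2 := lp (hW a ha).2.symm (hW a' ha').2.symm hWW (m + k) (c := 2 * σ) (by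
      rw [Function.iterate_add_apply, Function.iterate_add_apply,
        Pool.Agent.H779R2.An.iter_iter_symm, Pool.Agent.H779R2.An.iter_iter_symm]
      exact h1)
    rw [Function.iterate_add_apply, Function.iterate_add_apply] at h2
    have h3 := hG.URel_dist (h2.mono (max_le (by linarith) (by linarith)))
    refine h3.mono ?_
    have e1 := (hη a ha).dist_le
    have e2 := (hη a' ha').dist_le
    have e3 := hU.dist_le
    have e4 := dist_triangle4 (S.g^[m] (S.g^[k] (W a))) (S.g^[m] a) (S.g^[m] a')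
      (S.g^[m] (S.g^[k] (W a')))
    rw [dist_comm (S.g^[m] (S.g^[k] (W a))) (S.g^[m] a)] at e4
    linarith
  · show S.g^[k] (W y) = S.g^[k] c'
    rw [hWy]
  · show S.SRel e₂ (S.g.symm^[k] (φ a)) (S.g.symm^[k] (S.g^[k] (W a))) ∧
      S.URel e₂ c' (S.g.symm^[k] (S.g^[k] (W a))) ∧
      S.SRel (e₁ + α ^ (m + k) * e₂) (S.g^[m] a) (S.g^[m] (S.g^[k] (W a)))
    rw [Pool.Agent.H779R2.An.iter_symm_iter]
    exact ⟨(hW a ha).2, (hW a ha).1, hrel' a ha⟩

end Pool.Agent.Q192.PT
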