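import Pool.Agent.Q192.PT.Stm

/-!
# Project PT, job ST4: the crossing lemma
-/

set_option autoImplicit false

open Filter Topology Set Metric

namespace Pool.Agent.Q192.PT

open Pool.Agent.H721R2 Pool.Agent.H779R2.An Pool.Agent.Q130.UQ Pool.Agent.H789R2.AN
  Pool.Agent.H789R2.GP Pool.Agent.Q192.PI.B

universe u v

namespace T4w

variable {X : Type u} {E : Type v} [MetricSpace X] [CompactSpace X] [NormedAddCommGroup E]
  [NormedSpace ℝ E] {S : HypSys X E} {D D' : ℕ} {ε₀ Q α β K K' L R σ η b : ℝ}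
  {ψ : X → V D → X} {ψ' : X → V D' → X} {y z : X} {r r' : ℝ} {t₀ m k : ℕ} {e : ℝ}
  {φ χ : X → X} {e₁ e₂ : ℝ}

/-- The good lifts of the point `χ x`. -/
def Good (S : HypSys X E) (ψ : X → V D → X) (σ η : ℝ) (y : X) (r : ℝ) (t₀ m : ℕ) (χ : X → X)
    (d : ℝ) (x : X) (f : X → X) : Prop :=
  HolT S σ η m (ψ y '' ball 0 r) f ∧ f y = S.g.symm^[t₀] (χ x) ∧
    ∀ a ∈ ψ y '' ball 0 r, S.SRel d (S.g^[m] a) (S.g^[m] (f a))

/-- One step. -/
theorem step (h3 : ST3.{u, v}) (hS : Sc S ε₀ Q α β K L) (hC : Cht S D ε₀ R ψ)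
    (hsc : Scale ε₀ R Q L σ η b) (hT : Two S D D' R σ η ψ ψ' y z r r' t₀ m k e)
    (hχ : HolT S.symm σ η (t₀ + k) (ψ' z '' ball 0 r') χ) {d : ℝ}
    (hd : d + α ^ (m + k) * (Q * (3 * σ)) ≤ η)
    {x x' : X} (hx : x ∈ ψ' z '' ball 0 r') (hx' : x' ∈ ψ' z '' ball 0 r')
    (hxx : S.SRel σ (S.g.symm^[t₀ + k] x) (S.g.symm^[t₀ + k] x'))
    {f : X → X} (hf : Good S ψ σ η y r t₀ m χ d x f) :
    ∃ f', Good S ψ σ η y r t₀ m χ (d + α ^ (m + k) * (Q * (3 * σ))) x' f' ∧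
      ∀ a ∈ ψ y '' ball 0 r, S.SRel (Q * (3 * σ)) (S.g.symm^[k] (f a)) (S.g.symm^[k] (f' a)) := by
  obtain ⟨hσ0, hb0, f1, f2, f3, f4⟩ := hsc.facts hS.Q1 hS.L1
  have hη0 := hsc.η0
  have he := hT.e0
  have heη := hT.eη
  have hα := hS.α0
  have hQ := hS.Q1
  have hy : y ∈ ψ y '' ball 0 r := ⟨0, mem_ball_self hT.r0, hC.zero y⟩
  have h5 : S.SRel (2 * σ) (S.g.symm^[t₀ + k] (χ x)) (S.g.symm^[t₀ + k] (χ x')) :=
    hχ.loc x hx x' hx' hxx
  have e1 : ∀ p : X, S.g.symm^[t₀ + k] p = S.g.symm^[k] (S.g.symm^[t₀] p) := fun p => by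
    rw [add_comm, Function.iterate_add_apply]
  have h6 : Q * (e + 2 * σ) ≤ Q * (3 * σ) := mul_le_mul_of_nonneg_left (by linarith) (by linarith)
  have h7 : α ^ (m + k) * (Q * (e + 2 * σ)) ≤ α ^ (m + k) * (Q * (3 * σ)) :=
    mul_le_mul_of_nonneg_left h6 (by positivity)
  obtain ⟨f', g1, g2, g3⟩ := h3 X E S ε₀ Q α β K L R σ η b hS hsc (ψ y '' ball 0 r) f m k y
    (S.g.symm^[k] (S.g.symm^[t₀] (χ x'))) e d (2 * σ) hf.1 hy he (by linarith) (by linarith)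
    le_rfl (hT.w1 f hf.1) hf.2.2 (by rw [hf.2.1, ← e1, ← e1]; exact h5) (by linarith)
  refine ⟨f', ⟨g1, ?_, fun a ha => (g3 a ha).2.2.mono (by linarith)⟩,
    fun a ha => (g3 a ha).1.mono h6⟩
  rw [g2, iter_iter_symm]

/-- The crossing holonomy (a). -/
theorem cross (h2 : ST2.{u, v}) (h3 : ST3.{u, v}) (hS : Sc S ε₀ Q α β K L)
    (hC : Cht S D ε₀ R ψ)
    (hsc : Scale ε₀ R Q L σ η b) (hT : Two S D D' R σ η ψ ψ' y z r r' t₀ m k e)
    (hχ : HolT S.symm σ η (t₀ + k) (ψ' z '' ball 0 r') χ)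
    (hr2 : ∀ x ∈ ψ' z '' ball 0 r', S.URel e₂ (S.g.symm^[t₀ + k] x) (S.g.symm^[t₀ + k] (χ x)))
    (hn2 : e₂ + e ≤ η) {d : ℝ} (hd : d + α ^ (m + k) * (Q * (3 * σ)) ≤ η)
    {ρ : ℝ} (hρ : ρ ≤ r') {F : X → X → X}
    (hF : ∀ x ∈ ψ' z '' ball 0 ρ, Good S ψ σ η y r t₀ m χ d x (F x)) {a : X}
    (ha : a ∈ ψ y '' ball 0 r) :
    HolT S.symm σ η (t₀ + k) (ψ' z '' ball 0 ρ) (fun x => S.g^[t₀] (F x a)) ∧
      ∀ x ∈ ψ' z '' ball 0 ρ,
        S.URel (e₂ + e) (S.g.symm^[t₀ + k] x) (S.g.symm^[k] (F x a)) := by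
  obtain ⟨hσ0, hb0, f1, f2, f3, f4⟩ := hsc.facts hS.Q1 hS.L1
  have hη0 := hsc.η0
  have he := hT.e0
  have heη := hT.eη
  have hG := hS.geo
  have hbε := hsc.bε
  have hrR : r ≤ R := by linarith [hT.rR, hC.pos]
  have hy : y ∈ ψ y '' ball 0 r := ⟨0, mem_ball_self hT.r0, hC.zero y⟩
  have hsub : ψ' z '' ball 0 ρ ⊆ ψ' z '' ball 0 r' := image_mono (ball_subset_ball hρ)
  have e1 : ∀ p : X, S.g.symm^[t₀ + k] p = S.g.symm^[k] (S.g.symm^[t₀] p) := fun p => by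
    rw [add_comm, Function.iterate_add_apply]
  have e2 : ∀ p : X, S.g.symm^[t₀ + k] (S.g^[t₀] p) = S.g.symm^[k] p := fun p => by
    rw [e1, iter_symm_iter]
  have hrel : ∀ x ∈ ψ' z '' ball 0 ρ, ∀ a ∈ ψ y '' ball 0 r,
      S.URel (e₂ + e) (S.g.symm^[t₀ + k] x) (S.g.symm^[k] (F x a)) := by
    intro x hx a ha
    have h5 := hr2 x (hsub hx)
    have h6 := hT.w1 (F x) (hF x hx).1 a ha
    rw [(hF x hx).2.1, ← e1] at h6
    exact h5.trans h6
  have hsa : ∀ x ∈ ψ' z '' ball 0 ρ, SAsym S a (F x a) := by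
    intro x hx
    have h5 : S.SRel η (S.g^[m] a) (S.g^[m] (F x a)) := (hF x hx).1.rel a ha
    exact SAsym.of_iter m (hG.sasym _ _ (h5.mono (by linarith)))
  refine ⟨⟨(hχ.mono hsub).ua, ?_, ?_, ?_, ?_⟩, fun x hx => hrel x hx a ha⟩
  · intro x hx x' hx'
    have h5 : SAsym S (S.g^[t₀] (F x a)) (S.g^[t₀] (F x' a)) :=
      ((hsa x hx).symm.trans (hsa x' hx')).iter t₀
    exact h5
  · intro x hx x' hx' hxx
    have h5 : F x a = F x' a := (S.g.injective.iterate t₀) hxx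
    have h6 := h2 X E S D ε₀ Q α β K L R σ η b ψ hS hC hsc y r hrR m (F x) (F x') (hF x hx).1
      (hF x' hx').1 a ha h5 y hy
    rw [(hF x hx).2.1, (hF x' hx').2.1] at h6
    exact hχ.inj (hsub hx) (hsub hx') ((S.g.symm.injective.iterate t₀) h6)
  · intro x hx
    show S.URel η (S.g.symm^[t₀ + k] x) (S.g.symm^[t₀ + k] (S.g^[t₀] (F x a)))
    rw [e2]
    exact (hrel x hx a ha).mono hn2
  · intro x hx x' hx' hxx
    show S.SRel (2 * σ) (S.g.symm^[t₀ + k] (S.g^[t₀] (F x a)))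
      (S.g.symm^[t₀ + k] (S.g^[t₀] (F x' a)))
    rw [e2, e2]
    have hxx' : S.SRel σ (S.g.symm^[t₀ + k] x) (S.g.symm^[t₀ + k] x') := hxx
    obtain ⟨f', g1, g2⟩ := step h3 hS hC hsc hT hχ hd (hsub hx) (hsub hx') hxx' (hF x hx)
    have h6 := h2 X E S D ε₀ Q α β K L R σ η b ψ hS hC hsc y r hrR m f' (F x') g1.1
      (hF x' hx').1 y hy (by rw [g1.2.1, (hF x' hx').2.1]) a ha
    have h7 := g2 a ha
    rw [h6] at h7
    have h8 := hG.SRel_dist (h7.mono (by linarith))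
    refine h8.mono ?_
    have d1 := (hrel x hx a ha).dist_le
    have d2 := (hrel x' hx' a ha).dist_le
    have d3 := hxx'.dist_le
    have d4 := dist_triangle4 (S.g.symm^[k] (F x a)) (S.g.symm^[t₀ + k] x)
      (S.g.symm^[t₀ + k] x') (S.g.symm^[k] (F x' a))
    rw [dist_comm (S.g.symm^[k] (F x a)) (S.g.symm^[t₀ + k] x)] at d4
    linarith

end T4w

open T4w in
theorem sT4 (h2 : ST2.{u, v}) (h3 : ST3.{u, v}) : ST4.{u, v} := by
  intro X E _ _ _ _ S D D' ε₀ Q α β K K' L R σ η b ψ ψ' hS hC hS' hC' hsc y z r r' t₀ m k e hT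
    φ χ e₁ e₂ hφ hχ h0 hr1 hr2 he1 he2 hn1 hn2
  obtain ⟨hσ0, hb0, f1, f2, f3, f4⟩ := hsc.facts hS.Q1 hS.L1
  have hη0 := hsc.η0
  have he := hT.e0
  have hα := hS.α0
  have hQ := hS.Q1
  have hL := hS.L1
  have hR := hC.pos
  have hrR : r ≤ R := by linarith [hT.rR]
  have hr'R : r' ≤ R := by linarith [hT.rR']
  have hr'0 := hT.r0'
  have hy : y ∈ ψ y '' ball 0 r := ⟨0, mem_ball_self hT.r0, hC.zero y⟩
  set δ := α ^ (m + k) * (Q * (3 * σ)) with hδ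
  have hδ0 : 0 ≤ δ := by positivity
  have hz : ∀ ρ : ℝ, 0 < ρ → z ∈ ψ' z '' ball 0 ρ := fun ρ hρ =>
    ⟨0, mem_ball_self hρ, hC'.zero z⟩
  -- (b)
  have hb : ∀ (ρ : ℝ), 0 < ρ → ρ ≤ r' → ∀ F : X → X → X,
      (∀ x ∈ ψ' z '' ball 0 ρ, Good S ψ σ η y r t₀ m χ (e₁ + e + δ) x (F x)) →
      (∀ a ∈ ψ y '' ball 0 r, F z a = φ a) ∧
      ∀ x ∈ ψ' z '' ball 0 ρ, Good S ψ σ η y r t₀ m χ (e₁ + e) x (F x) := by
    intro ρ hρ hρr F hF
    have h5 : ∀ a ∈ ψ y '' ball 0 r, F z a = φ a := fun a ha =>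
      h2 X E S D ε₀ Q α β K L R σ η b ψ hS hC hsc y r hrR m (F z) φ (hF z (hz ρ hρ)).1
        hφ y hy (by rw [(hF z (hz ρ hρ)).2.1, h0]) a ha
    refine ⟨h5, fun x hx => ⟨(hF x hx).1, (hF x hx).2.1, fun a ha => ?_⟩⟩
    obtain ⟨h6, -⟩ := cross h2 h3 hS hC hsc hT hχ hr2 hn2 (d := e₁ + e + δ) (by linarith) hρr
      hF ha
    have h7 := hT.w2 ρ hρ hρr _ h6 x hx
    have e3 : ∀ p : X, S.g^[m - t₀] (S.g^[t₀] p) = S.g^[m] p := fun p => by
      rw [← Function.iterate_add_apply, Nat.sub_add_cancel hT.tm]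
    simp only [e3] at h7
    rw [h5 a ha] at h7
    exact (hr1 a ha).trans h7
  -- (c)
  set θ := σ / (2 * L ^ (t₀ + k)) with hθ
  have hθ0 : 0 < θ := by positivity
  have hclose : ∀ v v' : V D', ‖v‖ < r' → ‖v'‖ < r' → ‖v - v'‖ ≤ θ →
      S.SRel σ (S.g.symm^[t₀ + k] (ψ' z v)) (S.g.symm^[t₀ + k] (ψ' z v')) := by
    intro v v' hv hv' hvv
    have h5 := hC'.urel hS'.geo (x := z) (hv.le.trans hr'R) (hv'.le.trans hr'R)
    have h6 := URel_fwd hS' (t₀ + k) h5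
    have h7 : S.SRel (L ^ (t₀ + k) * (2 * ‖v - v'‖)) (S.g.symm^[t₀ + k] (ψ' z v))
      (S.g.symm^[t₀ + k] (ψ' z v')) := h6
    refine h7.mono ?_
    calc L ^ (t₀ + k) * (2 * ‖v - v'‖) ≤ L ^ (t₀ + k) * (2 * θ) := by gcongr
      _ = σ := by
        rw [hθ]
        field_simp
  have hall : ∀ n : ℕ, ∀ v' : V D', ‖v'‖ < n * θ → ‖v'‖ < r' →
      ∃ f, Good S ψ σ η y r t₀ m χ (e₁ + e + δ) (ψ' z v') f := by
    intro n
    induction n with
    | zero =>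
      intro v' hv'
      rw [Nat.cast_zero, zero_mul] at hv'
      exact absurd hv' (not_lt.2 (norm_nonneg _))
    | succ n ih =>
      intro v' hv' hv'r
      have hx' : ψ' z v' ∈ ψ' z '' ball 0 r' := ⟨v', by rwa [mem_ball_zero_iff], rfl⟩
      rcases Nat.eq_zero_or_pos n with rfl | hn
      · -- the first step
        have hv'' : ‖v'‖ < θ := by simpa using hv'
        have h5 : Good S ψ σ η y r t₀ m χ (e₁ + e) (ψ' z 0) φ := by
          refine ⟨hφ, ?_, fun a ha => (hr1 a ha).mono (by linarith)⟩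
          rw [hC'.zero, h0]
        have hx : ψ' z 0 ∈ ψ' z '' ball 0 r' := ⟨0, mem_ball_self hr'0, rfl⟩
        obtain ⟨f', g1, -⟩ := step h3 hS hC hsc hT hχ (d := e₁ + e) (by linarith) hx hx'
          (hclose 0 v' (by rwa [norm_zero]) hv'r (by rw [zero_sub, norm_neg]; exact hv''.le)) h5
        exact ⟨f', g1⟩
      · have hn0 : (1 : ℝ) ≤ n := by exact_mod_cast hn
        set ρ := min (n * θ) r' with hρ
        have hρ0 : 0 < ρ := lt_min (by positivity) hr'0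
        have hρr : ρ ≤ r' := min_le_right _ _
        have key : ∀ x : X, ∃ f, x ∈ ψ' z '' ball 0 ρ →
            Good S ψ σ η y r t₀ m χ (e₁ + e + δ) x f := by
          intro x
          by_cases hx : x ∈ ψ' z '' ball 0 ρ
          · obtain ⟨v, hv, rfl⟩ := hx
            rw [mem_ball_zero_iff] at hv
            obtain ⟨f, hf⟩ := ih v (hv.trans_le (min_le_left _ _)) (hv.trans_le (min_le_right _ _))
            exact ⟨f, fun _ => hf⟩
          · exact ⟨φ, fun h => absurd h hx⟩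
        choose F hF using key
        obtain ⟨-, h6⟩ := hb ρ hρ0 hρr F hF
        -- the previous point
        obtain ⟨v, hv1, hv2⟩ : ∃ v : V D', ‖v‖ < ρ ∧ ‖v - v'‖ ≤ θ := by
          rcases lt_or_ge (‖v'‖) θ with h7 | h7
          · exact ⟨0, by rwa [norm_zero], by rw [zero_sub, norm_neg]; exact h7.le⟩
          · have h8 : 0 < ‖v'‖ := hθ0.trans_le h7
            refine ⟨(1 - θ / ‖v'‖) • v', ?_, ?_⟩
            · have h9 : 0 ≤ 1 - θ / ‖v'‖ := by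
                rw [sub_nonneg, div_le_one h8]
                exact h7
              rw [norm_smul, Real.norm_eq_abs, abs_of_nonneg h9, sub_mul, one_mul,
                div_mul_cancel₀ _ h8.ne']
              refine lt_min ?_ (by linarith)
              push_cast at hv'
              linarith
            · have e4 : (1 - θ / ‖v'‖) • v' - v' = -((θ / ‖v'‖) • v') := by
                rw [sub_smul, one_smul]
                abel
              rw [e4, norm_neg, norm_smul, Real.norm_eq_abs, abs_of_nonneg (by positivity),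
                div_mul_cancel₀ _ h8.ne']
        have hxm : ψ' z v ∈ ψ' z '' ball 0 ρ := ⟨v, by rwa [mem_ball_zero_iff], rfl⟩
        have hxm' : ψ' z v ∈ ψ' z '' ball 0 r' := image_mono (ball_subset_ball hρr) hxm
        obtain ⟨f', g1, -⟩ := step h3 hS hC hsc hT hχ (d := e₁ + e) (by linarith) hxm' hx'
          (hclose v v' (hv1.trans_le hρr) hv'r hv2) (h6 _ hxm)
        exact ⟨f', g1⟩
  -- the end
  obtain ⟨n, hn⟩ := exists_nat_gt (r' / θ)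
  have hnr : r' < n * θ := by rwa [div_lt_iff₀ hθ0] at hn
  have key : ∀ x : X, ∃ f, x ∈ ψ' z '' ball 0 r' →
      Good S ψ σ η y r t₀ m χ (e₁ + e + δ) x f := by
    intro x
    by_cases hx : x ∈ ψ' z '' ball 0 r'
    · obtain ⟨v, hv, rfl⟩ := hx
      rw [mem_ball_zero_iff] at hv
      obtain ⟨f, hf⟩ := hall n v (hv.trans hnr) hv
      exact ⟨f, fun _ => hf⟩
    · exact ⟨φ, fun h => absurd h hx⟩
  choose F hF using key
  obtain ⟨h5, h6⟩ := hb r' hr'0 le_rfl F hF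
  refine ⟨F, fun x hx => ⟨(h6 x hx).1, (h6 x hx).2.1, fun a ha => ⟨(h6 x hx).2.2 a ha, ?_⟩⟩, h5,
    fun a ha => ?_⟩
  · exact (cross h2 h3 hS hC hsc hT hχ hr2 hn2 (d := e₁ + e) (by linarith) le_rfl h6 ha).2 x hx
  · exact (cross h2 h3 hS hC hsc hT hχ hr2 hn2 (d := e₁ + e) (by linarith) le_rfl h6 ha).1

end Pool.Agent.Q192.PT
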