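import Pool.Agent.Q192.PT.Stm

/-!
# Project PT: transport of balls from the crossing lemma
-/

set_option autoImplicit false

open Filter Topology Set Metric

namespace Pool.Agent.Q192.PT

open Pool.Agent.H721R2 Pool.Agent.H779R2.An Pool.Agent.Q130.UQ Pool.Agent.H789R2.AN
  Pool.Agent.H789R2.GP Pool.Agent.TH304.K289 Pool.Agent.TH289.L Pool.Agent.Y330.H Pool.Agent.Y330.G
  Pool.Agent.Y330.J Pool.Agent.Q192.PI Pool.Agent.Q192.PI.B Pool.Agent.Q192.PG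

universe u v

namespace T5

variable {X : Type u} {E : Type v} [MetricSpace X] [NormedAddCommGroup E] [NormedSpace ℝ E]

/-- the identity is a holonomy -/
theorem hol_id {S : HypSys X E} {D : ℕ} {ε₀ R : ℝ} {ψ : X → V D → X} (hG : Geo S ε₀)
    (hC : Cht S D ε₀ R ψ) {σ η : ℝ} (hσ : 0 ≤ σ) (hη : 0 ≤ η) (T : ℕ) (y : X) {r : ℝ}
    (hr : r ≤ R) : HolT S σ η T (ψ y '' ball 0 r) id := by
  have hua : ∀ a ∈ ψ y '' ball 0 r, ∀ a' ∈ ψ y '' ball 0 r, UAsym S a a' := by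
    rintro _ ⟨w, hw, rfl⟩ _ ⟨w', hw', rfl⟩
    rw [mem_ball_zero_iff] at hw hw'
    exact hG.uasym _ _ (hC.rel y w w' (hw.le.trans hr) (hw'.le.trans hr))
  refine ⟨hua, hua, Set.injOn_id _, ?_, ?_⟩
  · intro a _ k
    rw [id, dist_self]
    exact hη
  · intro a _ a' _ h
    exact h.mono (by linarith)

end T5

open T5 in
theorem sT5 (h4 : ST4.{u, v}) : ST5.{u, v} := by
  intro X E _ _ _ _ S D D' ε₀ Q α β K K' L R σ η b ψ ψ' hS hC hS' hC' hsc hW hW' hgr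
  intro y _ P hyP r hr hrR _
  have hR := hC.pos
  have hη := hsc.η0
  obtain ⟨hσ, -, -, -, -, -⟩ := hsc.facts hS.Q1 hS.L1
  have hQ : 0 < Q := lt_of_lt_of_le one_pos hS.Q1
  obtain ⟨t₀, ht₀⟩ := hyP.eventually (ε := R / 64) (by positivity)
  have h1 : S.SRel (R / 64) (S.g^[t₀] y) (S.g^[t₀] P) := ht₀ t₀ le_rfl
  obtain ⟨v₁, hv1, -, hv3⟩ := hC'.pt (x := S.g^[t₀] y) (z := S.g^[t₀] P) (c := R / 64)
    (by linarith) h1
  have hd : dist (S.g^[t₀] y) (S.g^[t₀] P) ≤ R / 64 := h1 0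
  obtain ⟨C₁, hC₁, w1⟩ := hW (η / 8) (by positivity)
  obtain ⟨C₂, hC₂, w2⟩ := hW' (η / 8) (by positivity)
  set C := max (max C₁ C₂) (16 * Q * σ / η) with hCdef
  have c1 : C₁ ≤ C := (le_max_left _ _).trans (le_max_left _ _)
  have c2 : C₂ ≤ C := (le_max_right _ _).trans (le_max_left _ _)
  have c3 : 16 * Q * σ / η ≤ C := le_max_right _ _
  obtain ⟨k, m, htm, g1, g2, g3⟩ := hgr C t₀
  have hK : 0 < K := lt_of_lt_of_le one_pos hS.K1
  have hK' : 0 < K' := lt_of_lt_of_le one_pos hS'.K1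
  have hα := hS.α0
  have hβ := hS.β0
  have g1' : C₁ * K ^ (2 * D * m) * β ^ k ≤ 1 := by
    refine le_trans ?_ g1
    gcongr
  have g2' : C₂ * K' ^ (2 * D' * (t₀ + k)) * α ^ (m - t₀) ≤ 1 := by
    refine le_trans ?_ g2
    gcongr
  have g3' : 16 * Q * σ / η * α ^ (m + k) ≤ 1 := by
    refine le_trans ?_ g3
    gcongr
  have hTwo : Two S D D' R σ η ψ ψ' y (S.g^[t₀] y) r (R / 8) t₀ m k (η / 8) := by
    refine ⟨hr, hrR, by positivity, le_rfl, htm, by positivity, by linarith, ?_, ?_⟩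
    · rintro φ hφ _ ⟨w, hw, rfl⟩
      rw [mem_ball_zero_iff] at hw
      exact w1 y r hr hrR (fun _ _ => mem_univ _) m φ hφ k g1' w hw
    · rintro ρ hρ hρr χ hχ _ ⟨w, hw, rfl⟩
      rw [mem_ball_zero_iff] at hw
      exact w2 (S.g^[t₀] y) ρ hρ hρr (fun _ _ => mem_univ _) (t₀ + k) χ hχ (m - t₀) g2' w hw
  have hR8 : R / 8 ≤ R := by linarith
  have hid := hol_id hS.geo hC hσ.le hη.le m y (r := r) (by linarith)
  have hid' := hol_id hS'.geo hC' hσ.le hη.le (t₀ + k) (S.g^[t₀] y) (r := R / 8) hR8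
  obtain ⟨F, hF, -, -⟩ := h4 X E S D D' ε₀ Q α β K K' L R σ η b ψ ψ' hS hC hS' hC' hsc y
    (S.g^[t₀] y) r (R / 8) t₀ m k (η / 8) hTwo id id 0 0 hid hid'
    (by simp only [id]; exact (iter_symm_iter S t₀ y).symm)
    (fun a _ j => by simp only [id]; rw [dist_self])
    (fun a _ j => by simp only [id]; rw [dist_self]) le_rfl le_rfl
    (by
      have e1 : 16 * Q * σ / η * α ^ (m + k) = 16 * (Q * σ * α ^ (m + k)) / η := by ring
      rw [e1, div_le_one hη] at g3'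
      have e2 : 2 * (α ^ (m + k) * (Q * (3 * σ))) = 6 * (Q * σ * α ^ (m + k)) := by ring
      rw [e2]
      linarith)
    (by linarith)
  have hmem : S.g^[t₀] P ∈ ψ' (S.g^[t₀] y) '' ball 0 (R / 8) := by
    refine ⟨v₁, ?_, hv3⟩
    rw [mem_ball_zero_iff]
    linarith
  obtain ⟨f1, f2, -⟩ := hF _ hmem
  refine ⟨m, F (S.g^[t₀] P), f1, ?_⟩
  rw [f2]
  simp only [id]
  exact iter_symm_iter S t₀ P

end Pool.Agent.Q192.PT
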