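import Pool.Agent.Q192.PT.Stm

/-!
# Project PT: the numerical lemma
-/

set_option autoImplicit false

namespace Pool.Agent.Q192.PT

namespace T6

theorem pw {K : ℝ} (hK : 0 < K) (n : ℕ) : K ^ n = Real.exp (n * Real.log K) := by
  rw [Real.exp_nat_mul, Real.exp_log hK]

/-- the basic estimates -/
theorem master (α β K K' : ℝ) (D D' : ℕ) (hα : 0 < α) (hα1 : α < 1) (hβ : 0 < β) (hβ1 : β < 1)
    (hK : 1 ≤ K) (hK' : 1 ≤ K')
    (h : 4 * D * D' * Real.log K * Real.log K' < Real.log α⁻¹ * Real.log β⁻¹) :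
    ∃ δ : ℝ, 0 < δ ∧ ∃ ρ : ℝ, 0 < ρ ∧ ∃ c : ℝ, 0 ≤ c ∧ ∃ c' : ℝ, 0 ≤ c' ∧ ∀ k T t₀ : ℕ, ρ * k ≤ T → (T : ℝ) ≤ ρ * k + 1 → t₀ ≤ T →
      K ^ (2 * D * T) * β ^ k ≤ Real.exp (c + c' * t₀ - δ * k) ∧
      K' ^ (2 * D' * (t₀ + k)) * α ^ (T - t₀) ≤ Real.exp (c + c' * t₀ - δ * k) ∧
      α ^ (T + k) ≤ Real.exp (c + c' * t₀ - δ * k) := by
  have hlK : 0 ≤ Real.log K := Real.log_nonneg hK
  have hlK' : 0 ≤ Real.log K' := Real.log_nonneg hK'
  rw [Real.log_inv, Real.log_inv] at h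
  obtain ⟨s, hs⟩ : ∃ s, s = -Real.log α := ⟨_, rfl⟩
  obtain ⟨w, hw⟩ : ∃ w, w = -Real.log β := ⟨_, rfl⟩
  obtain ⟨p, hp⟩ : ∃ p, p = 2 * D * Real.log K := ⟨_, rfl⟩
  obtain ⟨q, hq⟩ : ∃ q, q = 2 * D' * Real.log K' := ⟨_, rfl⟩
  have hs0 : 0 < s := by rw [hs]; linarith [Real.log_neg hα hα1]
  have hw0 : 0 < w := by rw [hw]; linarith [Real.log_neg hβ hβ1]
  have hp0 : 0 ≤ p := by rw [hp]; positivity
  have hq0 : 0 ≤ q := by rw [hq]; positivity
  have hpq : p * q < s * w := by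
    rw [hp, hq, hs, hw]
    calc 2 * (D : ℝ) * Real.log K * (2 * D' * Real.log K') =
        4 * D * D' * Real.log K * Real.log K' := by ring
      _ < _ := h
  obtain ⟨ε, hε⟩ : ∃ ε, ε = (s * w - p * q) / (2 * (p + 1)) := ⟨_, rfl⟩
  have hε0 : 0 < ε := by rw [hε]; exact div_pos (by linarith) (by linarith)
  have hε1 : 2 * ((p + 1) * ε) = s * w - p * q := by rw [hε]; field_simp
  obtain ⟨ρ, hρ⟩ : ∃ ρ, ρ = (q + ε) / s := ⟨_, rfl⟩
  have hρ0 : 0 < ρ := by rw [hρ]; exact div_pos (by linarith) hs0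
  have hρs : ρ * s = q + ε := by rw [hρ]; field_simp
  have hρp : 0 < w - ρ * p := by
    have h1 : (ρ * s) * p < w * s := by
      rw [hρs]
      nlinarith
    have h2 : (ρ * p) * s < w * s := by linarith
    have := lt_of_mul_lt_mul_right h2 hs0.le
    linarith
  refine ⟨min (w - ρ * p) (min ε s), lt_min hρp (lt_min hε0 hs0), ρ, hρ0, p, hp0, q + s,
    by linarith, ?_⟩
  intro k T t₀ h1 h2 h3
  set δ := min (w - ρ * p) (min ε s) with hδ
  have d1 : δ ≤ w - ρ * p := min_le_left _ _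
  have d2 : δ ≤ ε := (min_le_right _ _).trans (min_le_left _ _)
  have d3 : δ ≤ s := (min_le_right _ _).trans (min_le_right _ _)
  have hk0 : (0 : ℝ) ≤ k := Nat.cast_nonneg k
  have ht0 : (0 : ℝ) ≤ t₀ := Nat.cast_nonneg t₀
  have hT0 : (0 : ℝ) ≤ T := Nat.cast_nonneg T
  have hqst : 0 ≤ (q + s) * t₀ := by positivity
  refine ⟨?_, ?_, ?_⟩
  · rw [pw (by linarith : 0 < K), pw hβ, ← Real.exp_add]
    refine Real.exp_le_exp.2 ?_
    have e1 : ((2 * D * T : ℕ) : ℝ) * Real.log K = p * T := by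
      rw [hp]; push_cast; ring
    have e2 : (k : ℝ) * Real.log β = -(w * k) := by rw [hw]; ring
    rw [e1, e2]
    have f1 : p * T ≤ p * (ρ * k + 1) := mul_le_mul_of_nonneg_left h2 hp0
    have f2 : δ * k ≤ (w - ρ * p) * k := mul_le_mul_of_nonneg_right d1 hk0
    have f3 : p * (ρ * k + 1) = p * ρ * k + p := by ring
    have f4 : (w - ρ * p) * k = w * k - p * ρ * k := by ring
    linarith
  · rw [pw (by linarith : 0 < K'), pw hα, ← Real.exp_add]
    refine Real.exp_le_exp.2 ?_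
    have e1 : ((2 * D' * (t₀ + k) : ℕ) : ℝ) * Real.log K' = q * (t₀ + k) := by
      rw [hq]; push_cast; ring
    have e2 : ((T - t₀ : ℕ) : ℝ) * Real.log α = -(s * (T - t₀)) := by
      rw [Nat.cast_sub h3, hs]; ring
    rw [e1, e2]
    have f1 : s * (ρ * k) ≤ s * T := mul_le_mul_of_nonneg_left h1 hs0.le
    have f2 : δ * k ≤ ε * k := mul_le_mul_of_nonneg_right d2 hk0
    have f3 : s * (ρ * k) = q * k + ε * k := by
      have : s * (ρ * k) = (ρ * s) * k := by ring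
      rw [this, hρs]
      ring
    have f4 : q * ((t₀ : ℝ) + k) + -(s * (T - t₀)) = (q + s) * t₀ + q * k - s * T := by ring
    linarith
  · rw [pw hα]
    refine Real.exp_le_exp.2 ?_
    have e2 : ((T + k : ℕ) : ℝ) * Real.log α = -(s * (T + k)) := by
      rw [hs]; push_cast; ring
    rw [e2]
    have f1 : 0 ≤ s * T := by positivity
    have f2 : δ * k ≤ s * k := mul_le_mul_of_nonneg_right d3 hk0
    have f3 : -(s * ((T : ℝ) + k)) = -(s * T) - s * k := by ring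
    linarith

theorem bd {C X Y : ℝ} (hX : 0 ≤ X) (h : X ≤ Y) (h1 : |C| * Y ≤ 1) : C * X ≤ 1 :=
  calc C * X ≤ |C| * X := mul_le_mul_of_nonneg_right (le_abs_self C) hX
    _ ≤ |C| * Y := mul_le_mul_of_nonneg_left h (abs_nonneg C)
    _ ≤ 1 := h1

theorem ex_k {δ c : ℝ} (hδ : 0 < δ) (C : ℝ) : ∃ k₀ : ℕ, ∀ k : ℕ, k₀ ≤ k →
    |C| * Real.exp (c - δ * k) ≤ 1 := by
  obtain ⟨k₀, hk₀⟩ := exists_nat_ge ((Real.log (|C| + 1) + c) / δ)
  refine ⟨k₀, fun k hk => ?_⟩
  have h1 : (Real.log (|C| + 1) + c) / δ ≤ k := hk₀.trans (by exact_mod_cast hk)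
  rw [div_le_iff₀ hδ] at h1
  have h2 : 0 < |C| + 1 := by positivity
  calc |C| * Real.exp (c - δ * k) ≤ (|C| + 1) * Real.exp (c - δ * k) := by
        refine mul_le_mul_of_nonneg_right (by linarith) (Real.exp_pos _).le
    _ = Real.exp (Real.log (|C| + 1) + (c - δ * k)) := by
        rw [Real.exp_add, Real.exp_log h2]
    _ ≤ Real.exp 0 := Real.exp_le_exp.2 (by linarith)
    _ = 1 := Real.exp_zero

end T6

open T6 in
theorem sT6 : ST6 := by
  intro α β K K' D D' hα hα1 hβ hβ1 hK hK' h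
  obtain ⟨δ, hδ, ρ, hρ, c, hc, c', hc', M⟩ := master α β K K' D D' hα hα1 hβ hβ1 hK hK' h
  have hTex : ∀ k : ℕ, ∃ T : ℕ, ρ * k ≤ T ∧ (T : ℝ) ≤ ρ * k + 1 := fun k =>
    ⟨⌈ρ * k⌉₊, Nat.le_ceil _, (Nat.ceil_lt_add_one (by positivity)).le⟩
  have hKp : 0 < K := by linarith
  have hKp' : 0 < K' := by linarith
  constructor
  · intro C t₀
    obtain ⟨k₁, hk₁⟩ := ex_k (c := c + c' * t₀) hδ C
    obtain ⟨k₂, hk₂⟩ := exists_nat_ge ((t₀ : ℝ) / ρ)
    obtain ⟨T, hT1, hT2⟩ := hTex (max k₁ k₂)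
    set k := max k₁ k₂ with hk
    have hkk : (k₂ : ℝ) ≤ k := by exact_mod_cast le_max_right _ _
    have ht : t₀ ≤ T := by
      rw [div_le_iff₀ hρ] at hk₂
      have : (t₀ : ℝ) ≤ T := by nlinarith
      exact_mod_cast this
    obtain ⟨m1, m2, m3⟩ := M k T t₀ hT1 hT2 ht
    have e := hk₁ k (le_max_left _ _)
    refine ⟨k, T, ht, ?_, ?_, ?_⟩
    · rw [mul_assoc]
      exact bd (by positivity) m1 e
    · rw [mul_assoc]
      exact bd (by positivity) m2 e
    · exact bd (by positivity) m3 e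
  · obtain ⟨A', hA'⟩ := exists_nat_ge (1 / δ)
    obtain ⟨r, hr⟩ := exists_nat_ge ρ
    rw [div_le_iff₀ hδ] at hA'
    refine ⟨(1 + r) * A', fun C => ?_⟩
    obtain ⟨B', hB'⟩ := ex_k (c := c) hδ (2 * C)
    refine ⟨(1 + r) * B' + 1, fun n => ?_⟩
    set l := Nat.log 2 (n + 1) with hl
    set k := A' * l + B' with hk
    obtain ⟨T, hT1, hT2⟩ := hTex k
    obtain ⟨m1, m2, m3⟩ := M k T 0 hT1 hT2 (Nat.zero_le _)
    have hn : (n : ℝ) ≤ 2 * Real.exp l := by
      have h1 : n + 1 < 2 ^ (l + 1) := Nat.lt_pow_succ_log_self (by norm_num) _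
      have h2 : (n : ℝ) + 1 < 2 ^ (l + 1) := by exact_mod_cast h1
      have h3 : (2 : ℝ) ^ l ≤ Real.exp l := by
        have : Real.exp l = Real.exp 1 ^ l := by rw [← Real.exp_nat_mul, mul_one]
        rw [this]
        exact pow_le_pow_left₀ (by norm_num) (by linarith [Real.add_one_le_exp (1 : ℝ)]) l
      rw [pow_succ] at h2
      linarith
    have key : ∀ X : ℝ, 0 ≤ X → X ≤ Real.exp (c + c' * ((0 : ℕ) : ℝ) - δ * k) → C * n * X ≤ 1 := by
      intro X hX hX2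
      have h1 : |C| * (n * Real.exp (c + c' * ((0 : ℕ) : ℝ) - δ * k)) ≤ 1 := by
        have h2 : (n : ℝ) * Real.exp (c + c' * ((0 : ℕ) : ℝ) - δ * k) ≤ 2 * Real.exp (c - δ * B') := by
          calc (n : ℝ) * Real.exp (c + c' * ((0 : ℕ) : ℝ) - δ * k)
              ≤ (2 * Real.exp l) * Real.exp (c + c' * ((0 : ℕ) : ℝ) - δ * k) :=
                mul_le_mul_of_nonneg_right hn (Real.exp_pos _).le
            _ = 2 * Real.exp (l + (c + c' * ((0 : ℕ) : ℝ) - δ * k)) := by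
                rw [Real.exp_add]; ring
            _ ≤ 2 * Real.exp (c - δ * B') := by
                refine mul_le_mul_of_nonneg_left (Real.exp_le_exp.2 ?_) (by norm_num)
                rw [hk]
                push_cast
                have hl0 : (0 : ℝ) ≤ l := Nat.cast_nonneg l
                nlinarith
        have h3 := hB' B' le_rfl
        rw [abs_mul, abs_of_pos (by norm_num : (0:ℝ) < 2)] at h3
        calc |C| * (n * Real.exp (c + c' * ((0 : ℕ) : ℝ) - δ * k))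
            ≤ |C| * (2 * Real.exp (c - δ * B')) := mul_le_mul_of_nonneg_left h2 (abs_nonneg C)
          _ ≤ 1 := by linarith
      have h4 := bd (C := C) (X := n * X) (by positivity)
        (mul_le_mul_of_nonneg_left hX2 (Nat.cast_nonneg n)) h1
      linarith
    refine ⟨k, T, ?_, ?_, ?_, ?_⟩
    · have h1 : (T : ℝ) ≤ r * k + 1 := by
        have : ρ * k ≤ r * k := mul_le_mul_of_nonneg_right hr (Nat.cast_nonneg k)
        linarith
      have h2 : T ≤ r * k + 1 := by exact_mod_cast h1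
      calc k + T ≤ k + (r * k + 1) := by omega
        _ = (1 + r) * A' * l + ((1 + r) * B' + 1) := by rw [hk]; ring
    · rw [mul_assoc]
      exact key _ (by positivity) m1
    · rw [mul_assoc]
      refine key _ (by positivity) ?_
      simpa using m2
    · exact key _ (by positivity) m3

end Pool.Agent.Q192.PT
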