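import Pool.Agent.Q192.PT.Stm
import Pool.Agent.Q192.PI.B13

/-!
# Project PT, ST7: common scales for a system and its inverse (by helper151)
-/

set_option autoImplicit false
set_option linter.unusedSectionVars false

open Filter Topology Set Metric

namespace Pool.Agent.Q192.PT

open Pool.Agent.H721R2 Pool.Agent.H779R2.An Pool.Agent.Q130.UQ Pool.Agent.H789R2.AN
  Pool.Agent.H789R2.GP Pool.Agent.TH304.K289 Pool.Agent.TH289.L Pool.Agent.Y330.H Pool.Agent.Y330.G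
  Pool.Agent.Y330.J Pool.Agent.Q192.PI Pool.Agent.Q192.PI.B Pool.Agent.Q192.PG

universe u v

namespace T7

variable {X : Type u} {E : Type v} [MetricSpace X] [NormedAddCommGroup E] [NormedSpace ℝ E]
  {S : HypSys X E} {ε₀ Q α β K L R : ℝ} {D : ℕ} {ψ : X → V D → X}

theorem sc_shrink (h : Sc S ε₀ Q α β K L) {ε Q' L' : ℝ} (hε : 0 < ε) (hle : ε ≤ ε₀)
    (hQ : Q ≤ Q') (hL : L ≤ L') : Sc S ε Q' α β K L' where
  geo := h.geo.mono hε hle
  Q1 := h.Q1.trans hQ
  α0 := h.α0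
  α1 := h.α1
  β0 := h.β0
  β1 := h.β1
  K1 := h.K1
  L1 := h.L1.trans hL
  br := fun x y hxy => by
    obtain ⟨w, h1, h2⟩ := h.br x y (hxy.trans hle)
    have h3 : Q * dist x y ≤ Q' * dist x y := mul_le_mul_of_nonneg_right hQ dist_nonneg
    exact ⟨w, h1.mono h3, h2.mono h3⟩
  sc := fun x y hxy => h.sc x y (hxy.mono hle)
  uc := fun x y hxy => h.uc x y (hxy.mono hle)
  lip := fun x y => (h.lip x y).trans (mul_le_mul_of_nonneg_right hL dist_nonneg)
  md := fun x z z' h1 h2 => h.md x z z' (h1.mono hle) (h2.mono hle)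

theorem cht_shrink (hG : Geo S ε₀) (h : Cht S D ε₀ R ψ) {ε R' : ℝ} (hR : 0 < R') (hRR : R' ≤ R)
    (hε : 4 * R' ≤ ε) : Cht S D ε R' ψ where
  pos := hR
  zero := h.zero
  rel := fun x a a' ha ha' => by
    refine (hG.URel_dist (h.rel x a a' (ha.trans hRR) (ha'.trans hRR))).mono ?_
    have h1 := h.le x a a' (ha.trans hRR) (ha'.trans hRR)
    have h2 := norm_sub_le a a'
    linarith
  le := fun x a a' ha ha' => h.le x a a' (ha.trans hRR) (ha'.trans hRR)
  ge := fun x a a' ha ha' => h.ge x a a' (ha.trans hRR) (ha'.trans hRR)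
  surj := fun x z hz => by
    obtain ⟨a, ha, rfl⟩ := h.surj x z (hz.mono (by linarith))
    refine ⟨a, ?_, rfl⟩
    have h1 := h.ge x a 0 ha (by rw [norm_zero]; exact h.pos.le)
    rw [h.zero, sub_zero, dist_comm] at h1
    have h2 := hz.dist_le
    linarith

end T7

open T7 in
/-- **ST7** -/
theorem sT7 : ST7.{u, v} := by
  intro X E _ _ _ _ _ S D D' α β K₁ K K₁' K' hD hD' hα hβ hα2 hβ2 hK₁ hK hK₁' hK' hd hd'
  obtain ⟨e1, Q1, L1, R1, ψ, h1, c1⟩ := sB13 X E S D α β K₁ K hD hα hβ hα2 hβ2 hK₁ hK hd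
  obtain ⟨e2, Q2, L2, R2, ψ', h2, c2⟩ := sB13 X E S.symm D' β α K₁' K' hD' hβ hα hβ2 hα2 hK₁' hK'
    (fun x v hv w hw => by
      have h3 := hd' (S.g.symm x) (S.D' x w) (S.mapS' x w hw) (S.D' x v) (S.mapS' x v hv)
      rw [S.invS' x w hw, S.invS' x v hv] at h3
      show ‖S.D' x v‖ * ‖w‖ ≤ K₁' * (‖S.D' x w‖ * ‖v‖)
      rw [mul_comm ‖S.D' x v‖, mul_comm ‖S.D' x w‖]
      exact h3)
  have p1 := h1.geo.pos
  have p2 := h2.geo.pos
  have q1 := c1.pos
  have q2 := c2.pos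
  set ε := min e1 e2 with hε
  have hε0 : 0 < ε := lt_min p1 p2
  set R := min (min R1 R2) (ε / 4) with hR
  have hR0 : 0 < R := lt_min (lt_min q1 q2) (by positivity)
  have hR1 : R ≤ R1 := (min_le_left _ _).trans (min_le_left _ _)
  have hR2 : R ≤ R2 := (min_le_left _ _).trans (min_le_right _ _)
  have hR3 : 4 * R ≤ ε := by
    have : R ≤ ε / 4 := min_le_right _ _
    linarith
  exact ⟨ε, max Q1 Q2, max L1 L2, R, ψ, ψ',
    sc_shrink h1 hε0 (min_le_left _ _) (le_max_left _ _) (le_max_left _ _),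
    cht_shrink h1.geo c1 hR0 hR1 hR3,
    sc_shrink h2 hε0 (min_le_right _ _) (le_max_right _ _) (le_max_right _ _),
    cht_shrink h2.geo c2 hR0 hR2 hR3⟩

end Pool.Agent.Q192.PT
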