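import Pool.Agent.Q192.PT.Stm

/-!
# Project PT, job ST8: linear form of the bound for the images of balls of all radii
-/

set_option autoImplicit false

open Filter Topology Set Metric

namespace Pool.Agent.Q192.PT

open Pool.Agent.H721R2 Pool.Agent.H779R2.An Pool.Agent.Q130.UQ Pool.Agent.H789R2.AN
  Pool.Agent.H789R2.GP Pool.Agent.Q192.PI.B

universe u v

/-- contraction in the past -/
lemma t8_contr {X : Type u} {E : Type v} [MetricSpace X] [NormedAddCommGroup E]
    [NormedSpace ℝ E] {S : HypSys X E} {ε₀ Q α β K L : ℝ} (hS : Sc S ε₀ Q α β K L) {x y : X}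
    (h : S.URel ε₀ x y) (m : ℕ) :
    S.URel (β ^ m * ε₀) (S.g.symm^[m] x) (S.g.symm^[m] y) := by
  intro k
  have h1 : dist x y ≤ ε₀ := h 0
  rw [← Function.iterate_add_apply, ← Function.iterate_add_apply]
  have hβ : 0 ≤ β := hS.β0.le
  have hβ1 : β ≤ 1 := by linarith [hS.β1]
  calc dist (S.g.symm^[k + m] x) (S.g.symm^[k + m] y) ≤ β ^ (k + m) * dist x y := hS.uc x y h _
    _ ≤ β ^ m * dist x y := by
      refine mul_le_mul_of_nonneg_right ?_ dist_nonneg
      exact pow_le_pow_of_le_one hβ hβ1 (by omega)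
    _ ≤ β ^ m * ε₀ := mul_le_mul_of_nonneg_left h1 (by positivity)

theorem sT8 : ST8.{u, v} := by
  intro X E _ _ _ _ S D ε₀ Q α β K L R σ η ψ hS hC hW
  have hε : 0 < ε₀ := hS.geo.pos
  have hβ : 0 < β := hS.β0
  have hβ1 : β ≤ 1 / 2 := hS.β1
  have hK1 : 1 ≤ K := hS.K1
  obtain ⟨C₀, hC₀, h⟩ := hW ε₀ hε
  set C : ℝ := (C₀ + 1) * (1 + ε₀) / β with hCdef
  have hC0 : 0 < C := by positivity
  have hCC : C₀ ≤ C := by
    rw [hCdef, le_div_iff₀ hβ]
    nlinarith
  refine ⟨C, hC0, ?_⟩
  intro y r hr hrR T φ hφ n hn w hw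
  set P : ℝ := K ^ (2 * D * T) with hP
  have hP0 : 0 < P := by positivity
  -- the time
  have hex : ∃ m ≤ n, C₀ * P * β ^ (n - m) ≤ 1 ∧ β ^ m * ε₀ ≤ C * P * β ^ n := by
    by_cases h1 : C₀ * P ≤ 1
    · refine ⟨n, le_rfl, by simpa using h1, ?_⟩
      have hP1 : 1 ≤ P := one_le_pow₀ hK1
      have e1 : ε₀ ≤ C * P := by
        have e2 : ε₀ ≤ C := by
          rw [hCdef, le_div_iff₀ hβ]
          nlinarith
        calc ε₀ ≤ C * 1 := by linarith
          _ ≤ C * P := mul_le_mul_of_nonneg_left hP1 hC0.le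
      rw [mul_comm]
      exact mul_le_mul_of_nonneg_right e1 (by positivity)
    · push Not at h1
      -- smallest j with C₀ P β ^ j ≤ 1
      have hj : ∃ j, C₀ * P * β ^ j ≤ 1 := ⟨n, by
        refine le_trans ?_ hn
        exact mul_le_mul_of_nonneg_right (mul_le_mul_of_nonneg_right hCC hP0.le) (by positivity)⟩
      classical
      set j := Nat.find hj with hjd
      have hj1 : C₀ * P * β ^ j ≤ 1 := Nat.find_spec hj
      have hjn : j ≤ n := Nat.find_min' hj (by
        refine le_trans ?_ hn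
        exact mul_le_mul_of_nonneg_right (mul_le_mul_of_nonneg_right hCC hP0.le) (by positivity))
      have hj0 : j ≠ 0 := by
        intro h0
        rw [h0, pow_zero, mul_one] at hj1
        linarith
      obtain ⟨i, hi⟩ := Nat.exists_eq_succ_of_ne_zero hj0
      have hi1 : ¬ C₀ * P * β ^ i ≤ 1 := Nat.find_min hj (by omega)
      push Not at hi1
      refine ⟨n - j, by omega, ?_, ?_⟩
      · rw [show n - (n - j) = j by omega]
        exact hj1
      · have e3 : β ^ n = β ^ (n - j) * β ^ i * β := by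
          rw [mul_assoc, ← pow_succ, ← pow_add]
          congr 1
          omega
        have e4 : C * P * β ^ n = (1 + ε₀) * β ^ (n - j) * ((C₀ + 1) * P * β ^ i) := by
          rw [e3, hCdef]
          field_simp
        have e5 : 1 ≤ (C₀ + 1) * P * β ^ i := by
          refine hi1.le.trans ?_
          exact mul_le_mul_of_nonneg_right (mul_le_mul_of_nonneg_right (by linarith) hP0.le)
            (by positivity)
        rw [e4]
        calc β ^ (n - j) * ε₀ ≤ (1 + ε₀) * β ^ (n - j) * 1 := by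
              nlinarith [pow_pos hβ (n - j)]
          _ ≤ _ := mul_le_mul_of_nonneg_left e5 (by positivity)
  obtain ⟨m, hm, h1, h2⟩ := hex
  have h3 := h y r hr hrR (fun _ _ => mem_univ _) T φ hφ (n - m) h1 w hw
  have h4 := t8_contr hS h3 m
  rw [← Function.iterate_add_apply, ← Function.iterate_add_apply,
    show m + (n - m) = n by omega] at h4
  exact fun k => (h4 k).trans h2

end Pool.Agent.Q192.PT
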