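import Pool.Agent.Q192.PT.Stm
import Pool.Agent.Q192.PG.S9

/-!
# Project PT, ST9: words have small levels, two-sided case (by helper151)
-/

set_option autoImplicit false
set_option linter.unusedSectionVars false
set_option linter.unusedVariables false

open Filter Topology Set Metric
open scoped Pointwise

namespace Pool.Agent.Q192.PT

open Pool.Agent.H721R2 Pool.Agent.H779R2.An Pool.Agent.Q130.UQ Pool.Agent.H789R2.AN
  Pool.Agent.H789R2.GP Pool.Agent.TH304.K289 Pool.Agent.TH289.L Pool.Agent.Y330.H Pool.Agent.Y330.G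
  Pool.Agent.Y330.J Pool.Agent.Q192.PI Pool.Agent.Q192.PI.B Pool.Agent.Q192.PG

universe u v

namespace T9

/-- Chains of links with decreasing sizes. -/
def CC {X : Type u} (Lk : X → X → ℝ → Prop) (e s : ℝ) : ℕ → X → X → Prop
  | 0, u, v => u = v
  | j + 1, u, v => ∃ u', Lk u u' (j * e + s) ∧ CC Lk e s j u' v

/-- Adding a last link. -/
theorem CC.snoc {X : Type u} {Lk : X → X → ℝ → Prop} {e : ℝ} {v z : X} (hz : Lk v z 0) :
    ∀ (j : ℕ) (u : X), CC Lk e e j u v → CC Lk e 0 (j + 1) u z := by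
  intro j
  induction j with
  | zero =>
    intro u h
    have h' : u = v := h
    subst h'
    refine ⟨z, ?_, rfl⟩
    rw [Nat.cast_zero, zero_mul, add_zero]
    exact hz
  | succ j ih =>
    rintro u ⟨u', h1, h2⟩
    refine ⟨u', ?_, ih u' h2⟩
    have e1 : (((j + 1 : ℕ) : ℝ)) * e + 0 = j * e + e := by push_cast; ring
    rw [e1]
    exact h1

section

variable {X : Type u} {E : Type v} [MetricSpace X] [NormedAddCommGroup E]
  [NormedSpace ℝ E] {S : HypSys X E} {ε₀ Q α β K K' L R σ η b c : ℝ} {D D' T k : ℕ}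
  {ψ : X → V D → X} {ψ' : X → V D' → X} {φ : X → X}

theorem hol_id (hS : Sc S ε₀ Q α β K L) (hC : Cht S D ε₀ R ψ) (hη : 0 ≤ η) (hσ : 0 ≤ σ) (y : X)
    {r : ℝ} (hr : r ≤ R) (T : ℕ) : HolT S σ η T (ψ y '' ball 0 r) id where
  ua := by
    rintro _ ⟨w, hw, rfl⟩ _ ⟨w', hw', rfl⟩
    exact hS.geo.uasym _ _ (hC.rel y w w' ((mem_ball_zero_iff.1 hw).le.trans hr)
      ((mem_ball_zero_iff.1 hw').le.trans hr))
  uu := by
    rintro _ ⟨w, hw, rfl⟩ _ ⟨w', hw', rfl⟩
    exact hS.geo.uasym _ _ (hC.rel y w w' ((mem_ball_zero_iff.1 hw).le.trans hr)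
      ((mem_ball_zero_iff.1 hw').le.trans hr))
  inj := Set.injOn_id _
  rel := fun a _ j => by
    rw [id, dist_self]
    exact hη
  loc := fun a _ a' _ h => h.mono (by linarith)

/-- A link from `u` to `v`. -/
def Lk (S : HypSys X E) (D' : ℕ) (σ η R : ℝ) (ψ' : X → V D' → X) (k : ℕ) (u v : X) (s : ℝ) :
    Prop :=
  ∃ (z w : X) (χ : X → X), w ∈ ψ' z '' ball 0 (R / 8) ∧
    HolT S.symm σ η k (ψ' z '' ball 0 (R / 8)) χ ∧ χ z = v ∧ χ w = u ∧
    ∀ x ∈ ψ' z '' ball 0 (R / 8), S.URel s (S.g.symm^[k] x) (S.g.symm^[k] (χ x))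

variable [CompactSpace X]

theorem push (h4 : ST4.{u, v}) (hS : Sc S ε₀ Q α β K L) (hC : Cht S D ε₀ R ψ)
    (hS' : Sc S.symm ε₀ Q β α K' L) (hC' : Cht S.symm D' ε₀ R ψ') (hs : Scale ε₀ R Q L σ η b)
    {e : ℝ} (he : 0 ≤ e) (hTwo : ∀ y z, Two S D D' R σ η ψ ψ' y z (R / 8) (R / 8) 0 T k e)
    {n : ℕ} (hn : n * e + 2 * (α ^ (T + k) * (Q * (3 * σ))) ≤ η) (y : X) :
    ∀ (j : ℕ) (u : X), j ≤ n → CC (Lk S D' σ η R ψ' k) e 0 j u y →
      ∃ Φ : X → X, HolT S σ η T (ψ y '' ball 0 (R / 8)) Φ ∧ Φ y = u ∧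
        ∀ a ∈ ψ y '' ball 0 (R / 8), S.SRel (j * e) (S.g^[T] a) (S.g^[T] (Φ a)) ∧
          CC (Lk S D' σ η R ψ' k) e e j (Φ a) a := by
  obtain ⟨hσ0, hb0, f1, f2, f3, f4⟩ := hs.facts hS.Q1 hS.L1
  have hη0 := hs.η0
  have hR := hC.pos
  have hα0 := hS.α0
  have hQ := hS.Q1
  intro j
  induction j with
  | zero =>
    intro u _ hu
    have hu' : u = y := hu
    subst hu'
    refine ⟨id, hol_id hS hC hη0.le hσ0.le u (by linarith) T, rfl, fun a _ => ⟨fun i => ?_, rfl⟩⟩
    rw [id, dist_self, Nat.cast_zero, zero_mul]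
  | succ j ih =>
    rintro u hj ⟨u', ⟨z, w, χ, hw, hχ, hχz, hχw, hχb⟩, hCC⟩
    obtain ⟨Φ, hΦ, hΦy, hΦb⟩ := ih u' (by omega) hCC
    have hjn : ((j : ℝ) + 1) * e ≤ n * e := by
      apply mul_le_mul_of_nonneg_right _ he
      exact_mod_cast hj
    have hX0 : 0 ≤ α ^ (T + k) * (Q * (3 * σ)) := by positivity
    have e0 : (0 : ℕ) + k = k := Nat.zero_add k
    have key := h4 X E S D D' ε₀ Q α β K K' L R σ η b ψ ψ' hS hC hS' hC' hs y z (R / 8) (R / 8)
      0 T k e (hTwo y z) Φ χ (j * e) (j * e) hΦ (by rw [e0]; exact hχ)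
      (by rw [Function.iterate_zero, id, hΦy, hχz])
      (fun a ha => (hΦb a ha).1)
      (fun x hx => by
        rw [e0]
        have := hχb x hx
        rwa [add_zero] at this)
      (by positivity) (by positivity) (by linarith) (by linarith)
    rw [e0] at key
    obtain ⟨F, hF1, hF2, hF3⟩ := key
    obtain ⟨g1, g2, g3⟩ := hF1 w hw
    rw [Function.iterate_zero, id, hχw] at g2
    have e1 : (((j + 1 : ℕ) : ℝ)) * e = j * e + e := by push_cast; ring
    refine ⟨F w, g1, g2, fun a ha => ⟨?_, ?_⟩⟩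
    · rw [e1]
      exact (g3 a ha).1
    · refine ⟨Φ a, ⟨z, w, fun x => F x a, hw, ?_, hF2 a ha, rfl, fun x hx => ?_⟩, (hΦb a ha).2⟩
      · exact hF3 a ha
      · exact ((hF1 x hx).2.2 a ha).2

/-- the state after `j` steps -/
def St (S : HypSys X E) (D' : ℕ) (σ η R : ℝ) (ψ' : X → V D' → X) (T k : ℕ) (e : ℝ) (j : ℕ)
    {x z : X} (a : Path.Homotopic.Quotient x z) : Prop :=
  ∃ (y : X) (p : Path x y) (q : Path y z), LPath S.g.symm p ∧ LPath S.g q ∧
    a = (cl p).trans (cl q) ∧ S.URel (j * e) (S.g.symm^[k] x) (S.g.symm^[k] y) ∧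
    S.SRel (j * e) (S.g^[T] y) (S.g^[T] z) ∧ CC (Lk S D' σ η R ψ' k) e 0 j y z

theorem step (h4 : ST4.{u, v}) (hg : LP S.g c) (hex : Ex S.g) (hS : Sc S ε₀ Q α β K L)
    (hC : Cht S D ε₀ R ψ) (hS' : Sc S.symm ε₀ Q β α K' L) (hC' : Cht S.symm D' ε₀ R ψ')
    (hs : Scale ε₀ R Q L σ η b) {e : ℝ} (he : 0 ≤ e)
    (hTwo : ∀ y z, Two S D D' R σ η ψ ψ' y z (R / 8) (R / 8) 0 T k e) {n j : ℕ}
    (hj : j + 1 ≤ n) (hn : n * e + 2 * (α ^ (T + k) * (Q * (3 * σ))) ≤ η) {ρ δ : ℝ}
    {ms mu : ℕ} (hρ : 0 < ρ) (hρR : 64 * ρ ≤ R) (hδ : 0 < δ) (hδR : 64 * δ ≤ R)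
    {x y w z : X} {a : Path.Homotopic.Quotient x y}
    (p : Path y w) (q : Path w z) (hp : LPath S.g.symm p) (hpn : Nice S.g.symm δ mu 1 fun t => p t)
    (hq : LPath S.g q) (hqn : Nice S.g ρ ms 1 fun t => q t)
    (ha : St S D' σ η R ψ' T k e j a) :
    St S D' σ η R ψ' T k e (j + 1) ((a.trans (cl p)).trans (cl q)) := by
  have hG := hS.geo
  have hR := hC.pos
  obtain ⟨hσ0, hb0, f1, f2, f3, f4⟩ := hs.facts hS.Q1 hS.L1
  have hη0 := hs.η0
  obtain ⟨a₀, P, Q', hP, hQ', rfl, hU, hSr, hCh⟩ := ha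
  obtain ⟨φ, hφ, hφy, hφ2⟩ := push h4 hS hC hS' hC' hs he hTwo hn y j a₀ (by omega) hCh
  -- the points of `p` are in the ball
  have hball : ∀ r : unitInterval, p r ∈ ψ y '' ball 0 (R / 8) := by
    intro r
    have h3 := S9.nice_one hpn 0 r
    rw [p.source] at h3
    obtain ⟨w', hw1, hw2⟩ := hC.surj y (p r) (h3.mono (by linarith))
    refine ⟨w', ?_, hw2⟩
    rw [mem_ball_zero_iff]
    have h4 := hC.ge y w' 0 hw1 (by rw [norm_zero]; exact hR.le)
    rw [sub_zero, hw2, hC.zero, dist_comm] at h4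
    have h5 := h3.dist_le
    linarith
  -- the last link
  have hwz : w ∈ ψ' z '' ball 0 (R / 8) := by
    have h3 : S.symm.URel ρ z w := by
      have := S9.nice_one (S := S.symm) (δ := ρ) (mu := ms) (p := fun t => q t) hqn 1 0
      rwa [q.target, q.source] at this
    obtain ⟨w', hw1, hw2⟩ := hC'.surj z w (h3.mono (by linarith))
    refine ⟨w', ?_, hw2⟩
    rw [mem_ball_zero_iff]
    have h4 := hC'.ge z w' 0 hw1 (by rw [norm_zero]; exact hR.le)
    rw [sub_zero, hw2, hC'.zero, dist_comm] at h4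
    have h5 := h3.dist_le
    linarith
  have hid : HolT S.symm σ η k (ψ' z '' ball 0 (R / 8)) id :=
    hol_id hS' hC' hη0.le hσ0.le z (by linarith) k
  have hlink : Lk S D' σ η R ψ' k w z 0 :=
    ⟨z, w, id, hwz, hid, rfl, rfl, fun x' _ i => by rw [id, dist_self]⟩
  have hwzS : S.SRel e (S.g^[T] w) (S.g^[T] z) := by
    have h3 := (hTwo y z).w2 (R / 8) (by linarith) le_rfl id (by rw [Nat.zero_add]; exact hid) w hwz
    rw [Nat.sub_zero] at h3
    exact h3.symm
  obtain ⟨υ, hυ⟩ := hp.sm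
  obtain ⟨Γ, hΓx, hΓy⟩ := S9.exists_strip hS hs hφ υ (fun r => by
    rw [hυ]
    exact hball r)
  obtain ⟨Rr, hRr, r1, r2⟩ := hex y a₀ w Q'.symm p hQ'.symm hp
  obtain ⟨Γ', g1, g2⟩ := hRr.strip 0 1
  have huniq := strip_unique hg Γ' Γ (fun r => by rw [g1, r2, hΓx, hυ]) (t₀ := 0) (by
    rw [g2, r1, hΓy, hυ, p.source, hφy]
    exact Q'.symm.target)
  have hright : ∀ r, Rr 1 r = φ (p r) := by
    intro r
    have := huniq r
    rw [g2, hΓy, hυ] at this
    exact this
  have hcorner : Rr 1 1 = φ w := by rw [hright, p.target]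
  obtain ⟨r', hr', hr''⟩ := Rc.right (y := Rr 1 1) hRr (x := a₀) (by rw [r1]; simp) rfl
  obtain ⟨tp, htp, htp'⟩ := Rc.top (y := Rr 1 1) hRr (x := w) (by rw [r2]; simp) rfl
  have hsw := swap_cl hRr.cont (α := Q'.symm) (β := r') (β' := p) (α' := tp) r1
    (fun r => (hr'' r).symm) r2 (fun s => (htp' s).symm)
  rw [Path.symm_symm] at hsw
  have hwball := hball 1
  rw [p.target] at hwball
  obtain ⟨hend1, hend2⟩ := hφ2 w hwball
  rw [← hcorner] at hend1 hend2
  have hend3 : S.URel e (S.g.symm^[k] a₀) (S.g.symm^[k] (Rr 1 1)) := by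
    have h3 := (hTwo y z).w1 φ hφ w hwball
    rwa [hφy, ← hcorner] at h3
  have e1 : (((j + 1 : ℕ) : ℝ)) * e = j * e + e := by push_cast; ring
  refine ⟨Rr 1 1, P.trans r', tp.symm.trans q, hP.trans hr', htp.symm.trans hq, ?_, ?_, ?_, ?_⟩
  · rw [cl_trans, cl_trans, Path.Homotopic.Quotient.trans_assoc,
      Path.Homotopic.Quotient.trans_assoc, Path.Homotopic.Quotient.trans_assoc,
      ← Path.Homotopic.Quotient.trans_assoc (cl Q'), hsw, Path.Homotopic.Quotient.trans_assoc]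
  · rw [e1]
    exact hU.trans hend3
  · rw [e1]
    exact hend1.symm.trans hwzS
  · exact CC.snoc hlink j _ hend2

end

end T9

open T9 in
/-- **ST9** -/
theorem sT9 (h4 : ST4.{u, v}) : ST9.{u, v} := by
  intro X E _ _ _ _ S D D' ε₀ Q α β K K' L R σ η b c ψ ψ' hg hex hS hC hS' hC' hs hW hW'
    ρ δ ms mu hρ hρR hρε hδ hδR
  obtain ⟨C₁, hC₁, hW1⟩ := hW
  obtain ⟨C₂, hC₂, hW2⟩ := hW'
  obtain ⟨hσ0, hb0, f1, f2, f3, f4⟩ := hs.facts hS.Q1 hS.L1
  have hη0 := hs.η0
  have hR := hC.pos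
  have hα0 := hS.α0
  have hα1 := hS.α1
  have hβ0 := hS.β0
  have hK := hS.K1
  have hK' := hS'.K1
  have hQ := hS.Q1
  have hc := hg.c_pos
  set B : ℝ := C₁ + C₂ with hB
  have hB0 : 0 < B := by positivity
  have q1 : 0 < 4 * B / η := by positivity
  have q2 : 0 < 2 * B / c := by positivity
  have q3 : 0 < 12 * (Q * σ) / η := by positivity
  refine ⟨B + 4 * B / η + 2 * B / c + 12 * (Q * σ) / η, by positivity,
    fun n k T h1 h2 h3 x z a hW => ?_⟩
  set Z := B + 4 * B / η + 2 * B / c + 12 * (Q * σ) / η with hZ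
  set P1 := K ^ (2 * D * T) * β ^ k with hP1
  set P2 := K' ^ (2 * D' * k) * α ^ T with hP2
  have p1 : 0 < P1 := by positivity
  have p2 : 0 < P2 := by positivity
  have hn0 : (0 : ℝ) ≤ n := Nat.cast_nonneg n
  set P := max P1 P2 with hP
  have pP : 0 < P := lt_max_of_lt_left p1
  have hZP : ∀ A : ℝ, 0 ≤ A → A ≤ Z → A * (n * P) ≤ 1 := by
    intro A hA hA2
    have h5 : Z * (n * P) ≤ 1 := by
      rcases le_total P1 P2 with h | h
      · rw [hP, max_eq_right h, hP2]
        refine le_trans (le_of_eq ?_) h2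
        ring
      · rw [hP, max_eq_left h, hP1]
        refine le_trans (le_of_eq ?_) h1
        ring
    exact (mul_le_mul_of_nonneg_right hA2 (by positivity)).trans h5
  set e := B * P with he
  have he0 : 0 ≤ e := by positivity
  have hne : n * e ≤ η / 4 := by
    have h5 := hZP (4 * B / η) q1.le (by rw [hZ]; linarith)
    have e1 : 4 * B / η * (n * P) = 4 * (n * e) / η := by
      rw [he]
      ring
    rw [e1, div_le_one hη0] at h5
    linarith
  have hnc : n * e ≤ c / 2 := by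
    have h5 := hZP (2 * B / c) q2.le (by rw [hZ]; linarith)
    have e1 : 2 * B / c * (n * P) = 2 * (n * e) / c := by
      rw [he]
      ring
    rw [e1, div_le_one hc] at h5
    linarith
  -- the induction
  have key : ∀ (j : ℕ) (x z : X) (a : Path.Homotopic.Quotient x z), Wd S.g ρ δ ms mu j a →
      j ≤ n → St S D' σ η R ψ' T k e j a := by
    intro j x z a hW
    induction hW with
    | nil x =>
      intro _
      refine ⟨x, Path.refl x, Path.refl x, LPath.refl _ _, LPath.refl _ _, ?_, fun i => ?_,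
        fun i => ?_, rfl⟩
      · exact (Path.Homotopic.Quotient.refl_trans _).symm
      · rw [dist_self]
        positivity
      · rw [dist_self]
        positivity
    | @snoc j x y w z a p q hW hp hpn hq hqn ih =>
      intro hj
      have hn1 : (1 : ℝ) ≤ n := by exact_mod_cast (by omega : 1 ≤ n)
      have hen : e ≤ n * e := le_mul_of_one_le_left he0 hn1
      have hBP : B * P ≤ 1 := by
        have h5 := hZP B hB0.le (by rw [hZ]; linarith)
        have h6 : B * P ≤ B * (n * P) := by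
          apply mul_le_mul_of_nonneg_left _ hB0.le
          exact le_mul_of_one_le_left pP.le hn1
        linarith
      have h7 : 2 * (α ^ (T + k) * (Q * (3 * σ))) ≤ η / 2 := by
        have h5 : 12 * (Q * σ) / η * (n * α ^ (T + k)) ≤ 1 := by
          have h6 : Z * (n * α ^ (T + k)) ≤ 1 := by
            refine le_trans (le_of_eq ?_) h3
            ring
          exact (mul_le_mul_of_nonneg_right (by rw [hZ]; linarith) (by positivity)).trans h6
        have e1 : 12 * (Q * σ) / η * (n * α ^ (T + k)) =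
            12 * (Q * σ) * (n * α ^ (T + k)) / η := by ring
        rw [e1, div_le_one hη0] at h5
        have h6 : α ^ (T + k) ≤ n * α ^ (T + k) := le_mul_of_one_le_left (by positivity) hn1
        have h8 : 12 * (Q * σ) * α ^ (T + k) ≤ 12 * (Q * σ) * (n * α ^ (T + k)) :=
          mul_le_mul_of_nonneg_left h6 (by positivity)
        linarith
      have hTwo : ∀ y z, Two S D D' R σ η ψ ψ' y z (R / 8) (R / 8) 0 T k e := by
        intro y z
        have t1 : C₁ * K ^ (2 * D * T) * β ^ k ≤ e := by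
          calc C₁ * K ^ (2 * D * T) * β ^ k = C₁ * P1 := by rw [hP1]; ring
            _ ≤ B * P := mul_le_mul (by rw [hB]; linarith) (le_max_left _ _) p1.le hB0.le
        have t2 : C₂ * K' ^ (2 * D' * k) * α ^ T ≤ e := by
          calc C₂ * K' ^ (2 * D' * k) * α ^ T = C₂ * P2 := by rw [hP2]; ring
            _ ≤ B * P := mul_le_mul (by rw [hB]; linarith) (le_max_right _ _) p2.le hB0.le
        refine ⟨by linarith, le_rfl, by linarith, le_rfl, Nat.zero_le _, he0, by linarith, ?_, ?_⟩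
        · rintro φ hφ _ ⟨w', hw', rfl⟩
          exact (hW1 y (R / 8) (by linarith) le_rfl T φ hφ k (t1.trans hBP) w'
            (mem_ball_zero_iff.1 hw')).mono t1
        · rintro ρ' hρ0 hρ1 χ hχ _ ⟨w', hw', rfl⟩
          rw [Nat.zero_add] at hχ
          rw [Nat.sub_zero]
          have h8 := hW2 z ρ' hρ0 hρ1 k χ hχ T (t2.trans hBP) w' (mem_ball_zero_iff.1 hw')
          have h9 : S.SRel (C₂ * K' ^ (2 * D' * k) * α ^ T) (S.g^[T] (χ z))
            (S.g^[T] (χ (ψ' z w'))) := h8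
          exact h9.mono t2
      exact step h4 hg hex hS hC hS' hC' hs he0 hTwo hj (by linarith) hρ hρR hδ hδR p q hp hpn
        hq hqn (ih (by omega))
  obtain ⟨y, p, q, hp, hq, rfl, hU, hSr, _⟩ := key n x z a hW le_rfl
  refine ⟨y, p, q, hp, hq, rfl, fun m hm => ?_, fun m hm => ?_⟩
  · have h5 := hU (m - k)
    rw [← Function.iterate_add_apply, ← Function.iterate_add_apply,
      Nat.sub_add_cancel (by omega)] at h5
    exact h5.trans hnc
  · have h5 := hSr (m - T)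
    rw [← Function.iterate_add_apply, ← Function.iterate_add_apply,
      Nat.sub_add_cancel (by omega)] at h5
    exact h5.trans hnc

end Pool.Agent.Q192.PT
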