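import Pool.Agent.Q192.PT.ManR
import Pool.Agent.Q192.PT.T1
import Pool.Agent.Q192.PT.T2
import Pool.Agent.Q192.PT.T3
import Pool.Agent.Q192.PT.T4w
import Pool.Agent.Q192.PT.T5
import Pool.Agent.Q192.PT.T6
import Pool.Agent.Q192.PT.T7
import Pool.Agent.Q192.PT.T8
import Pool.Agent.Q192.PT.T9

/-!
# Project PT: the final form
-/

set_option autoImplicit false
set_option linter.unusedSectionVars false

open scoped Manifold ContDiff Topology Bundle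
open Set Filter Bundle

namespace Pool.Agent.Q192.PT

open Pool.Agent.H721R2 Pool.Agent.H779R2.An Pool.Agent.Y321.PD Pool.Agent.H789R2.AN
  Pool.Agent.H789R2.GP Pool.Agent.Y330.J Pool.Agent.Q192.PG
  Pool.Agent.Q192.PI.B Pool.Agent.Q192.PK Pool.Agent.TH289 Pool.Agent.TH289.K

universe u v w

theorem fT4 : ST4.{u, v} := sT4 sT2 sT3

theorem lemT : LemT.{u, v} := ⟨sT1, sT5 fT4, sT6, sT7, sT8, sT9 fT4⟩

variable {E : Type w} [NormedAddCommGroup E] [NormedSpace ℝ E] [FiniteDimensional ℝ E]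
  {M : Type u} [TopologicalSpace M] [T2Space M] [CompactSpace M] [ConnectedSpace M]
  [ChartedSpace E M] [IsManifold 𝓘(ℝ, E) ∞ M]

/-- **Two-sided distortion bounds**, final form. -/
theorem man_two_fin (f : Diffeomorph 𝓘(ℝ, E) 𝓘(ℝ, E) M M 1)
    (Es Eu : ∀ x : M, Submodule ℝ (TangentSpace 𝓘(ℝ, E) x)) (hA : IsAnosov f Es Eu)
    (hNW : NWall f) (N : TangentBundle 𝓘(ℝ, E) M → ℝ) (hN : IsTangentNorm N)
    (D D' : ℕ) (hD : 2 ≤ D) (hD' : 2 ≤ D') (hrk : ∀ x, Module.finrank ℝ (Eu x) = D)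
    (hrk' : ∀ x, Module.finrank ℝ (Es x) = D')
    (μ l κ κ' : ℝ) (hμ0 : 0 < μ) (hμ : μ < 1) (hl : 1 < l) (hκ : 1 ≤ κ) (hκ' : 1 ≤ κ')
    (h : (4 * D * D' * Real.log κ * Real.log κ' < -Real.log μ * Real.log l ∧
        ∃ C : ℝ, UpperRate f N Es C μ ∧ LowerRate f N Eu C l ∧ DistortionOn f N Eu C κ ∧
          DistortionOn f N Es C κ') ∨
      (4 * D * (D - 1) * D' * (D' - 1) * Real.log κ * Real.log κ' <
          -Real.log μ * Real.log l ∧
        ContMDiff 𝓘(ℝ, E) 𝓘(ℝ, E) 2 f ∧ ContMDiff 𝓘(ℝ, E) 𝓘(ℝ, E) 2 f.symm ∧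
        PeriodicUpper f Es μ ∧ PeriodicLower f Eu l ∧ PeriodicQuotients f Eu κ ∧
        PeriodicQuotients f Es κ')) :
    TopTransitive f ∧ GPS f.toHomeomorph ∧
      (∃ P : E → M, IsCoveringMap P ∧ Function.Surjective P) ∧ PG M :=
  man_two_all lemT f Es Eu hA hNW N hN D D' hD hD' hrk hrk' μ l κ κ' hμ0 hμ hl hκ hκ' h

end Pool.Agent.Q192.PT
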