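import Pool.Agent.Q192.PG.Stm
import Pool.Agent.Q192.PI.HolT

/-!
# Project PT: two-sided distortion bounds, exact statements of the lemmas

Every lemma is a `Prop` here (`ST1`, ..., `ST11`). Prove `theorem sT1 : ST1` etc. in the file named
in the job. A lemma may use the other ones as hypotheses only where this is written.
Notation in the docstrings: `g = S.g`, `g^-n = S.g.symm^[n]`. `S.symm` is the inverse system:
`S.symm.g = S.g.symm`, `S.symm.SRel = S.URel`, `S.symm.URel = S.SRel` (`HypSys.SRel_symm_sys`,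
all by `Iff.rfl`), `S.symm.symm = S`. `V D = EuclideanSpace ℝ (Fin D)`.
-/

set_option autoImplicit false

open Filter Topology Set Metric

namespace Pool.Agent.Q192.PT

open Pool.Agent.H721R2 Pool.Agent.H779R2.An Pool.Agent.Q130.UQ Pool.Agent.H789R2.AN
  Pool.Agent.H789R2.GP Pool.Agent.TH304.K289 Pool.Agent.TH289.L Pool.Agent.Y330.H Pool.Agent.Y330.G
  Pool.Agent.Y330.J Pool.Agent.Q192.PI Pool.Agent.Q192.PI.B Pool.Agent.Q192.PG

universe u v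

/-- Every nonempty open set returns (all points are nonwandering). -/
def NWall {X : Type u} [TopologicalSpace X] (f : X → X) : Prop :=
  ∀ U : Set X, IsOpen U → U.Nonempty → ∃ n : ℕ, 1 ≤ n ∧ (f^[n] '' U ∩ U).Nonempty

/-- **ST1** (if all points are nonwandering for `f` then the only minimal saturated set of the
iterate `g = f^n` is the whole space).
Proof. Let `Λ` be `UMin S`, `Λ_j = f^j '' Λ`, `j < n`. `f` maps unstable leaves of `S` to unstable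
leaves (`f` is uniformly continuous and commutes with `S.g.symm`), so every `Λ_j` is `USat S`, and
`UMin S` (apply `f^-j` to a smaller one). `Λ' = ⋃_{j<n} Λ_j` is `USat S` and `f`-invariant, as
`f^n '' Λ = Λ`. `W = Ws S Λ'` is open (as in `whole`, Q182/UQ/Whole.lean: if `SAsym S x y`, `x ∈ Λ'`,
take `N` with `g^N x`, `g^N y` close; for `y'` close to `y` the bracket `v` of `g^N y'` and `g^N x`
has `SRel (g^N y') v` and `URel v (g^N x)`, so `v ∈ Λ'`).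
Claim `W ⊆ Λ'`: let `y ∈ W`, `y ∉ Λ'`, `ε = infDist y Λ' > 0`. By the bracket argument with a small
stable distance there are a neighbourhood `O` of `y`, contained in `{infDist · Λ' > ε / 2}`, and `m₀`
with `infDist (f^m y') Λ' < ε / 2` for all `y' ∈ O`, `m ≥ m₀` (first for the multiples of `n` by
`SRel`, then for all `m` by uniform continuity of `f^j`, `j < n`, and invariance of `Λ'`). The point
`y` is not periodic for `f` (`infDist (f^m y) Λ' → 0`), so `O` can be made smaller such that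
`f^m '' O ∩ O = ∅` for `1 ≤ m < m₀`; for `m ≥ m₀` it is empty by the choice of `O`. This contradicts
the hypothesis. So `Λ'` is open and closed, `Λ' = univ`. Two of the sets `Λ_j` are equal or disjoint
(the intersection is `USat S` if it is nonempty). So the complement of `Λ = Λ_0` is the union of
those `Λ_j` that are disjoint from `Λ`, hence closed, and `Λ` is open and closed. -/
def ST1 : Prop := ∀ (X : Type u) (E : Type v) [MetricSpace X] [CompactSpace X]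
  [PreconnectedSpace X] [NormedAddCommGroup E] [NormedSpace ℝ E] (S : HypSys X E) (ε₀ : ℝ),
  Geo S ε₀ → ∀ (f : X ≃ₜ X) (n : ℕ), 1 ≤ n → (∀ x, S.g x = f^[n] x) → NWall f →
  ∀ Λ, UMin S Λ → Λ = Set.univ

/-- **ST2** (uniqueness of holonomies).
Proof. `a₀ = ψ y w₀`, `a = ψ y w`. Divide the segment from `w₀` to `w` (in the convex ball) into
`N` parts of length so small that consecutive points `a_i = ψ y w_i` satisfy
`URel σ (g^T a_i) (g^T a_(i+1))` (`Cht.urel`, `URel_fwd`). Show `φ a_i = φ' a_i` by induction: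
by `HolT.loc` for `φ` and `φ'`, `URel (4 σ) (g^T (φ a_(i+1))) (g^T (φ' a_(i+1)))`, by `HolT.rel`
`SRel (2 η)` for the same two points; `Geo.uniq` (`4 σ ≤ ε₀`) and injectivity of `g^T`. -/
def ST2 : Prop := ∀ (X : Type u) (E : Type v) [MetricSpace X] [CompactSpace X]
  [NormedAddCommGroup E] [NormedSpace ℝ E] (S : HypSys X E) (D : ℕ) (ε₀ Q α β K L R σ η b : ℝ)
  (ψ : X → V D → X), Sc S ε₀ Q α β K L → Cht S D ε₀ R ψ → Scale ε₀ R Q L σ η b →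
  ∀ (y : X) (r : ℝ), r ≤ R → ∀ (T : ℕ) (φ φ' : X → X), HolT S σ η T (ψ y '' ball 0 r) φ →
    HolT S σ η T (ψ y '' ball 0 r) φ' → ∀ a₀ ∈ ψ y '' ball 0 r, φ a₀ = φ' a₀ →
    ∀ a ∈ ψ y '' ball 0 r, φ a = φ' a

/-- **ST3** (one step of size `τ ≤ 2 σ` at the time `-k`).
Proof. The induction step in the proof of `sB10` (Q192/PI/B10.lean). For `a ∈ A` let `W a` be the
point with `SRel (Q (e + τ)) (g^-k (φ a)) (W a)`, `URel (Q (e + τ)) (W a) c'` given by `Sc.br`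
(`dist (g^-k (φ a)) c' ≤ e + τ`), and `φ' a = g^k (W a)`. `W y = c'` by `Geo.uniq`.
`uu`: clear. `inj`: `W a = W a'` gives `SRel (2 Q (e + τ))`, `URel (2 e)` for `g^-k (φ a)`,
`g^-k (φ a')`, so they are equal. `rel` and the last claim:
`dist (g^(j+m) a) (g^(j+m) (φ' a)) ≤ e₁ + α^(m+k+j) (Q (e + τ))` by `Sc.sc` at the time `-k`.
`loc`: `hφ.loc`, then `lp` (Q130/UQ/Hol.lean) for the time `k + m` from `-k`, then
`Geo.URel_dist` with `dist (g^m a) (g^m a') + 2 η ≤ 2 σ`. -/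
def ST3 : Prop := ∀ (X : Type u) (E : Type v) [MetricSpace X] [CompactSpace X]
  [NormedAddCommGroup E] [NormedSpace ℝ E] (S : HypSys X E) (ε₀ Q α β K L R σ η b : ℝ),
  Sc S ε₀ Q α β K L → Scale ε₀ R Q L σ η b →
  ∀ (A : Set X) (φ : X → X) (m k : ℕ) (y c' : X) (e e₁ τ : ℝ), HolT S σ η m A φ → y ∈ A →
    0 ≤ e → e ≤ σ → 0 ≤ τ → τ ≤ 2 * σ →
    (∀ a ∈ A, S.URel e (S.g.symm^[k] (φ y)) (S.g.symm^[k] (φ a))) →
    (∀ a ∈ A, S.SRel e₁ (S.g^[m] a) (S.g^[m] (φ a))) →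
    S.SRel τ (S.g.symm^[k] (φ y)) c' → e₁ + α ^ (m + k) * (Q * (e + τ)) ≤ η →
    ∃ φ' : X → X, HolT S σ η m A φ' ∧ φ' y = S.g^[k] c' ∧
      ∀ a ∈ A, S.SRel (Q * (e + τ)) (S.g.symm^[k] (φ a)) (S.g.symm^[k] (φ' a)) ∧
        S.URel (Q * (e + τ)) c' (S.g.symm^[k] (φ' a)) ∧
        S.SRel (e₁ + α ^ (m + k) * (Q * (e + τ))) (S.g^[m] a) (S.g^[m] (φ' a))

/-- The data of the two-sided argument: `A = ψ y '' ball 0 r` is an unstable ball at the time `0`,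
`B = ψ' z '' ball 0 r'` is a stable ball at the time `t₀`. `w1`: images of `A` under holonomies with
time `m` have size `e` at the time `-k`; `w2`: images of `B` (and smaller balls) under unstable
holonomies with time `t₀ + k` have size `e` at the time `m` (all times are measured from the time of
`A`). -/
structure Two {X : Type u} {E : Type v} [MetricSpace X] [NormedAddCommGroup E] [NormedSpace ℝ E]
    (S : HypSys X E) (D D' : ℕ) (R σ η : ℝ) (ψ : X → V D → X) (ψ' : X → V D' → X) (y z : X)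
    (r r' : ℝ) (t₀ m k : ℕ) (e : ℝ) : Prop where
  r0 : 0 < r
  rR : r ≤ R / 8
  r0' : 0 < r'
  rR' : r' ≤ R / 8
  tm : t₀ ≤ m
  e0 : 0 ≤ e
  eη : 4 * e ≤ η
  w1 : ∀ φ : X → X, HolT S σ η m (ψ y '' ball 0 r) φ → ∀ a ∈ ψ y '' ball 0 r,
    S.URel e (S.g.symm^[k] (φ y)) (S.g.symm^[k] (φ a))
  w2 : ∀ ρ : ℝ, 0 < ρ → ρ ≤ r' → ∀ χ : X → X,
    HolT S.symm σ η (t₀ + k) (ψ' z '' ball 0 ρ) χ → ∀ b ∈ ψ' z '' ball 0 ρ,
    S.SRel e (S.g^[m - t₀] (χ z)) (S.g^[m - t₀] (χ b))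

/-- **ST4** (crossing lemma), from `ST2`, `ST3` (for `S`):
`theorem sT4 (h2 : ST2.{u, v}) (h3 : ST3.{u, v}) : ST4.{u, v}`.
Proof. Write `A = ψ y '' ball 0 r`, `B ρ = ψ' z '' ball 0 ρ`, `c b = g^-(t₀+k) (χ b)`
(`= g^-k (g^-t₀ (χ b))`). Let `R ρ` be the statement: for all `b ∈ B ρ` there is `φ_b` with
`HolT S σ η m A φ_b` and `φ_b y = g^-t₀ (χ b)`.
(a) If `0 < ρ ≤ r'` and `R ρ`, choose `F b = φ_b`. For `a ∈ A` the map `χ_a b = g^t₀ (F b a)` is a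
holonomy `HolT S.symm σ η (t₀ + k) (B ρ) χ_a`:
`ua`: `Cht.rel` for `S.symm`, `Geo.uasym` for `S.symm`;
`uu`: `SRel η (g^m a) (g^m (F b a))`, so `SAsym S a (F b a)` (`SAsym.of_iter`, `Geo.sasym`), iterate;
`inj`: if `F b a = F b' a` then `F b y = F b' y` by `ST2`, so `χ b = χ b'`, `b = b'`;
`rel`: `URel e₂ (g^-(t₀+k) b) (c b)` and, by `w1`, `URel e (c b) (g^-k (F b a))`, `e₂ + e ≤ η`;
`loc`: let `SRel σ (g^-(t₀+k) b) (g^-(t₀+k) b')`. By `hχ.loc`, `SRel (2 σ) (c b) (c b')`. `ST3` for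
`φ := F b`, `c' := c b'`, `τ := 2 σ`, and `e₁ := ` a bound of `rel` for `F b` (see below) gives
`φ''` with `φ'' y = g^k (c b') = F b' y`, so `φ'' = F b'` on `A` by `ST2`, and
`SRel (Q (e + 2 σ)) (g^-k (F b a)) (g^-k (F b' a))`; as the distance is at most
`σ + 2 (e₂ + e) ≤ 2 σ`, `Geo.SRel_dist` gives `SRel (2 σ)`.
Problem: `ST3` needs a good bound of `rel` for `F b` (`e₁ + e` and not only `η`). So include it in
`R ρ`: `φ_b` also satisfies `SRel (e₁ + e + α^(m+k) (Q (3 σ))) (g^m a) (g^m (φ_b a))` for `a ∈ A`;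
twice the last term is still fine for `loc` (this is why the numerical hypothesis has the factor
`2`).
(b) With `w2` (and `χ_a z = g^t₀ (F z a) = g^t₀ (φ a)` by `ST2`):
`SRel e (g^m (φ a)) (g^m (F b a))`, hence `SRel (e₁ + e) (g^m a) (g^m (F b a))` for `b ∈ B ρ`.
(c) Step: let `θ = σ / (2 * L^(t₀+k))`. If `R ρ` (`ρ ≥ 0`, trivial for `ρ = 0`) and `ρ + θ ≤ r'` then
`R (ρ + θ)`; also `R r'` if `ρ < r' ≤ ρ + θ`. Let `b' = ψ' z v'`, `‖v'‖ < ρ + θ`. If `‖v'‖ < θ` let `b = z`, `φ_b = φ`,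
otherwise `b = ψ' z v`, `v = (1 - θ / ‖v'‖) • v'`, `‖v‖ < ρ`, `‖v - v'‖ ≤ θ`, and `φ_b` has the
bound `e₁ + e` of (b). `URel_fwd` for `S.symm` gives `SRel σ (g^-(t₀+k) b) (g^-(t₀+k) b')`, so
`SRel (2 σ) (c b) (c b')` and `ST3` gives `φ_b'` with `φ_b' y = g^k (c b') = g^-t₀ (χ b')` and the
required bound. After finitely many steps `R r'` follows. -/
def ST4 : Prop := ∀ (X : Type u) (E : Type v) [MetricSpace X] [CompactSpace X]
  [NormedAddCommGroup E] [NormedSpace ℝ E] (S : HypSys X E) (D D' : ℕ)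
  (ε₀ Q α β K K' L R σ η b : ℝ) (ψ : X → V D → X) (ψ' : X → V D' → X), Sc S ε₀ Q α β K L →
  Cht S D ε₀ R ψ → Sc S.symm ε₀ Q β α K' L → Cht S.symm D' ε₀ R ψ' → Scale ε₀ R Q L σ η b →
  ∀ (y z : X) (r r' : ℝ) (t₀ m k : ℕ) (e : ℝ), Two S D D' R σ η ψ ψ' y z r r' t₀ m k e →
  ∀ (φ χ : X → X) (e₁ e₂ : ℝ), HolT S σ η m (ψ y '' ball 0 r) φ →
    HolT S.symm σ η (t₀ + k) (ψ' z '' ball 0 r') χ → φ y = S.g.symm^[t₀] (χ z) →
    (∀ a ∈ ψ y '' ball 0 r, S.SRel e₁ (S.g^[m] a) (S.g^[m] (φ a))) →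
    (∀ x ∈ ψ' z '' ball 0 r', S.URel e₂ (S.g.symm^[t₀ + k] x) (S.g.symm^[t₀ + k] (χ x))) →
    0 ≤ e₁ → 0 ≤ e₂ → e₁ + e + 2 * (α ^ (m + k) * (Q * (3 * σ))) ≤ η → e₂ + e ≤ η →
    ∃ F : X → X → X,
      (∀ x ∈ ψ' z '' ball 0 r', HolT S σ η m (ψ y '' ball 0 r) (F x) ∧
        F x y = S.g.symm^[t₀] (χ x) ∧
        ∀ a ∈ ψ y '' ball 0 r, S.SRel (e₁ + e) (S.g^[m] a) (S.g^[m] (F x a)) ∧
          S.URel (e₂ + e) (S.g.symm^[t₀ + k] x) (S.g.symm^[k] (F x a))) ∧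
      (∀ a ∈ ψ y '' ball 0 r, F z a = φ a) ∧
      ∀ a ∈ ψ y '' ball 0 r,
        HolT S.symm σ η (t₀ + k) (ψ' z '' ball 0 r') (fun x => S.g^[t₀] (F x a))

/-- **ST5** (transport), from `ST4`: `theorem sT5 (h4 : ST4.{u, v}) : ST5.{u, v}`.
Proof. Let `y`, `P`, `SAsym S y P`, `0 < r ≤ R / 8` be given. `t₀` with
`SRel (R / 64) (g^t₀ y) (g^t₀ P)` (`SAsym.eventually`); `z = g^t₀ y`; by `Cht.pt` for `S.symm`
`g^t₀ P = ψ' z v₁`, `‖v₁‖ ≤ R / 32 < r' := R / 8`. `e = η / 8`; `C` = maximum of the two constants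
of `WL` for `e` and `16 Q σ / η`; `k`, `m` from the growth hypothesis. `Two` holds (`WL` for the radii
`r` and `ρ`; a point `b ∈ ψ' z '' ball 0 ρ` is `ψ' z v`, and `ψ' z 0 = z`). Apply `ST4` with
`φ = χ = id` (`HolT` for the identity: `Cht.rel`, `Geo.uasym`), `e₁ = e₂ = 0`: `F (g^t₀ P)` is the
holonomy, with time `m`. -/
def ST5 : Prop := ∀ (X : Type u) (E : Type v) [MetricSpace X] [CompactSpace X]
  [NormedAddCommGroup E] [NormedSpace ℝ E] (S : HypSys X E) (D D' : ℕ)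
  (ε₀ Q α β K K' L R σ η b : ℝ) (ψ : X → V D → X) (ψ' : X → V D' → X), Sc S ε₀ Q α β K L →
  Cht S D ε₀ R ψ → Sc S.symm ε₀ Q β α K' L → Cht S.symm D' ε₀ R ψ' → Scale ε₀ R Q L σ η b →
  WL S D σ η β K R ψ univ → WL S.symm D' σ η α K' R ψ' univ →
  (∀ (C : ℝ) (t₀ : ℕ), ∃ k m : ℕ, t₀ ≤ m ∧ C * K ^ (2 * D * m) * β ^ k ≤ 1 ∧
    C * K' ^ (2 * D' * (t₀ + k)) * α ^ (m - t₀) ≤ 1 ∧ C * α ^ (m + k) ≤ 1) →
  TR S D σ η R ψ univ

/-- **ST6** (numerical, both forms). Proof: logarithms. Let `p = 2 D log K`, `q = 2 D' log K'`,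
`s = log α⁻¹`, `w = log β⁻¹`, `p q < s w`; there is `ρ > 0` with `q < ρ s`, `ρ p < w` (if `p = 0` take
`ρ` large); `m = ⌈ρ k⌉₊`, resp. `T = ⌈ρ k⌉₊`, and `k` large, resp. `k = A' log₂ (n + 1) + B'`. -/
def ST6 : Prop := ∀ (α β K K' : ℝ) (D D' : ℕ), 0 < α → α < 1 → 0 < β → β < 1 → 1 ≤ K → 1 ≤ K' →
  4 * D * D' * Real.log K * Real.log K' < Real.log α⁻¹ * Real.log β⁻¹ →
  (∀ (C : ℝ) (t₀ : ℕ), ∃ k m : ℕ, t₀ ≤ m ∧ C * K ^ (2 * D * m) * β ^ k ≤ 1 ∧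
    C * K' ^ (2 * D' * (t₀ + k)) * α ^ (m - t₀) ≤ 1 ∧ C * α ^ (m + k) ≤ 1) ∧
  ∃ A : ℕ, ∀ C : ℝ, ∃ B : ℕ, ∀ n : ℕ, ∃ k T : ℕ, k + T ≤ A * Nat.log 2 (n + 1) + B ∧
    C * n * K ^ (2 * D * T) * β ^ k ≤ 1 ∧ C * n * K' ^ (2 * D' * k) * α ^ T ≤ 1 ∧
    C * n * α ^ (T + k) ≤ 1

/-- **ST7** (common scales), from `SB13` (proved: `sB13` in Q192/PI/B13.lean).
Proof. `SB13` for `S` and for `S.symm` (`S.symm.D = S.D'`, `S.symm.Vu = S.Vs`, `S.symm.a = S.b`; the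
distortion hypothesis for `S.D'` follows from the one for `S.D` applied to `S.D' x v`, `S.D' x w` at
`g⁻¹ x`, with `S.invS'`). Then shrink: `Sc` holds for smaller `ε₀` (`Geo.mono`) and larger `Q`, `L`;
`Cht S D ε₀ R ψ` gives `Cht S D ε R' ψ` for `0 < ε ≤ ε₀`, `0 < R' ≤ R`, `4 R' ≤ ε` (`rel`: by `le` and
`Geo.URel_dist`; `surj`: a point with `URel (R' / 2) x z` is `ψ x a` with `‖a‖ ≤ 2 dist x z ≤ R'`
by `ge`). -/
def ST7 : Prop := ∀ (X : Type u) (E : Type v) [MetricSpace X] [CompactSpace X]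
  [NormedAddCommGroup E] [InnerProductSpace ℝ E] [FiniteDimensional ℝ E] (S : HypSys X E)
  (D D' : ℕ) (α β K₁ K K₁' K' : ℝ), (∀ x, Module.finrank ℝ (S.Vu x) = D) →
  (∀ x, Module.finrank ℝ (S.Vs x) = D') → S.a < α → S.b < β → α ≤ 1 / 2 → β ≤ 1 / 2 →
  1 ≤ K₁ → K₁ < K → 1 ≤ K₁' → K₁' < K' →
  (∀ x, ∀ v ∈ S.Vu x, ∀ w ∈ S.Vu x, ‖S.D x v‖ * ‖w‖ ≤ K₁ * (‖S.D x w‖ * ‖v‖)) →
  (∀ x, ∀ v ∈ S.Vs x, ∀ w ∈ S.Vs x, ‖S.D x v‖ * ‖w‖ ≤ K₁' * (‖S.D x w‖ * ‖v‖)) →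
  ∃ (ε₀ Q L R : ℝ) (ψ : X → V D → X) (ψ' : X → V D' → X), Sc S ε₀ Q α β K L ∧
    Cht S D ε₀ R ψ ∧ Sc S.symm ε₀ Q β α K' L ∧ Cht S.symm D' ε₀ R ψ'

/-- Linear form of `WL` for the whole space and balls of all radii. -/
def WLr {X : Type u} {E : Type v} [MetricSpace X] [NormedAddCommGroup E] [NormedSpace ℝ E]
    (S : HypSys X E) (D : ℕ) (σ η β K R : ℝ) (ψ : X → V D → X) : Prop :=
  ∃ C > 0, ∀ y r, 0 < r → r ≤ R / 8 → ∀ (T : ℕ) (φ : X → X),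
    HolT S σ η T (ψ y '' ball 0 r) φ → ∀ n : ℕ, C * K ^ (2 * D * T) * β ^ n ≤ 1 →
      ∀ w, ‖w‖ < r → S.URel (C * K ^ (2 * D * T) * β ^ n) (S.g.symm^[n] (φ y))
        (S.g.symm^[n] (φ (ψ y w)))

/-- **ST8** (linear form of `WL`). Proof: `sG7` (Q192/PG/S7.lean) with `R / 8` replaced by any
radius `r ≤ R / 8`. -/
def ST8 : Prop := ∀ (X : Type u) (E : Type v) [MetricSpace X] [CompactSpace X]
  [NormedAddCommGroup E] [NormedSpace ℝ E] (S : HypSys X E) (D : ℕ) (ε₀ Q α β K L R σ η : ℝ)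
  (ψ : X → V D → X), Sc S ε₀ Q α β K L → Cht S D ε₀ R ψ → WL S D σ η β K R ψ univ →
  WLr S D σ η β K R ψ

/-- **ST9** (words have small levels, two-sided case), from `ST4`:
`theorem sT9 (h4 : ST4.{u, v}) : ST9.{u, v}`. Adapt Q192/PG/S9.lean (proof of `SG9`).
Proof. Let `C₁`, `C₂` be the constants of the two `WLr`, `t = C₁ K^(2DT) β^k`,
`t' = C₂ K'^(2D'k) α^T + α^T ρ`, `e = max t t'`, so `n e` is as small as we like (`C'` large).
Write `A y = ψ y '' ball 0 (R / 8)`, `B z = ψ' z '' ball 0 (R / 8)`. `Two` holds for all `y`, `z` with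
`r = r' = R / 8`, `t₀ = 0`, `m = T`, by `WLr`. Induction on the word; after `j` steps (`a : x → y`)
there are points `c 0, ..., c j = y` and for `1 ≤ i ≤ j` points `z i`, `w i ∈ B (z i)` and a map
`χ i` with `HolT S.symm σ η k (B (z i)) (χ i)`, `χ i (z i) = c i`, `χ i (w i) = c (i - 1)`,
`URel ((j - i) e) (g^-k x') (g^-k (χ i x'))` for `x' ∈ B (z i)`; the class is `(cl P).trans (cl Q)`,
`P : x → c 0` unstable, `Q : c 0 → y` stable, `URel (j e) (g^-k x) (g^-k (c 0))`,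
`SRel (j e) (g^T (c 0)) (g^T y)`.
Step `p : y → w`, `q : w → z` (all points of `p` are in `A y`, and `w ∈ B z`, by the smallness of
`ρ`, `δ`, `Cht.pt`). By induction from `i = j` down to `0`: there is `Φ i` with
`HolT S σ η T (A y) (Φ i)`, `Φ i y = c i`, `SRel ((j - i) e) (g^T a) (g^T (Φ i a))` for `a ∈ A y`:
`Φ j = id`, and `ST4` with `z := z i`, `φ := Φ i`, `χ := χ i`, `t₀ = 0` gives `Φ (i - 1) := F (w i)`
and, for `a := w`, the new `χ i := fun x' => F x' w` with `χ i (z i) = Φ i w`,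
`χ i (w i) = Φ (i - 1) w` and the bound `(j - i) e + e`. New data: `c' i = Φ i w` (`i ≤ j`),
`c' (j + 1) = z`, `z (j + 1) = z`, `w (j + 1) = w`, `χ (j + 1) = id`. By `w1` of `Two`,
`URel e (g^-k (Φ 0 y)) (g^-k (Φ 0 w))`. The map `r ↦ (p r, Φ 0 (p r))` is a strip over `p` starting
at `c 0`; from here everything is as in the proof of `SG9`: the rectangle over `Q.symm` and `p` has
the right side `Φ 0 ∘ p`, and its top side goes from `Φ 0 w` to `w`. At the end: `Geo.ucontr`,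
`Geo.scontr` (or the relations themselves) give the levels from `URel (n e) (g^-k x) (g^-k (c 0))`,
`SRel (n e) (g^T (c 0)) (g^T z)`, `n e ≤ c / 2`. -/
def ST9 : Prop := ∀ (X : Type u) (E : Type v) [MetricSpace X] [CompactSpace X]
  [NormedAddCommGroup E] [NormedSpace ℝ E] (S : HypSys X E) (D D' : ℕ)
  (ε₀ Q α β K K' L R σ η b c : ℝ) (ψ : X → V D → X) (ψ' : X → V D' → X), LP S.g c → Ex S.g →
  Sc S ε₀ Q α β K L → Cht S D ε₀ R ψ → Sc S.symm ε₀ Q β α K' L → Cht S.symm D' ε₀ R ψ' →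
  Scale ε₀ R Q L σ η b → WLr S D σ η β K R ψ → WLr S.symm D' σ η α K' R ψ' →
  ∀ (ρ δ : ℝ) (ms mu : ℕ), 0 < ρ → 64 * ρ ≤ R → 64 * ρ ≤ ε₀ → 0 < δ → 64 * δ ≤ R →
  ∃ C' > 0, ∀ n k T : ℕ, C' * n * K ^ (2 * D * T) * β ^ k ≤ 1 →
    C' * n * K' ^ (2 * D' * k) * α ^ T ≤ 1 → C' * n * α ^ (T + k) ≤ 1 →
    ∀ (x z : X) (a : Path.Homotopic.Quotient x z), Wd S.g ρ δ ms mu n a → Nd S.g c (k + T) a

end Pool.Agent.Q192.PT
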