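import Pool.Agent.Q192.PK.ManDefs
import Pool.Agent.Q192.PT.Stm

/-!
# Project PT: definitions for the theorems on manifolds
-/

set_option autoImplicit false
set_option linter.unusedSectionVars false

open scoped Manifold ContDiff Topology Bundle
open Set Filter Bundle

namespace Pool.Agent.Q192.PT

open Pool.Agent.H721R2 Pool.Agent.Q192.PK

section defs

variable {E : Type*} [NormedAddCommGroup E] [NormedSpace ℝ E]
  {M : Type*} [TopologicalSpace M] [ChartedSpace E M]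

/-- `N(Dfⁿ v) ≤ C μⁿ N(v)` for `v` in the field of subspaces `V`, `n ≥ 0`. -/
def UpperRate (f : M → M) (N : TangentBundle 𝓘(ℝ, E) M → ℝ)
    (V : ∀ x : M, Submodule ℝ (TangentSpace 𝓘(ℝ, E) x)) (C μ : ℝ) : Prop :=
  ∀ (n : ℕ) (x : M), ∀ v ∈ V x,
    N (tangentMap 𝓘(ℝ, E) 𝓘(ℝ, E) (f^[n]) ⟨x, v⟩) ≤ C * μ ^ n * N ⟨x, v⟩

/-- `lⁿ N(v) ≤ C N(Dfⁿ v)` for `v` in the field of subspaces `V`, `n ≥ 0`. -/
def LowerRate (f : M → M) (N : TangentBundle 𝓘(ℝ, E) M → ℝ)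
    (V : ∀ x : M, Submodule ℝ (TangentSpace 𝓘(ℝ, E) x)) (C l : ℝ) : Prop :=
  ∀ (n : ℕ) (x : M), ∀ v ∈ V x,
    l ^ n * N ⟨x, v⟩ ≤ C * N (tangentMap 𝓘(ℝ, E) 𝓘(ℝ, E) (f^[n]) ⟨x, v⟩)

end defs

section defs

variable {E : Type*} [NormedAddCommGroup E] [NormedSpace ℝ E] [FiniteDimensional ℝ E]
  {M : Type*} [TopologicalSpace M] [ChartedSpace E M]

/-- The eigenvalues `z`, `w` of `D(fᵏ)` on `V p` satisfy `|z| ≤ κᵏ |w|`, for all `p` with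
`fᵏ p = p`, `k ≥ 1`. -/
def PeriodicQuotients (f : M → M) (V : ∀ x : M, Submodule ℝ (TangentSpace 𝓘(ℝ, E) x)) (κ : ℝ) :
    Prop :=
  ∀ (k : ℕ) (p : M), 1 ≤ k → f^[k] p = p → ∀ z w : ℂ, ReturnEigenvalue f V k p z →
    ReturnEigenvalue f V k p w → ‖z‖ ≤ κ ^ k * ‖w‖

/-- The eigenvalues of `D(fᵏ)` on `V p` have modulus at most `bᵏ`, for all `p` with `fᵏ p = p`,
`k ≥ 1`. -/
def PeriodicUpper (f : M → M) (V : ∀ x : M, Submodule ℝ (TangentSpace 𝓘(ℝ, E) x)) (b : ℝ) :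
    Prop :=
  ∀ (k : ℕ) (p : M), 1 ≤ k → f^[k] p = p → ∀ z : ℂ, ReturnEigenvalue f V k p z → ‖z‖ ≤ b ^ k

/-- The eigenvalues of `D(fᵏ)` on `V p` have modulus at least `aᵏ`, for all `p` with `fᵏ p = p`,
`k ≥ 1`. -/
def PeriodicLower (f : M → M) (V : ∀ x : M, Submodule ℝ (TangentSpace 𝓘(ℝ, E) x)) (a : ℝ) :
    Prop :=
  ∀ (k : ℕ) (p : M), 1 ≤ k → f^[k] p = p → ∀ z : ℂ, ReturnEigenvalue f V k p z → a ^ k ≤ ‖z‖

end defs

section growth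

variable {E : Type*} [NormedAddCommGroup E] [NormedSpace ℝ E]
  {M : Type*} [TopologicalSpace M] [ChartedSpace E M]

/-- Distortion of exponent at most `κ` at each periodic point. -/
def PerDisQ (f : M → M) (V : M → Submodule ℝ E) (κ : ℝ) : Prop :=
  ∀ (k : ℕ) (p : M), 1 ≤ k → f^[k] p = p → ∀ κ' : ℝ, κ < κ' → ∃ A : ℝ, ∀ q : ℕ,
    ∀ v ∈ V p, ∀ w ∈ V p,
    ‖dg E (f^[k * q]) p v‖ * ‖w‖ ≤ A * κ' ^ (k * q) * (‖dg E (f^[k * q]) p w‖ * ‖v‖)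

end growth

end Pool.Agent.Q192.PT
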