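import Pool.Agent.Q192.PT.Abs
import Pool.Agent.Q192.PG.Fin

/-!
# Project PT: the theorem on manifolds
-/

set_option autoImplicit false
set_option linter.unusedSectionVars false

open Filter Topology Set Metric
open scoped Manifold ContDiff

namespace Pool.Agent.Q192.PT

open Pool.Agent.H721R2 Pool.Agent.H779R2.An Pool.Agent.Q130.UQ Pool.Agent.H789R2.AN
  Pool.Agent.H789R2.GP Pool.Agent.TH304.K289 Pool.Agent.TH289.L Pool.Agent.TH289
  Pool.Agent.TH289.K Pool.Agent.Y330.H Pool.Agent.Y330.G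
  Pool.Agent.Y330.J Pool.Agent.Q192.PI Pool.Agent.Q192.PI.B Pool.Agent.Q192.PG

universe u v

/-- The lemmas of the project. -/
structure LemT : Prop where
  h1 : ST1.{u, v}
  h5 : ST5.{u, v}
  h6 : ST6
  h7 : ST7.{u, v}
  h8 : ST8.{u, v}
  h9 : ST9.{u, v}

/-- The choice of the iterate, numerically. -/
theorem ev_poly2 (k k' q u c c₃ : ℝ) (D D' : ℕ) (h : 4 * D * D' * k * k' < q * u) :
    ∀ᶠ n : ℕ in atTop,
      4 * D * D' * (n * k + c) * (n * k' + c) < (n * q - c₃) * (n * u - c₃) := by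
  have h1 := ev_poly (2 * D' * k) (q + k') q u (2 * D' * c) c c₃ D (by
    have : 2 * (D : ℝ) * (2 * D' * k) * (q + k' - q) = 4 * D * D' * k * k' := by ring
    rw [this]
    exact h)
  filter_upwards [h1] with n hn
  refine lt_of_eq_of_lt ?_ hn
  ring

section embedded

variable {E₀ : Type*} [NormedAddCommGroup E₀] [NormedSpace ℝ E₀] [FiniteDimensional ℝ E₀]
  {M : Type u} [MetricSpace M] [CompactSpace M] [ConnectedSpace M] [ChartedSpace E₀ M]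
  [IsManifold 𝓘(ℝ, E₀) ∞ M]
  {F : Type v} [NormedAddCommGroup F] [InnerProductSpace ℝ F] [FiniteDimensional ℝ F]

/-- The theorem for a manifold embedded in a Euclidean space. -/
theorem coreT (H : LemT.{u, v}) {e : M → F} (hiso : ∀ x y, dist x y = ‖e x - e y‖)
    (he : ContMDiff 𝓘(ℝ, E₀) 𝓘(ℝ, F) 1 e) (hinj : ∀ x, Function.Injective (dm E₀ e x))
    {f : M ≃ₜ M} {Es Eu : M → Submodule ℝ E₀} {C a b Ls Lu : ℝ}
    (h : EAnosov e f Es Eu C a b Ls Lu) (hNW : NWall f) (D D' : ℕ) (hD : 2 ≤ D) (hD' : 2 ≤ D')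
    (hrk : ∀ x, Module.finrank ℝ (Eu x) = D) (hrk' : ∀ x, Module.finrank ℝ (Es x) = D')
    (C₂ κ κ' : ℝ) (hC₂ : 1 ≤ C₂) (hκ : 1 ≤ κ) (hκ' : 1 ≤ κ')
    (hd : ∀ (n : ℕ) (x : M), ∀ v ∈ Eu x, ∀ w ∈ Eu x,
      ‖dm E₀ e (f^[n] x) (dg E₀ (f^[n]) x v)‖ * ‖dm E₀ e x w‖ ≤
        C₂ * κ ^ n * (‖dm E₀ e (f^[n] x) (dg E₀ (f^[n]) x w)‖ * ‖dm E₀ e x v‖))
    (hd' : ∀ (n : ℕ) (x : M), ∀ v ∈ Es x, ∀ w ∈ Es x,
      ‖dm E₀ e (f^[n] x) (dg E₀ (f^[n]) x v)‖ * ‖dm E₀ e x w‖ ≤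
        C₂ * κ' ^ n * (‖dm E₀ e (f^[n] x) (dg E₀ (f^[n]) x w)‖ * ‖dm E₀ e x v‖))
    (hp : 4 * D * D' * Real.log κ * Real.log κ' < Real.log a⁻¹ * Real.log b⁻¹) :
    GPS f ∧ ((SG1.{u} ∧ SG2.{u} ∧ SG3.{u}) → PG M) := by
  obtain ⟨K, hK, hang⟩ := h.angle he hinj
  have hC := h.C_pos
  have hC0 : 0 < C := by linarith
  have ha0 := h.a_pos
  have hb0 := h.b_pos
  have hκ0 : 0 < κ := by linarith
  have hκ0' : 0 < κ' := by linarith
  have hC₂0 : 0 < C₂ := by linarith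
  have t1 : Tendsto (fun n : ℕ => K * (C * a ^ n)) atTop (𝓝 0) := by
    have := ((tendsto_pow_atTop_nhds_zero_of_lt_one h.a_pos.le h.a_lt).const_mul C).const_mul K
    simpa using this
  have t2 : Tendsto (fun n : ℕ => K * (C * b ^ n)) atTop (𝓝 0) := by
    have := ((tendsto_pow_atTop_nhds_zero_of_lt_one h.b_pos.le h.b_lt).const_mul C).const_mul K
    simpa using this
  obtain ⟨n, ⟨⟨hKa, hKb⟩, hn1⟩, hpoly⟩ := (((((tendsto_order.mp t1).2 (1 / 16) (by norm_num)).and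
    ((tendsto_order.mp t2).2 (1 / 16) (by norm_num))).and (eventually_ge_atTop 1)).and
    (ev_poly2 (Real.log κ) (Real.log κ') (Real.log a⁻¹) (Real.log b⁻¹) (Real.log (2 * C₂))
      (Real.log (2 * C)) D D' hp)).exists
  obtain ⟨S, hR, hSa, hSb, hSLs, hSLu, hSK⟩ := exists_real hiso he hinj h K hK hang n hKa.le hKb.le
  have haN : 0 < C * a ^ n := by positivity
  have hbN : 0 < C * b ^ n := by positivity
  have haN' : C * a ^ n ≤ 1 / 16 := by nlinarith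
  have hbN' : C * b ^ n ≤ 1 / 16 := by nlinarith
  have hκN : 1 ≤ C₂ * κ ^ n := by
    have := one_le_pow₀ hκ (n := n)
    nlinarith
  have hκN' : 1 ≤ C₂ * κ' ^ n := by
    have := one_le_pow₀ hκ' (n := n)
    nlinarith
  have hfu : ∀ x, Module.finrank ℝ (S.Vu x) = D := by
    intro x
    rw [hR.Vu_eq, ← hrk x]
    exact ((Submodule.equivMapOfInjective (dm E₀ e x).toLinearMap (hinj x) (Eu x)).finrank_eq).symm
  have hfs : ∀ x, Module.finrank ℝ (S.Vs x) = D' := by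
    intro x
    rw [hR.Vs_eq, ← hrk' x]
    exact ((Submodule.equivMapOfInjective (dm E₀ e x).toLinearMap (hinj x) (Es x)).finrank_eq).symm
  have hdist : ∀ x, ∀ v ∈ S.Vu x, ∀ w ∈ S.Vu x,
      ‖S.D x v‖ * ‖w‖ ≤ C₂ * κ ^ n * (‖S.D x w‖ * ‖v‖) := by
    intro x v hv w hw
    rw [hR.Vu_eq] at hv hw
    obtain ⟨v', hv', rfl⟩ := hv
    obtain ⟨w', hw', rfl⟩ := hw
    change ‖S.D x (dm E₀ e x v')‖ * ‖dm E₀ e x w'‖ ≤
      C₂ * κ ^ n * (‖S.D x (dm E₀ e x w')‖ * ‖dm E₀ e x v'‖)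
    rw [hR.D_eq, hR.D_eq]
    exact hd n x v' hv' w' hw'
  have hdist' : ∀ x, ∀ v ∈ S.Vs x, ∀ w ∈ S.Vs x,
      ‖S.D x v‖ * ‖w‖ ≤ C₂ * κ' ^ n * (‖S.D x w‖ * ‖v‖) := by
    intro x v hv w hw
    rw [hR.Vs_eq] at hv hw
    obtain ⟨v', hv', rfl⟩ := hv
    obtain ⟨w', hw', rfl⟩ := hw
    change ‖S.D x (dm E₀ e x v')‖ * ‖dm E₀ e x w'‖ ≤
      C₂ * κ' ^ n * (‖S.D x (dm E₀ e x w')‖ * ‖dm E₀ e x v'‖)
    rw [hR.D_eq, hR.D_eq]
    exact hd' n x v' hv' w' hw'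
  have e1 : Real.log (2 * (C * a ^ n))⁻¹ = n * Real.log a⁻¹ - Real.log (2 * C) := by
    rw [← mul_assoc, Real.log_inv, Real.log_mul (by positivity) (by positivity), Real.log_pow,
      Real.log_inv]
    ring
  have e2 : Real.log (2 * (C * b ^ n))⁻¹ = n * Real.log b⁻¹ - Real.log (2 * C) := by
    rw [← mul_assoc, Real.log_inv, Real.log_mul (by positivity) (by positivity), Real.log_pow,
      Real.log_inv]
    ring
  have e3 : Real.log (2 * (C₂ * κ ^ n)) = n * Real.log κ + Real.log (2 * C₂) := by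
    rw [← mul_assoc, Real.log_mul (by positivity) (by positivity), Real.log_pow]
    ring
  have e4 : Real.log (2 * (C₂ * κ' ^ n)) = n * Real.log κ' + Real.log (2 * C₂) := by
    rw [← mul_assoc, Real.log_mul (by positivity) (by positivity), Real.log_pow]
    ring
  have hSf : ∀ x, S.g x = f^[n] x := by
    intro x
    rw [hR.g_eq]
    rfl
  have hpp : 4 * D * D' * Real.log (2 * (C₂ * κ ^ n)) * Real.log (2 * (C₂ * κ' ^ n)) <
      Real.log (2 * (C * a ^ n))⁻¹ * Real.log (2 * (C * b ^ n))⁻¹ := by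
    rw [e1, e2, e3, e4]
    exact hpoly
  have hlf : ∀ a s, WS S.g a s → Lf S.g a s :=
    absT H.h1 H.h5 H.h6 H.h7 S f n hn1 hSf hNW D D' (2 * (C * a ^ n)) (2 * (C * b ^ n))
      (C₂ * κ ^ n) (2 * (C₂ * κ ^ n)) (C₂ * κ' ^ n) (2 * (C₂ * κ' ^ n)) hD hD' hfu hfs
      (by rw [hSa]; linarith) (by rw [hSb]; linarith) (by linarith) (by linarith) hκN
      (by linarith) hκN' (by linarith) hdist hdist' hpp
  have : ProperSpace E₀ := FiniteDimensional.proper_real E₀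
  have hX : ULC M := ulc_of_charted (X := M) (E := E₀)
  refine ⟨?_, fun hg => ?_⟩
  · obtain ⟨c, hLP⟩ := exists_LP S
    rw [hR.g_eq] at hLP hlf
    obtain ⟨c₁, hc₁, ⟨T⟩⟩ := exists_IQS hLP hX hlf
    exact gps_of_iqs hn1 rfl hLP hc₁ T
  · exact pgT hg.1 hg.2.1 hg.2.2 H.h1 H.h6 H.h7 H.h8 H.h9 S hX f n hn1 hSf hNW D D'
      (2 * (C * a ^ n)) (2 * (C * b ^ n))
      (C₂ * κ ^ n) (2 * (C₂ * κ ^ n)) (C₂ * κ' ^ n) (2 * (C₂ * κ' ^ n)) hD hD' hfu hfs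
      (by rw [hSa]; linarith) (by rw [hSb]; linarith) (by linarith) (by linarith) hκN
      (by linarith) hκN' (by linarith) hdist hdist' hpp hlf

end embedded

end Pool.Agent.Q192.PT
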