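import Pool.Agent.Q192.PT.Man
import Pool.Agent.Q192.PT.MDefs

/-!
# Project PT: the theorem on manifolds, uniform bounds
-/

set_option autoImplicit false
set_option linter.unusedSectionVars false

open Filter Topology Set Metric
open scoped Manifold ContDiff

namespace Pool.Agent.Q192.PT

open Pool.Agent.H721R2 Pool.Agent.H779R2.An Pool.Agent.Q130.UQ Pool.Agent.H789R2.AN
  Pool.Agent.H789R2.GP Pool.Agent.TH304.K289 Pool.Agent.TH289.L Pool.Agent.TH289
  Pool.Agent.TH289.K Pool.Agent.Y330.H Pool.Agent.Y330.G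
  Pool.Agent.Y330.J Pool.Agent.Q192.PI Pool.Agent.Q192.PI.B Pool.Agent.Q192.PG

universe u v w

section metric

variable {E₀ : Type*} [NormedAddCommGroup E₀] [NormedSpace ℝ E₀] [FiniteDimensional ℝ E₀]
  {M : Type*} [MetricSpace M] [CompactSpace M] [ChartedSpace E₀ M] [IsManifold 𝓘(ℝ, E₀) ∞ M]
  {F : Type*} [NormedAddCommGroup F] [NormedSpace ℝ F]

/-- The weak rates can be used in the embedded form. -/
theorem eanosov_weak {N : TangentBundle 𝓘(ℝ, E₀) M → ℝ} (hN : IsTangentNorm N) {e : M → F}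
    (he : ContMDiff 𝓘(ℝ, E₀) 𝓘(ℝ, F) 1 e) (hinj : ∀ x, Function.Injective (dm E₀ e x))
    {f : M ≃ₜ M} {Es Eu : M → Submodule ℝ E₀} {C a b Ls Lu : ℝ}
    (h : EAnosov e f Es Eu C a b Ls Lu) (C₁ μ l : ℝ) (hμ0 : 0 < μ) (hμ : μ < 1) (hl : 1 < l)
    (hs : UpperRate (E := E₀) f N Es C₁ μ) (hu : LowerRate (E := E₀) f N Eu C₁ l) :
    ∃ C' : ℝ, EAnosov e f Es Eu C' μ l⁻¹ Ls Lu := by
  obtain ⟨R, hR, hcmp⟩ := tnm_compare hN e he hinj
  have hC := h.C_pos
  have hLs := h.Ls_le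
  have hLu := h.Lu_le
  set K := max C (R ^ 2 * |C₁|) with hK
  have k1 : C ≤ K := le_max_left _ _
  have k2 : R ^ 2 * |C₁| ≤ K := le_max_right _ _
  have hl0 : 0 < l := by linarith
  have hli : 0 < l⁻¹ := inv_pos.2 hl0
  have hdm : ∀ x v, 0 ≤ ‖dm E₀ e x v‖ := fun x v => norm_nonneg _
  refine ⟨K, { h with
    C_pos := hC.trans k1
    a_pos := hμ0
    b_pos := hli
    a_lt := hμ
    b_lt := inv_lt_one_of_one_lt₀ hl
    hS := ?_
    hU' := ?_
    hS' := ?_
    hU := ?_ }⟩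
  · intro n x v hv
    have h1 : tnm N (f^[n] x) (dg E₀ (f^[n]) x v) ≤ C₁ * μ ^ n * tnm N x v := hs n x v hv
    have n1 : 0 ≤ tnm N x v := tnm_nonneg hN _ _
    calc ‖dm E₀ e (f^[n] x) (dg E₀ (f^[n]) x v)‖ ≤ R * tnm N (f^[n] x) (dg E₀ (f^[n]) x v) :=
          (hcmp _ _).1
      _ ≤ R * (C₁ * μ ^ n * tnm N x v) := mul_le_mul_of_nonneg_left h1 hR.le
      _ ≤ R * (|C₁| * μ ^ n * (R * ‖dm E₀ e x v‖)) := by
          apply mul_le_mul_of_nonneg_left _ hR.le
          apply mul_le_mul _ (hcmp x v).2 n1 (by positivity)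
          exact mul_le_mul_of_nonneg_right (le_abs_self _) (by positivity)
      _ = (R ^ 2 * |C₁|) * μ ^ n * ‖dm E₀ e x v‖ := by ring
      _ ≤ K * μ ^ n * ‖dm E₀ e x v‖ := by
          apply mul_le_mul_of_nonneg_right _ (hdm x v)
          exact mul_le_mul_of_nonneg_right k2 (by positivity)
  · intro n x v hv
    set w := dg E₀ (f.symm^[n]) x v with hw
    have hwm : w ∈ Eu (f.symm^[n] x) := h.mapU' n x v hv
    have e1 : f^[n] (f.symm^[n] x) = x := (Function.LeftInverse.iterate f.apply_symm_apply n) x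
    have e2 : dg E₀ (f^[n]) (f.symm^[n] x) w = v :=
      dg_inv (f.symm^[n]) (f^[n]) (iter_smooth f.symm h.smooth' n) (iter_smooth f h.smooth n)
        (fun z => (Function.LeftInverse.iterate f.apply_symm_apply n) z) x v
    have h1 : l ^ n * tnm N (f.symm^[n] x) w ≤
        C₁ * tnm N (f^[n] (f.symm^[n] x)) (dg E₀ (f^[n]) (f.symm^[n] x) w) := hu n _ w hwm
    rw [e1, e2] at h1
    have n1 : 0 ≤ tnm N x v := tnm_nonneg hN _ _
    have h2 : tnm N (f.symm^[n] x) w ≤ |C₁| * l⁻¹ ^ n * tnm N x v := by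
      rw [inv_pow]
      have h3 : l ^ n * tnm N (f.symm^[n] x) w ≤ |C₁| * tnm N x v :=
        h1.trans (mul_le_mul_of_nonneg_right (le_abs_self _) n1)
      have h4 : tnm N (f.symm^[n] x) w ≤ (l ^ n)⁻¹ * (|C₁| * tnm N x v) := by
        rw [le_inv_mul_iff₀ (by positivity)]
        exact h3
      linarith
    calc ‖dm E₀ e (f.symm^[n] x) w‖ ≤ R * tnm N (f.symm^[n] x) w := (hcmp _ _).1
      _ ≤ R * (|C₁| * l⁻¹ ^ n * tnm N x v) := mul_le_mul_of_nonneg_left h2 hR.le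
      _ ≤ R * (|C₁| * l⁻¹ ^ n * (R * ‖dm E₀ e x v‖)) := by
          apply mul_le_mul_of_nonneg_left _ hR.le
          exact mul_le_mul_of_nonneg_left (hcmp x v).2 (by positivity)
      _ = (R ^ 2 * |C₁|) * l⁻¹ ^ n * ‖dm E₀ e x v‖ := by ring
      _ ≤ K * l⁻¹ ^ n * ‖dm E₀ e x v‖ := by
          apply mul_le_mul_of_nonneg_right _ (hdm x v)
          exact mul_le_mul_of_nonneg_right k2 (by positivity)
  · intro n x v hv
    refine (h.hS' n x v hv).trans ?_
    apply mul_le_mul_of_nonneg_right _ (hdm x v)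
    exact mul_le_mul_of_nonneg_right k1 (by positivity)
  · intro n x v hv
    refine (h.hU n x v hv).trans ?_
    apply mul_le_mul_of_nonneg_right _ (hdm x v)
    exact mul_le_mul_of_nonneg_right k1 (by positivity)

end metric

section manifold

variable {E : Type*} [NormedAddCommGroup E] [NormedSpace ℝ E] [FiniteDimensional ℝ E]
  {M : Type u} [TopologicalSpace M] [T2Space M] [CompactSpace M] [ConnectedSpace M]
  [ChartedSpace E M] [IsManifold 𝓘(ℝ, E) ∞ M]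

/-- **Two-sided distortion bounds**, uniform form. -/
theorem man_two (H : LemT.{u, 0}) (hg : SG1.{u} ∧ SG2.{u} ∧ SG3.{u})
    (f : Diffeomorph 𝓘(ℝ, E) 𝓘(ℝ, E) M M 1)
    (Es Eu : ∀ x : M, Submodule ℝ (TangentSpace 𝓘(ℝ, E) x)) (hA : IsAnosov f Es Eu)
    (hNW : NWall f)
    (N : TangentBundle 𝓘(ℝ, E) M → ℝ) (hN : IsTangentNorm N) (D D' : ℕ) (hD : 2 ≤ D)
    (hD' : 2 ≤ D') (hrk : ∀ x, Module.finrank ℝ (Eu x) = D)
    (hrk' : ∀ x, Module.finrank ℝ (Es x) = D') (C μ l κ κ' : ℝ) (hμ0 : 0 < μ) (hμ : μ < 1)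
    (hl : 1 < l) (hκ : 1 ≤ κ) (hκ' : 1 ≤ κ') (hs : UpperRate f N Es C μ)
    (hu : LowerRate f N Eu C l) (hd : DistortionOn f N Eu C κ) (hd' : DistortionOn f N Es C κ')
    (hp : 4 * D * D' * Real.log κ * Real.log κ' < -Real.log μ * Real.log l) :
    TopTransitive f ∧ GPS f.toHomeomorph ∧
      (∃ π : E → M, IsCoveringMap π ∧ Function.Surjective π) ∧ PG M := by
  obtain ⟨m, ee, hee, hemb, hinje⟩ :=
    exists_embedding_euclidean_of_compact (I := 𝓘(ℝ, E)) (M := M)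
  have key : GPS f.toHomeomorph ∧ PG M := by
    let _ : MetricSpace M := hemb.isEmbedding.comapMetricSpace ee
    have hiso : ∀ x y : M, dist x y = ‖ee x - ee y‖ := fun x y => dist_eq_norm (ee x) (ee y)
    have he1 : ContMDiff 𝓘(ℝ, E) (𝓡 m) 1 ee := hee.of_le (by simp)
    obtain ⟨C₀, a, b, Ls, Lu, hE⟩ := eanosov_of_isAnosov ee he1 hinje f Es Eu hA
    obtain ⟨C', hE'⟩ := eanosov_weak hN he1 hinje hE C μ l hμ0 hμ hl hs hu
    obtain ⟨R, hR, hRd⟩ := dist_amb hN ee he1 hinje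
    have h1 : 1 ≤ R * max 1 C := by
      have : 1 ≤ max 1 C := le_max_left _ _
      nlinarith
    have h2 := coreT H hiso he1 hinje hE' (f := f.toHomeomorph) hNW D D' hD hD' hrk hrk'
      (R * max 1 C) κ κ' h1 hκ hκ' (hRd f Eu C κ (by linarith) hd)
      (hRd f Es C κ' (by linarith) hd') (by
        rw [inv_inv, Real.log_inv]
        exact hp)
    exact ⟨h2.1, h2.2 hg⟩
  obtain ⟨k1, k2⟩ := man_self f Es Eu hA key.1
  exact ⟨k1, key.1, k2, key.2⟩

end manifold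

end Pool.Agent.Q192.PT
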