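import Pool.Agent.Q192.PK.Stm2

/-!
# Project PT: quantitative distortion from the periodic points, statements
-/

set_option autoImplicit false
set_option linter.unusedSectionVars false

open Filter Topology Set Metric

namespace Pool.Agent.Q192.PT

open Pool.Agent.H721R2 Pool.Agent.H779R2.An Pool.Agent.Y321.PD Pool.Agent.Q192.PK

universe u v

/-- **ST12** (distortion from the distortion at the periodic points), quantitative form of `SK12`:
`theorem sT12 (h1 : SK1.{v}) (h2 : SK2.{v}) (h9 : SK9.{u, v}) (h10 : SK10.{u, v})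
(h11 : SK11.{u, v}) : ST12.{u, v}`. Adapt Q192/PK/K12.lean.
Proof. As in `sK12`: `lam` is the rate of the normalized cocycle. Let
`κ = exp t`, `t ≥ 0`. Claim `lam ≤ (D - 1) / D * t`. Otherwise take the periodic point `p` and `w` of
K9 for `l` between. For `T = Dn S (n q) p` and `K = A exp (t')^(n q)` (`t' > t` close to `t`),
`QA S (n q) p K`: all `v ∈ Vu p` satisfy `‖T v‖ ≥ c ‖v‖`, `c = ‖T w‖ / (K ‖w‖)`, and
`jac T (Vu p) * ‖w‖ ≥ c^(D-1) * ‖T w‖` (K2 (2) for the inverse of `T`, with `b = c⁻¹`, and the chain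
rule K1 (1): `jac (T⁻¹ ∘ T) = 1`; extend `T⁻¹` from `(Vu p).map T = Vu p` to a linear map of `E`, or
use `Dn S.symm` with `Dn_symm_Dn`). So `(‖T w‖ / ‖w‖)^D ≤ K^(D-1) jac T (Vu p)
= K^(D-1) exp (C.bs (n q) p)^D`, which contradicts the lower bound of K9. Then, as in `sK12`, with
`e = exp ((lam + ε) n)`, `ε` small: the distortion of `Dn S n x` is at most
`A'^D e^D ≤ A'^D exp (((D - 1) t + D ε) n)`. -/
def ST12 : Prop := ∀ (X : Type u) [MetricSpace X] [CompactSpace X] (E : Type v)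
  [NormedAddCommGroup E] [InnerProductSpace ℝ E] [FiniteDimensional ℝ E] (S : HypSys X E)
  (Q r : ℝ) (D : ℕ), Quad S Q r → (∀ x, Module.finrank ℝ (S.Vu x) = D) → ∀ κ : ℝ, 1 ≤ κ →
  (∀ (p : X) (n : ℕ), 1 ≤ n → S.g^[n] p = p → ∀ κ' : ℝ, κ < κ' → ∃ A : ℝ, ∀ q : ℕ,
    QA S (n * q) p (A * κ' ^ (n * q))) →
  ∀ κ' : ℝ, κ ^ (D - 1) < κ' → ∃ A : ℝ, ∀ (n : ℕ) (x : X), QA S n x (A * κ' ^ n)

end Pool.Agent.Q192.PT
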