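import Pool.Agent.Q192.PK.ManC
import Pool.Agent.Q192.PT.MDefs
import Pool.Agent.Q192.PT.StmP

/-!
# Project PT: quantitative distortion and weak rates from the periodic points
-/

set_option autoImplicit false
set_option linter.unusedSectionVars false

open scoped Manifold ContDiff Topology Bundle
open Set Filter Bundle

namespace Pool.Agent.Q192.PT

open Pool.Agent.H721R2 Pool.Agent.H779R2.An Pool.Agent.Y321.PD Pool.Agent.H789R2.AN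
  Pool.Agent.Q192.PI.B Pool.Agent.Q192.PK Pool.Agent.TH289 Pool.Agent.TH289.K
open Pool.Agent.W740.TU (anosov_symm)

universe u v w

section point

variable {E : Type*} [NormedAddCommGroup E] [NormedSpace ℝ E] [FiniteDimensional ℝ E]
  {M : Type*} [TopologicalSpace M] [ChartedSpace E M] [IsManifold 𝓘(ℝ, E) 1 M]

theorem perUp_of_upper {f : M → M} (hf : ContMDiff 𝓘(ℝ, E) 𝓘(ℝ, E) 1 f)
    (V : M → Submodule ℝ E)
    (hV : ∀ (n : ℕ) (x : M), ∀ v ∈ V x,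
      dg E (f^[n]) x v ∈ V (f^[n] x)) {b : ℝ} (hb : 0 ≤ b)
    (h : PeriodicUpper (E := E) f V b) : PerUp f V b := by
  intro k p hk hp l hl
  have hV' : ∀ v ∈ V p, dg E (f^[k]) p v ∈ V p := by
    intro v hv
    have := hV k p v hv
    rwa [hp] at this
  obtain ⟨A, hA⟩ := (sK15 (V p)
    (ret f V k p hV')).1 (b ^ k) (by positivity)
    (fun z hz => h k p hk hp z (ret_eig V k p hV' z hz)) (l ^ k)
    (pow_lt_pow_left₀ hl hb (by omega))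
  refine ⟨A, fun q v hv => ?_⟩
  have := hA q ⟨v, hv⟩
  rw [← pow_mul] at this
  have e := ret_pow hf V k p hp hV' q ⟨v, hv⟩
  rw [← e]
  exact this

theorem perLo_of_lower {f : M → M} (hf : ContMDiff 𝓘(ℝ, E) 𝓘(ℝ, E) 1 f)
    (V : M → Submodule ℝ E)
    (hV : ∀ (n : ℕ) (x : M), ∀ v ∈ V x,
      dg E (f^[n]) x v ∈ V (f^[n] x)) {a : ℝ} (ha : 0 < a)
    (h : PeriodicLower (E := E) f V a) : PerLo f V a := by
  intro k p hk hp l hl0 hl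
  have hV' : ∀ v ∈ V p, dg E (f^[k]) p v ∈ V p := by
    intro v hv
    have := hV k p v hv
    rwa [hp] at this
  obtain ⟨A, hA⟩ := (sK15 (V p)
    (ret f V k p hV')).2 (a ^ k) (by positivity)
    (fun z hz => h k p hk hp z (ret_eig V k p hV' z hz)) (l ^ k) (by positivity)
    (pow_lt_pow_left₀ hl hl0.le (by omega))
  refine ⟨A, fun q v hv => ?_⟩
  have := hA q ⟨v, hv⟩
  rw [← pow_mul] at this
  have e := ret_pow hf V k p hp hV' q ⟨v, hv⟩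
  rw [← e]
  exact this

theorem perDisQ_of_quot {f : M → M} (hf : ContMDiff 𝓘(ℝ, E) 𝓘(ℝ, E) 1 f)
    (V : M → Submodule ℝ E)
    (hV : ∀ (n : ℕ) (x : M), ∀ v ∈ V x,
      dg E (f^[n]) x v ∈ V (f^[n] x))
    (hinj : ∀ (n : ℕ) (x : M), ∀ v ∈ V x, dg E (f^[n]) x v = 0 → v = 0) {κ : ℝ} (hκ1 : 1 ≤ κ)
    (h : PeriodicQuotients (E := E) f V κ) : PerDisQ f V κ := by
  intro k p hk hp κ' hκ
  have hV' : ∀ v ∈ V p, dg E (f^[k]) p v ∈ V p := by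
    intro v hv
    have := hV k p v hv
    rwa [hp] at this
  set W : Submodule ℝ E := V p with hW
  set T : W →ₗ[ℝ] W := ret f V k p hV' with hT
  rcases subsingleton_or_nontrivial W with hs | hn
  · refine ⟨0, fun q v hv w hw => ?_⟩
    have : v = 0 := congrArg Subtype.val (Subsingleton.elim (⟨v, hv⟩ : W) 0)
    rw [this, map_zero, norm_zero]
    simp
  -- the roots
  set P := T.charpoly.map (algebraMap ℝ ℂ) with hP
  have hP0 : P ≠ 0 := by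
    rw [hP, Ne, Polynomial.map_eq_zero]
    exact T.charpoly_monic.ne_zero
  have hdeg : P.degree ≠ 0 := by
    rw [hP, Polynomial.degree_map, Polynomial.degree_eq_natDegree T.charpoly_monic.ne_zero,
      LinearMap.charpoly_natDegree]
    have : 0 < Module.finrank ℝ W := Module.finrank_pos
    exact_mod_cast this.ne'
  obtain ⟨z₀, hz₀⟩ := IsAlgClosed.exists_root P hdeg
  have hmem : ∀ z, z ∈ P.roots.toFinset ↔ P.IsRoot z := by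
    intro z
    rw [Multiset.mem_toFinset, Polynomial.mem_roots hP0]
  have hne : P.roots.toFinset.Nonempty := ⟨z₀, (hmem z₀).2 hz₀⟩
  obtain ⟨z₂, hz₂, hmax⟩ := P.roots.toFinset.exists_max_image (fun z => ‖z‖) hne
  obtain ⟨z₁, hz₁, hmin⟩ := P.roots.toFinset.exists_min_image (fun z => ‖z‖) hne
  rw [hmem] at hz₁ hz₂
  have hquot : ‖z₂‖ ≤ κ ^ k * ‖z₁‖ :=
    h k p hk hp z₂ z₁ (ret_eig V k p hV' z₂ hz₂) (ret_eig V k p hV' z₁ hz₁)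
  have hz10 : z₁ ≠ 0 := by
    rintro rfl
    have h1 : T.charpoly.coeff 0 = 0 := by
      have h2 : P.coeff 0 = 0 := by
        rw [Polynomial.coeff_zero_eq_eval_zero]
        exact hz₁
      rw [hP, Polynomial.coeff_map] at h2
      exact (map_eq_zero (algebraMap ℝ ℂ)).1 h2
    have h2 : LinearMap.det T = 0 := by
      rw [LinearMap.det_eq_sign_charpoly_coeff, h1, mul_zero]
    have h3 := LinearMap.bot_lt_ker_of_det_eq_zero h2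
    apply h3.ne'
    rw [LinearMap.ker_eq_bot']
    rintro ⟨v, hv⟩ h4
    have h5 : dg E (f^[k]) p v = 0 := congrArg Subtype.val h4
    exact Subtype.ext (hinj k p v hv h5)
  obtain ⟨ρ₁, hρ₁⟩ : ∃ ρ, ρ = ‖z₁‖ := ⟨_, rfl⟩
  obtain ⟨ρ₂, hρ₂⟩ : ∃ ρ, ρ = ‖z₂‖ := ⟨_, rfl⟩
  rw [← hρ₁, ← hρ₂] at hquot
  have hρ10 : 0 < ρ₁ := by rw [hρ₁]; exact norm_pos_iff.2 hz10
  have hρ12 : ρ₁ ≤ ρ₂ := by rw [hρ₁, hρ₂]; exact hmin z₂ ((hmem z₂).2 hz₂)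
  have hρ20 : 0 < ρ₂ := by linarith
  have hκ0 : 0 < κ := by linarith
  have hκ'0 : 0 < κ' := by linarith
  have hr1 : 1 < (κ' / κ) ^ k := one_lt_pow₀ ((one_lt_div hκ0).2 hκ) (by omega)
  set s := Real.sqrt ((κ' / κ) ^ k) with hs
  have hs1 : 1 < s := by
    rw [hs, Real.lt_sqrt zero_le_one]
    simpa using hr1
  have hs0 : 0 < s := by linarith
  have hss : s * s = (κ' / κ) ^ k := Real.mul_self_sqrt (by positivity)
  obtain ⟨A, hA⟩ := (sK15 W T).1 ρ₂ hρ20.le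
    (fun z hz => by rw [hρ₂]; exact hmax z ((hmem z).2 hz)) (ρ₂ * s) (by nlinarith)
  obtain ⟨B, hB⟩ := (sK15 W T).2 ρ₁ hρ10
    (fun z hz => by rw [hρ₁]; exact hmin z ((hmem z).2 hz)) (ρ₁ / s) (by positivity)
    (div_lt_self hρ10 hs1)
  refine ⟨|A| * |B|, fun q v hv w hw => ?_⟩
  have hv1 := hA q ⟨v, hv⟩
  have hw1 := hB q ⟨w, hw⟩
  have ev := ret_pow hf V k p hp hV' q ⟨v, hv⟩
  have ew := ret_pow hf V k p hp hV' q ⟨w, hw⟩
  rw [← ev, ← ew]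
  change ‖(T ^ q) ⟨v, hv⟩‖ * ‖w‖ ≤ _ * (‖(T ^ q) ⟨w, hw⟩‖ * ‖v‖)
  have e1 : ‖(⟨v, hv⟩ : W)‖ = ‖v‖ := rfl
  have e2 : ‖(⟨w, hw⟩ : W)‖ = ‖w‖ := rfl
  rw [e1] at hv1
  rw [e2] at hw1
  set x := ‖(T ^ q) ⟨v, hv⟩‖
  set y := ‖(T ^ q) ⟨w, hw⟩‖
  have hx0 : 0 ≤ x := norm_nonneg _
  have hy0 : 0 ≤ y := norm_nonneg _
  have hρq : 0 < ρ₁ ^ q := by positivity
  have hρ2q : 0 < ρ₂ ^ q := by positivity
  have hsq : 0 < s ^ q := by positivity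
  have h1 : x ≤ |A| * (ρ₂ ^ q * s ^ q) * ‖v‖ := by
    refine hv1.trans ?_
    rw [mul_pow]
    exact mul_le_mul_of_nonneg_right (mul_le_mul_of_nonneg_right (le_abs_self _) (by positivity))
      (norm_nonneg _)
  have h2 : ρ₁ ^ q * ‖w‖ ≤ |B| * s ^ q * y := by
    have h3 : (ρ₁ / s) ^ q * ‖w‖ ≤ |B| * y :=
      hw1.trans (mul_le_mul_of_nonneg_right (le_abs_self _) hy0)
    rw [div_pow, div_mul_eq_mul_div, div_le_iff₀ hsq] at h3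
    linarith
  have h3 : ρ₂ ^ q ≤ κ ^ (k * q) * ρ₁ ^ q := by
    rw [pow_mul, ← mul_pow]
    exact pow_le_pow_left₀ hρ20.le hquot q
  have h4 : κ ^ (k * q) * (s ^ q * s ^ q) = κ' ^ (k * q) := by
    rw [← mul_pow, hss, pow_mul, ← mul_pow, ← mul_pow, mul_div_cancel₀ _ hκ0.ne', ← pow_mul]
  calc x * ‖w‖ ≤ (|A| * (ρ₂ ^ q * s ^ q) * ‖v‖) * ‖w‖ :=
        mul_le_mul_of_nonneg_right h1 (norm_nonneg _)
    _ ≤ (|A| * ((κ ^ (k * q) * ρ₁ ^ q) * s ^ q) * ‖v‖) * ‖w‖ := by gcongr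
    _ = |A| * κ ^ (k * q) * s ^ q * ‖v‖ * (ρ₁ ^ q * ‖w‖) := by ring
    _ ≤ |A| * κ ^ (k * q) * s ^ q * ‖v‖ * (|B| * s ^ q * y) :=
        mul_le_mul_of_nonneg_left h2 (by positivity)
    _ = |A| * |B| * (κ ^ (k * q) * (s ^ q * s ^ q)) * (y * ‖v‖) := by ring
    _ = _ := by rw [h4]

end point

section inverse

variable {E : Type*} [NormedAddCommGroup E] [NormedSpace ℝ E] [FiniteDimensional ℝ E]
  {M : Type*} [TopologicalSpace M] [ChartedSpace E M] [IsManifold 𝓘(ℝ, E) 1 M]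

theorem perDisQ_symm {f : M ≃ₜ M} (hf : ContMDiff 𝓘(ℝ, E) 𝓘(ℝ, E) 1 f)
    (hf' : ContMDiff 𝓘(ℝ, E) 𝓘(ℝ, E) 1 f.symm) {V : M → Submodule ℝ E}
    (hV : ∀ (n : ℕ) (x : M), ∀ v ∈ V x, dg E (f.symm^[n]) x v ∈ V (f.symm^[n] x)) {κ : ℝ}
    (h : PerDisQ f V κ) : PerDisQ f.symm V κ := by
  intro k p hk hp κ' hκ
  obtain ⟨A, hA⟩ := h k p hk (per_symm hp) κ' hκ
  refine ⟨A, fun q v hv w hw => ?_⟩
  obtain ⟨m1, m2⟩ := symm_vec hf hf' hV hp q hv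
  obtain ⟨m3, m4⟩ := symm_vec hf hf' hV hp q hw
  have h1 := hA q _ m3 _ m1
  rw [m2, m4] at h1
  linarith

end inverse

section embedded

variable {E₀ : Type w} [NormedAddCommGroup E₀] [NormedSpace ℝ E₀] [FiniteDimensional ℝ E₀]
  {M : Type u} [MetricSpace M] [CompactSpace M] [ChartedSpace E₀ M] [IsManifold 𝓘(ℝ, E₀) ∞ M]
  {F : Type v} [NormedAddCommGroup F] [InnerProductSpace ℝ F] [FiniteDimensional ℝ F]
  {e : M → F} {f : M ≃ₜ M} {Es Eu : M → Submodule ℝ E₀} {C a b Ls Lu : ℝ}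

/-- Distortion at the periodic points of the realizing system. -/
theorem per_qaQ (hinj : ∀ x, Function.Injective (dm E₀ e x)) (h : EAnosov e f Es Eu C a b Ls Lu)
    {S : HypSys M F} {N : ℕ} (hN : 1 ≤ N) (hS : Realizes S e f Es Eu N) {κ₀ : ℝ} (hκ₀ : 1 ≤ κ₀)
    (hP : PerDisQ f Eu κ₀)
    (p : M) (k : ℕ) (hk : 1 ≤ k) (hp : S.g^[k] p = p) (κ : ℝ) (hκ : κ₀ ^ N < κ) :
    ∃ A : ℝ, ∀ q : ℕ, QA S (k * q) p (A * κ ^ (k * q)) := by
  rw [real_iter hS] at hp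
  have hκ0 : 0 < κ := lt_of_lt_of_le (by positivity) hκ.le
  obtain ⟨r0, r1⟩ := root_pow hN hκ0
  set κ' := κ ^ ((N : ℝ)⁻¹) with hκ'
  have hκ'1 : κ₀ < κ' := lt_root hN hκ0 hκ
  obtain ⟨A, hA⟩ := hP (N * k) p (Nat.mul_pos hN hk) hp κ' hκ'1
  obtain ⟨R, hR, hR1, hR2⟩ := dm_cmp (e := e) hinj p
  refine ⟨|A| * R ^ 4, fun q v hv w hw => ?_⟩
  rw [hS.Vu_eq] at hv hw
  obtain ⟨v₀, hv₀, rfl⟩ := hv
  obtain ⟨w₀, hw₀, rfl⟩ := hw
  change ‖Dn S (k * q) p (dm E₀ e p v₀)‖ * ‖dm E₀ e p w₀‖ ≤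
    |A| * R ^ 4 * κ ^ (k * q) * (‖Dn S (k * q) p (dm E₀ e p w₀)‖ * ‖dm E₀ e p v₀‖)
  rw [Dn_dm' h hS, Dn_dm' h hS]
  have e1 : N * (k * q) = N * k * q := by ring
  have e2 : f^[N * (k * q)] p = p := by rw [e1]; exact iter_per hp q
  rw [e2]
  have h1 := hA q v₀ hv₀ w₀ hw₀
  rw [← e1] at h1
  have e3 : κ' ^ (N * (k * q)) = κ ^ (k * q) := by rw [pow_mul, r1]
  rw [e3] at h1
  set V := dg E₀ (f^[N * (k * q)]) p v₀
  set W := dg E₀ (f^[N * (k * q)]) p w₀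
  have hκq : 0 < κ ^ (k * q) := by positivity
  calc ‖dm E₀ e p V‖ * ‖dm E₀ e p w₀‖ ≤ (R * ‖V‖) * (R * ‖w₀‖) :=
        mul_le_mul (hR1 V) (hR1 w₀) (norm_nonneg _) (by positivity)
    _ = R ^ 2 * (‖V‖ * ‖w₀‖) := by ring
    _ ≤ R ^ 2 * (|A| * κ ^ (k * q) * (‖W‖ * ‖v₀‖)) := by
        apply mul_le_mul_of_nonneg_left _ (by positivity)
        refine h1.trans (mul_le_mul_of_nonneg_right ?_ (by positivity))
        exact mul_le_mul_of_nonneg_right (le_abs_self _) hκq.le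
    _ ≤ R ^ 2 * (|A| * κ ^ (k * q) * ((R * ‖dm E₀ e p W‖) * (R * ‖dm E₀ e p v₀‖))) := by
        apply mul_le_mul_of_nonneg_left _ (by positivity)
        apply mul_le_mul_of_nonneg_left _ (by positivity)
        exact mul_le_mul (hR2 W) (hR2 v₀) (norm_nonneg _) (by positivity)
    _ = _ := by ring

variable (hiso : ∀ x y, dist x y = ‖e x - e y‖) (he : ContMDiff 𝓘(ℝ, E₀) 𝓘(ℝ, F) 2 e)
  (hinj : ∀ x, Function.Injective (dm E₀ e x)) (h : EAnosov e f Es Eu C a b Ls Lu)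
  (hf2 : ContMDiff 𝓘(ℝ, E₀) 𝓘(ℝ, E₀) 2 f) (hf2' : ContMDiff 𝓘(ℝ, E₀) 𝓘(ℝ, E₀) 2 f.symm)
  (D : ℕ) (hD : ∀ x, Module.finrank ℝ (Eu x) = D)

include hiso he hinj h hf2 hf2' hD

/-- Distortion from the periodic points. -/
theorem uni_disQ (h12 : ST12.{u, v}) {κ₀ : ℝ} (hκ₀ : 1 ≤ κ₀) (hP : PerDisQ f Eu κ₀) (κ : ℝ)
    (hκ : κ₀ ^ (D - 1) < κ) : ∃ A : ℝ, ∀ (m : ℕ) (x : M),
    ∀ v ∈ Eu x, ∀ w ∈ Eu x,
    ‖dm E₀ e (f^[m] x) (dg E₀ (f^[m]) x v)‖ * ‖dm E₀ e x w‖ ≤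
      A * κ ^ m * (‖dm E₀ e (f^[m] x) (dg E₀ (f^[m]) x w)‖ * ‖dm E₀ e x v‖) := by
  obtain ⟨n, S, Q, r, hn, hS, hQ, hfin⟩ := exists_quad hiso he hinj h hf2 hf2' D hD
  have hκ1 : 1 < κ := lt_of_le_of_lt (one_le_pow₀ hκ₀) hκ
  obtain ⟨A, hA⟩ := h12 M F S Q r D hQ hfin (κ₀ ^ n) (one_le_pow₀ hκ₀)
    (per_qaQ hinj h hn hS hκ₀ hP) (κ ^ n) (by
      rw [← pow_mul, mul_comm n, pow_mul]
      exact pow_lt_pow_left₀ hκ (by positivity) (by omega))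
  have hC1 := h.C_pos
  have hLu1 := h.Lu_le
  have hC0 : 0 < C := by linarith
  refine ⟨C * Lu ^ n * |A| * C, ?_⟩
  intro m x v hv w hw
  obtain ⟨k, j, hj, hm⟩ : ∃ k j : ℕ, j < n ∧ m = j + n * k :=
    ⟨m / n, m % n, Nat.mod_lt _ (by omega), (Nat.mod_add_div m n).symm⟩
  have hcomp : ∀ u : E₀, dg E₀ (f^[m]) x u =
      dg E₀ (f^[j]) (f^[n * k] x) (dg E₀ (f^[n * k]) x u) := by
    intro u
    have h1 : f^[m] = f^[j] ∘ f^[n * k] := by rw [hm, Function.iterate_add]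
    rw [h1, dg_comp _ _ (iter_smooth f h.smooth (n * k)) (iter_smooth f h.smooth j)]
  have hpt : f^[m] x = f^[j] (f^[n * k] x) := by rw [hm, Function.iterate_add_apply]
  set y := f^[n * k] x with hy
  set V := dg E₀ (f^[n * k]) x v with hV
  set W := dg E₀ (f^[n * k]) x w with hW
  have hVm : V ∈ Eu y := h.mapU (n * k) x v hv
  have hWm : W ∈ Eu y := h.mapU (n * k) x w hw
  have e1 : ‖dm E₀ e (f^[m] x) (dg E₀ (f^[m]) x v)‖ ≤ C * Lu ^ n * ‖dm E₀ e y V‖ := by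
    rw [hcomp, hpt]
    refine (h.hU j y V hVm).trans ?_
    have : Lu ^ j ≤ Lu ^ n := pow_le_pow_right₀ hLu1 hj.le
    gcongr
  have e2 : ‖dm E₀ e y W‖ ≤ C * ‖dm E₀ e (f^[m] x) (dg E₀ (f^[m]) x w)‖ := by
    rw [hcomp, hpt]
    have h1 := h.hU' j (f^[j] y) (dg E₀ (f^[j]) y W) (h.mapU j y W hWm)
    have h2 : f.symm^[j] (f^[j] y) = y := (Function.LeftInverse.iterate f.symm_apply_apply j) y
    have h3 : dg E₀ (f.symm^[j]) (f^[j] y) (dg E₀ (f^[j]) y W) = W :=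
      dg_inv (f^[j]) (f.symm^[j]) (iter_smooth f h.smooth j) (iter_smooth f.symm h.smooth' j)
        (fun z => (Function.LeftInverse.iterate f.symm_apply_apply j) z) y W
    rw [h2, h3] at h1
    refine h1.trans ?_
    have h4 : b ^ j ≤ 1 := pow_le_one₀ h.b_pos.le h.b_lt.le
    have h5 : C * b ^ j ≤ C * 1 := mul_le_mul_of_nonneg_left h4 hC0.le
    rw [mul_one] at h5
    exact mul_le_mul_of_nonneg_right h5 (norm_nonneg _)
  have hkm : (κ ^ n) ^ k ≤ κ ^ m := by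
    rw [← pow_mul]
    exact pow_le_pow_right₀ hκ1.le (by omega)
  have hkm0 : 0 < κ ^ m := by positivity
  have e3 : ‖dm E₀ e y V‖ * ‖dm E₀ e x w‖ ≤
      |A| * κ ^ m * (‖dm E₀ e y W‖ * ‖dm E₀ e x v‖) := by
    have h1 := hA k x (dm E₀ e x v) (by rw [hS.Vu_eq]; exact ⟨v, hv, rfl⟩)
      (dm E₀ e x w) (by rw [hS.Vu_eq]; exact ⟨w, hw, rfl⟩)
    rw [Dn_dm' h hS, Dn_dm' h hS] at h1
    refine h1.trans (mul_le_mul_of_nonneg_right ?_ (by positivity))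
    exact mul_le_mul (le_abs_self _) hkm (by positivity) (abs_nonneg _)
  have hLn : 0 ≤ Lu ^ n := by positivity
  calc _ ≤ (C * Lu ^ n * ‖dm E₀ e y V‖) * ‖dm E₀ e x w‖ :=
        mul_le_mul_of_nonneg_right e1 (norm_nonneg _)
    _ = C * Lu ^ n * (‖dm E₀ e y V‖ * ‖dm E₀ e x w‖) := by ring
    _ ≤ C * Lu ^ n * (|A| * κ ^ m * (‖dm E₀ e y W‖ * ‖dm E₀ e x v‖)) :=
        mul_le_mul_of_nonneg_left e3 (by positivity)
    _ ≤ C * Lu ^ n * (|A| * κ ^ m * ((C * ‖dm E₀ e (f^[m] x) (dg E₀ (f^[m]) x w)‖) *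
        ‖dm E₀ e x v‖)) := by gcongr
    _ = _ := by ring

end embedded

end Pool.Agent.Q192.PT
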