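import Pool.Agent.Q192.PT.ManP
import Pool.Agent.Q192.PT.Man2

/-!
# Project PT: the theorem on manifolds, conditions at the periodic points
-/

set_option autoImplicit false
set_option linter.unusedSectionVars false

open scoped Manifold ContDiff Topology Bundle
open Set Filter Bundle

namespace Pool.Agent.Q192.PT

open Pool.Agent.H721R2 Pool.Agent.H779R2.An Pool.Agent.Y321.PD Pool.Agent.H789R2.AN
  Pool.Agent.H789R2.GP Pool.Agent.Y330.J Pool.Agent.Q192.PG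
  Pool.Agent.Q192.PI.B Pool.Agent.Q192.PK Pool.Agent.TH289 Pool.Agent.TH289.K
open Pool.Agent.W740.TU (anosov_symm)

universe u v w

variable {E : Type w} [NormedAddCommGroup E] [NormedSpace ℝ E] [FiniteDimensional ℝ E]
  {M : Type u} [TopologicalSpace M] [T2Space M] [CompactSpace M] [ConnectedSpace M]
  [ChartedSpace E M] [IsManifold 𝓘(ℝ, E) ∞ M]

/-- Distortion on the unstable bundle from the periodic points. -/
theorem dis_of_perQ (h12 : ST12.{u, 0}) (f : Diffeomorph 𝓘(ℝ, E) 𝓘(ℝ, E) M M 1)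
    (hf2 : ContMDiff 𝓘(ℝ, E) 𝓘(ℝ, E) 2 f) (hf2' : ContMDiff 𝓘(ℝ, E) 𝓘(ℝ, E) 2 f.symm)
    (Es Eu : ∀ x : M, Submodule ℝ (TangentSpace 𝓘(ℝ, E) x)) (hA : IsAnosov f Es Eu)
    (N : TangentBundle 𝓘(ℝ, E) M → ℝ) (hN : IsTangentNorm N) (D : ℕ)
    (hD : ∀ x, Module.finrank ℝ (Eu x) = D) {κ₀ : ℝ} (hκ₀ : 1 ≤ κ₀)
    (hPD : PerDisQ (E := E) f Eu κ₀) (κ : ℝ) (hκ : κ₀ ^ (D - 1) < κ) :
    ∃ C : ℝ, DistortionOn f N Eu C κ := by
  obtain ⟨m, ee, hee, hemb, hinje⟩ :=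
    exists_embedding_euclidean_of_compact (I := 𝓘(ℝ, E)) (M := M)
  let _ : MetricSpace M := hemb.isEmbedding.comapMetricSpace ee
  have hiso : ∀ x y : M, dist x y = ‖ee x - ee y‖ := fun x y => dist_eq_norm (ee x) (ee y)
  have he1 : ContMDiff 𝓘(ℝ, E) (𝓡 m) 1 ee := hee.of_le (by simp)
  have he2 : ContMDiff 𝓘(ℝ, E) (𝓡 m) 2 ee := hee.of_le (by
    exact_mod_cast (ENat.LEInfty.out : (2 : WithTop ℕ∞) ≤ ∞))
  obtain ⟨C, a, b, Ls, Lu, hE⟩ := eanosov_of_isAnosov ee he1 hinje f Es Eu hA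
  have hκ1 : 1 < κ := lt_of_le_of_lt (one_le_pow₀ hκ₀) hκ
  obtain ⟨A, hA'⟩ := uni_disQ hiso he2 hinje hE hf2 hf2' D hD h12 hκ₀ hPD κ hκ
  obtain ⟨R, hR, hcmp⟩ := tnm_compare hN ee he1 hinje
  refine ⟨R ^ 4 * |A|, fun n x v hv w hw => ?_⟩
  change tnm N (f^[n] x) (dg E (f^[n]) x v) * tnm N x w ≤
    R ^ 4 * |A| * κ ^ n * (tnm N (f^[n] x) (dg E (f^[n]) x w) * tnm N x v)
  have h1 := hA' n x v hv w hw
  have a1 := (hcmp (f^[n] x) (dg E (f^[n]) x v)).2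
  have a2 := (hcmp x w).2
  have a3 := (hcmp (f^[n] x) (dg E (f^[n]) x w)).1
  have a4 := (hcmp x v).1
  have n1 : 0 ≤ tnm N (f^[n] x) (dg E (f^[n]) x v) := tnm_nonneg hN _ _
  have n2 : 0 ≤ tnm N x w := tnm_nonneg hN _ _
  have n3 : 0 ≤ tnm N (f^[n] x) (dg E (f^[n]) x w) := tnm_nonneg hN _ _
  have n4 : 0 ≤ tnm N x v := tnm_nonneg hN _ _
  have hκn : 0 ≤ κ ^ n := by positivity
  calc tnm N (f^[n] x) (dg E (f^[n]) x v) * tnm N x w
      ≤ (R * ‖dm E ee (f^[n] x) (dg E (f^[n]) x v)‖) * (R * ‖dm E ee x w‖) :=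
        mul_le_mul a1 a2 n2 (by positivity)
    _ = R ^ 2 * (‖dm E ee (f^[n] x) (dg E (f^[n]) x v)‖ * ‖dm E ee x w‖) := by ring
    _ ≤ R ^ 2 * (|A| * κ ^ n * (‖dm E ee (f^[n] x) (dg E (f^[n]) x w)‖ * ‖dm E ee x v‖)) := by
        apply mul_le_mul_of_nonneg_left _ (by positivity)
        refine h1.trans (mul_le_mul_of_nonneg_right ?_ (by positivity))
        exact mul_le_mul_of_nonneg_right (le_abs_self _) hκn
    _ ≤ R ^ 2 * (|A| * κ ^ n * ((R * tnm N (f^[n] x) (dg E (f^[n]) x w)) *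
          (R * tnm N x v))) := by
        apply mul_le_mul_of_nonneg_left _ (by positivity)
        apply mul_le_mul_of_nonneg_left _ (by positivity)
        exact mul_le_mul a3 a4 (norm_nonneg _) (by positivity)
    _ = _ := by ring

/-- Distortion at the periodic points from the eigenvalues. -/
theorem perDisQ_of (f : Diffeomorph 𝓘(ℝ, E) 𝓘(ℝ, E) M M 1)
    (Es Eu : ∀ x : M, Submodule ℝ (TangentSpace 𝓘(ℝ, E) x)) (hA : IsAnosov f Es Eu) {κ : ℝ}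
    (hκ : 1 ≤ κ) :
    (PeriodicQuotients f Eu κ → PerDisQ (E := E) f Eu κ) ∧
      (PeriodicQuotients f Es κ → PerDisQ (E := E) f.symm Es κ) := by
  obtain ⟨m, ee, hee, hemb, hinje⟩ :=
    exists_embedding_euclidean_of_compact (I := 𝓘(ℝ, E)) (M := M)
  let _ : MetricSpace M := hemb.isEmbedding.comapMetricSpace ee
  have he1 : ContMDiff 𝓘(ℝ, E) (𝓡 m) 1 ee := hee.of_le (by simp)
  obtain ⟨C, a, b, Ls, Lu, hE⟩ := eanosov_of_isAnosov ee he1 hinje f Es Eu hA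
  have hsm : ContMDiff 𝓘(ℝ, E) 𝓘(ℝ, E) 1 f.toHomeomorph := f.contMDiff
  have hsm' : ContMDiff 𝓘(ℝ, E) 𝓘(ℝ, E) 1 f.toHomeomorph.symm := f.symm.contMDiff
  let Eu' : M → Submodule ℝ E := Eu
  let Es' : M → Submodule ℝ E := Es
  have hinj' : ∀ (n : ℕ) (x : M) (v : E), dg E (f^[n]) x v = 0 → v = 0 := by
    intro n x v h0
    have h1 := dg_inv (f^[n]) (f.symm^[n]) (iter_smooth f f.contMDiff n)
      (iter_smooth f.symm f.symm.contMDiff n)
      (fun z => (Function.LeftInverse.iterate f.symm_apply_apply n) z) x v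
    rw [h0, map_zero] at h1
    exact h1.symm
  refine ⟨fun hP => perDisQ_of_quot f.contMDiff Eu' hE.mapU (fun n x v _ => hinj' n x v) hκ hP,
    fun hP => ?_⟩
  have h1 : PerDisQ f.toHomeomorph Es' κ :=
    perDisQ_of_quot hsm Es' hE.mapS (fun n x v _ => hinj' n x v) hκ hP
  exact perDisQ_symm hsm hsm' hE.mapS' h1

/-- From distortion of the inverse to distortion. -/
theorem dis_symm (f : Diffeomorph 𝓘(ℝ, E) 𝓘(ℝ, E) M M 1)
    (Es Eu : ∀ x : M, Submodule ℝ (TangentSpace 𝓘(ℝ, E) x)) (hA : IsAnosov f Es Eu)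
    (N : TangentBundle 𝓘(ℝ, E) M → ℝ) {C κ : ℝ}
    (h : DistortionOn f.symm N Es C κ) : DistortionOn f N Es C κ := by
  obtain ⟨m, ee, hee, hemb, hinje⟩ :=
    exists_embedding_euclidean_of_compact (I := 𝓘(ℝ, E)) (M := M)
  let _ : MetricSpace M := hemb.isEmbedding.comapMetricSpace ee
  have he1 : ContMDiff 𝓘(ℝ, E) (𝓡 m) 1 ee := hee.of_le (by simp)
  obtain ⟨C', a, b, Ls, Lu, hE⟩ := eanosov_of_isAnosov ee he1 hinje f Es Eu hA
  let Es' : M → Submodule ℝ E := Es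
  have key : ∀ (n : ℕ) (x : M) (v w : E), v ∈ Es' x → w ∈ Es' x →
      tnm N (f^[n] x) (dg E (f^[n]) x v) * tnm N x w ≤
        C * κ ^ n * (tnm N (f^[n] x) (dg E (f^[n]) x w) * tnm N x v) := by
    intro n x v w hv hw
    have m1 : dg E (f^[n]) x v ∈ Es' (f^[n] x) := hE.mapS n x v hv
    have m2 : dg E (f^[n]) x w ∈ Es' (f^[n] x) := hE.mapS n x w hw
    have h1 : tnm N (f.symm^[n] (f^[n] x)) (dg E (f.symm^[n]) (f^[n] x) (dg E (f^[n]) x w)) *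
        tnm N (f^[n] x) (dg E (f^[n]) x v) ≤ C * κ ^ n *
        (tnm N (f.symm^[n] (f^[n] x)) (dg E (f.symm^[n]) (f^[n] x) (dg E (f^[n]) x v)) *
          tnm N (f^[n] x) (dg E (f^[n]) x w)) := h n (f^[n] x) _ m2 _ m1
    have e0 : f.symm^[n] (f^[n] x) = x := (Function.LeftInverse.iterate f.symm_apply_apply n) x
    have e1 := fun u : E => dg_inv (f^[n]) (f.symm^[n]) (iter_smooth f f.contMDiff n)
      (iter_smooth f.symm f.symm.contMDiff n)
      (fun z => (Function.LeftInverse.iterate f.symm_apply_apply n) z) x u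
    rw [e1, e1, e0] at h1
    linarith
  exact fun n x v hv w hw => key n x v w hv hw

/-- Weak rates from the periodic points. -/
theorem weak_of_per (f : Diffeomorph 𝓘(ℝ, E) 𝓘(ℝ, E) M M 1)
    (hf2 : ContMDiff 𝓘(ℝ, E) 𝓘(ℝ, E) 2 f) (hf2' : ContMDiff 𝓘(ℝ, E) 𝓘(ℝ, E) 2 f.symm)
    (Es Eu : ∀ x : M, Submodule ℝ (TangentSpace 𝓘(ℝ, E) x)) (hA : IsAnosov f Es Eu)
    (N : TangentBundle 𝓘(ℝ, E) M → ℝ) (hN : IsTangentNorm N) {μ l μ' l' : ℝ}
    (hμ : 0 < μ) (hl : 0 < l) (hs : PeriodicUpper f Es μ) (hu : PeriodicLower f Eu l)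
    (hμ' : μ < μ') (hl0 : 0 < l') (hl' : l' < l) :
    ∃ C : ℝ, UpperRate f N Es C μ' ∧ LowerRate f N Eu C l' := by
  obtain ⟨D, hD⟩ := man_rank f Es Eu hA
  obtain ⟨D', hD'⟩ := man_rank f.symm Eu Es (anosov_symm f Es Eu hA)
  obtain ⟨m, ee, hee, hemb, hinje⟩ :=
    exists_embedding_euclidean_of_compact (I := 𝓘(ℝ, E)) (M := M)
  let _ : MetricSpace M := hemb.isEmbedding.comapMetricSpace ee
  have hiso : ∀ x y : M, dist x y = ‖ee x - ee y‖ := fun x y => dist_eq_norm (ee x) (ee y)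
  have he1 : ContMDiff 𝓘(ℝ, E) (𝓡 m) 1 ee := hee.of_le (by simp)
  have he2 : ContMDiff 𝓘(ℝ, E) (𝓡 m) 2 ee := hee.of_le (by
    exact_mod_cast (ENat.LEInfty.out : (2 : WithTop ℕ∞) ≤ ∞))
  obtain ⟨C, a, b, Ls, Lu, hE⟩ := eanosov_of_isAnosov ee he1 hinje f Es Eu hA
  let Eu' : M → Submodule ℝ E := Eu
  let Es' : M → Submodule ℝ E := Es
  have hsm : ContMDiff 𝓘(ℝ, E) 𝓘(ℝ, E) 1 f.toHomeomorph := f.contMDiff
  have hsm' : ContMDiff 𝓘(ℝ, E) 𝓘(ℝ, E) 1 f.toHomeomorph.symm := f.symm.contMDiff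
  have u2 : PerLo f.toHomeomorph Eu' l := perLo_of_lower hsm Eu' hE.mapU hl hu
  have s1 : PerUp f.toHomeomorph Es' μ := perUp_of_upper hsm Es' hE.mapS hμ.le hs
  have s4 : PerLo f.toHomeomorph.symm Es' μ⁻¹ := perLo_symm hsm hsm' hE.mapS' hμ s1
  obtain ⟨A₂, hA₂, H₂⟩ := uni_lo hiso he2 hinje hE hf2 hf2' D hD hl u2 l'⁻¹ (by
    apply inv_strictAnti₀ hl0; linarith)
  obtain ⟨A₄, hA₄, H₄⟩ := uni_lo hiso he2 hinje hE.symm hf2' hf2 D' hD' (by positivity) s4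
    μ' (by rw [inv_inv]; linarith)
  obtain ⟨R, hR, hcmp⟩ := tnm_compare hN ee he1 hinje
  have hR0 : 0 < R := by linarith
  have hμ'0 : 0 < μ' := by linarith
  set K := max (R ^ 2 * A₂) (R ^ 2 * A₄) with hK
  have k2 : R ^ 2 * A₂ ≤ K := le_max_left _ _
  have k4 : R ^ 2 * A₄ ≤ K := le_max_right _ _
  refine ⟨K, fun n x v hv => ?_, fun n x v hv => ?_⟩
  · change tnm N (f^[n] x) (dg E (f^[n]) x v) ≤ K * μ' ^ n * tnm N x v
    have n1 : 0 ≤ tnm N x v := tnm_nonneg hN _ _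
    calc tnm N (f^[n] x) (dg E (f^[n]) x v) ≤
        R * ‖dm E ee (f^[n] x) (dg E (f^[n]) x v)‖ := (hcmp _ _).2
      _ ≤ R * (A₄ * μ' ^ n * ‖dm E ee x v‖) := mul_le_mul_of_nonneg_left (H₄ n x v hv) hR0.le
      _ ≤ R * (A₄ * μ' ^ n * (R * tnm N x v)) := by
          apply mul_le_mul_of_nonneg_left _ hR0.le
          exact mul_le_mul_of_nonneg_left (hcmp _ _).1 (by positivity)
      _ = (R ^ 2 * A₄) * μ' ^ n * tnm N x v := by ring
      _ ≤ _ := by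
          apply mul_le_mul_of_nonneg_right _ n1
          exact mul_le_mul_of_nonneg_right k4 (by positivity)
  · change l' ^ n * tnm N x v ≤ K * tnm N (f^[n] x) (dg E (f^[n]) x v)
    have n1 : 0 ≤ tnm N (f^[n] x) (dg E (f^[n]) x v) := tnm_nonneg hN _ _
    have h3 := H₂ n (f^[n] x) (dg E (f^[n]) x v) (hE.mapU n x v hv)
    have e0 : f.toHomeomorph.symm^[n] (f^[n] x) = x :=
      (Function.LeftInverse.iterate f.toHomeomorph.symm_apply_apply n) x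
    have e1 := dg_inv (f^[n]) (f.toHomeomorph.symm^[n]) (iter_smooth f f.contMDiff n)
      (iter_smooth f.toHomeomorph.symm hsm' n)
      (fun z => (Function.LeftInverse.iterate f.toHomeomorph.symm_apply_apply n) z) x v
    rw [e1, e0] at h3
    have h7 : l' ^ n * (l'⁻¹) ^ n = 1 := by rw [← mul_pow, mul_inv_cancel₀ hl0.ne', one_pow]
    calc l' ^ n * tnm N x v ≤ l' ^ n * (R * ‖dm E ee x v‖) :=
          mul_le_mul_of_nonneg_left (hcmp _ _).2 (by positivity)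
      _ ≤ l' ^ n * (R * (A₂ * l'⁻¹ ^ n * ‖dm E ee (f^[n] x) (dg E (f^[n]) x v)‖)) := by
          apply mul_le_mul_of_nonneg_left _ (by positivity)
          exact mul_le_mul_of_nonneg_left h3 hR0.le
      _ ≤ l' ^ n * (R * (A₂ * l'⁻¹ ^ n * (R * tnm N (f^[n] x) (dg E (f^[n]) x v)))) := by
          apply mul_le_mul_of_nonneg_left _ (by positivity)
          apply mul_le_mul_of_nonneg_left _ hR0.le
          exact mul_le_mul_of_nonneg_left (hcmp _ _).1 (by positivity)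
      _ = (l' ^ n * l'⁻¹ ^ n) * ((R ^ 2 * A₂) * tnm N (f^[n] x) (dg E (f^[n]) x v)) := by ring
      _ = (R ^ 2 * A₂) * tnm N (f^[n] x) (dg E (f^[n]) x v) := by rw [h7, one_mul]
      _ ≤ _ := mul_le_mul_of_nonneg_right k2 n1

/-- The condition is open. -/
theorem two_open {D D' : ℕ} {μ l κ κ' : ℝ} (hμ0 : 0 < μ) (hμ : μ < 1) (hl : 1 < l) (hκ : 1 ≤ κ)
    (hκ' : 1 ≤ κ')
    (hp : 4 * D * D' * Real.log κ * Real.log κ' < -Real.log μ * Real.log l) :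
    ∃ s : ℝ, 0 < s ∧ μ + s < 1 ∧ 1 < l - s ∧
      4 * D * D' * Real.log (κ + s) * Real.log (κ' + s) <
        -Real.log (μ + s) * Real.log (l - s) := by
  have c1 : Tendsto (fun s : ℝ => Real.log (κ + s)) (𝓝 0) (𝓝 (Real.log (κ + 0))) :=
    (Real.continuousAt_log (by linarith)).tendsto.comp
      ((continuous_const.add continuous_id).tendsto (0 : ℝ))
  have c2 : Tendsto (fun s : ℝ => Real.log (κ' + s)) (𝓝 0) (𝓝 (Real.log (κ' + 0))) :=
    (Real.continuousAt_log (by linarith)).tendsto.comp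
      ((continuous_const.add continuous_id).tendsto (0 : ℝ))
  have c3 : Tendsto (fun s : ℝ => Real.log (μ + s)) (𝓝 0) (𝓝 (Real.log (μ + 0))) :=
    (Real.continuousAt_log (by linarith)).tendsto.comp
      ((continuous_const.add continuous_id).tendsto (0 : ℝ))
  have c4 : Tendsto (fun s : ℝ => Real.log (l - s)) (𝓝 0) (𝓝 (Real.log (l - 0))) :=
    (Real.continuousAt_log (by linarith)).tendsto.comp
      ((continuous_const.sub continuous_id).tendsto (0 : ℝ))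
  have h1 : Tendsto (fun s : ℝ => -Real.log (μ + s) * Real.log (l - s) -
      4 * D * D' * Real.log (κ + s) * Real.log (κ' + s)) (𝓝 0)
      (𝓝 (-Real.log (μ + 0) * Real.log (l - 0) -
        4 * D * D' * Real.log (κ + 0) * Real.log (κ' + 0))) :=
    (c3.neg.mul c4).sub ((c1.const_mul (4 * (D : ℝ) * D')).mul c2)
  simp only [sub_zero, add_zero] at h1
  have h2 := (tendsto_order.1 h1).1 0 (by linarith)
  have h3 : ∀ᶠ s : ℝ in 𝓝 0, s < min (1 - μ) (l - 1) :=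
    eventually_lt_nhds (lt_min (by linarith) (by linarith))
  obtain ⟨s, hs, hs'⟩ := (((h2.and h3).filter_mono nhdsWithin_le_nhds).and
    (self_mem_nhdsWithin : Ioi (0 : ℝ) ∈ 𝓝[>] 0)).exists
  have h5 : s < 1 - μ := hs.2.trans_le (min_le_left _ _)
  have h6 : s < l - 1 := hs.2.trans_le (min_le_right _ _)
  exact ⟨s, hs', by linarith, by linarith, by linarith [hs.1]⟩

/-- **Two-sided distortion bounds at the periodic points.** -/
theorem man_two_per (H : LemT.{u, 0}) (hg : SG1.{u} ∧ SG2.{u} ∧ SG3.{u}) (h12 : ST12.{u, 0})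
    (f : Diffeomorph 𝓘(ℝ, E) 𝓘(ℝ, E) M M 1)
    (hf2 : ContMDiff 𝓘(ℝ, E) 𝓘(ℝ, E) 2 f) (hf2' : ContMDiff 𝓘(ℝ, E) 𝓘(ℝ, E) 2 f.symm)
    (Es Eu : ∀ x : M, Submodule ℝ (TangentSpace 𝓘(ℝ, E) x)) (hA : IsAnosov f Es Eu)
    (hNW : NWall f)
    (D D' : ℕ) (hD : 2 ≤ D)
    (hD' : 2 ≤ D') (hrk : ∀ x, Module.finrank ℝ (Eu x) = D)
    (hrk' : ∀ x, Module.finrank ℝ (Es x) = D') (μ l κ κ' : ℝ) (hμ0 : 0 < μ) (hμ : μ < 1)
    (hl : 1 < l) (hκ : 1 ≤ κ) (hκ' : 1 ≤ κ') (hs : PeriodicUpper f Es μ)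
    (hu : PeriodicLower f Eu l) (hd : PeriodicQuotients f Eu κ) (hd' : PeriodicQuotients f Es κ')
    (hp : 4 * D * D' * Real.log (κ ^ (D - 1)) * Real.log (κ' ^ (D' - 1)) <
      -Real.log μ * Real.log l) :
    TopTransitive f ∧ GPS f.toHomeomorph ∧
      (∃ P : E → M, IsCoveringMap P ∧ Function.Surjective P) ∧ PG M := by
  obtain ⟨N, C₀, l₀, hN, -⟩ := hA.rates
  obtain ⟨s, hs0, hs1, hs2, hs3⟩ := two_open hμ0 hμ hl (one_le_pow₀ hκ) (one_le_pow₀ hκ') hp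
  obtain ⟨C₁, hr1, hr2⟩ := weak_of_per f hf2 hf2' Es Eu hA N hN hμ0 (by linarith) hs hu
    (by linarith : μ < μ + s) (by linarith) (by linarith : l - s < l)
  obtain ⟨C₂, hr3⟩ := dis_of_perQ h12 f hf2 hf2' Es Eu hA N hN D hrk hκ
    ((perDisQ_of f Es Eu hA hκ).1 hd) (κ ^ (D - 1) + s) (by linarith)
  obtain ⟨C₃, hr4⟩ := dis_of_perQ h12 f.symm hf2' hf2 Eu Es (anosov_symm f Es Eu hA) N hN D'
    hrk' hκ' ((perDisQ_of f Es Eu hA hκ').2 hd') (κ' ^ (D' - 1) + s) (by linarith)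
  have hr5 := dis_symm f Es Eu hA N hr4
  -- a common constant
  have p1 : 1 ≤ κ ^ (D - 1) := one_le_pow₀ hκ
  have p2 : 1 ≤ κ' ^ (D' - 1) := one_le_pow₀ hκ'
  have hNn : ∀ (x : M) (v : TangentSpace 𝓘(ℝ, E) x), 0 ≤ N ⟨x, v⟩ := by
    intro x v
    rcases eq_or_ne v 0 with rfl | hv
    · have h0 := hN.smul x 0 0
      rw [abs_zero, zero_mul, smul_zero] at h0
      exact h0.ge
    · exact (hN.pos x v hv).le
  have hTn : ∀ (n : ℕ) (x : M) (v : TangentSpace 𝓘(ℝ, E) x),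
      0 ≤ N (tangentMap 𝓘(ℝ, E) 𝓘(ℝ, E) (f^[n]) ⟨x, v⟩) := fun n x v =>
    hNn _ _
  set C := max C₁ (max C₂ C₃) with hC
  have c1 : C₁ ≤ C := le_max_left _ _
  have c2 : C₂ ≤ C := (le_max_left _ _).trans (le_max_right _ _)
  have c3 : C₃ ≤ C := (le_max_right _ _).trans (le_max_right _ _)
  refine man_two H hg f Es Eu hA hNW N hN D D' hD hD' hrk hrk' C (μ + s) (l - s)
    (κ ^ (D - 1) + s) (κ' ^ (D' - 1) + s) (by linarith) hs1 hs2 (by linarith) (by linarith)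
    ?_ ?_ ?_ ?_ hs3
  · intro n x v hv
    refine (hr1 n x v hv).trans (mul_le_mul_of_nonneg_right ?_ (hNn x v))
    exact mul_le_mul_of_nonneg_right c1 (pow_nonneg (by linarith) n)
  · intro n x v hv
    exact (hr2 n x v hv).trans (mul_le_mul_of_nonneg_right c1 (hTn n x v))
  · intro n x v hv w hw
    refine (hr3 n x v hv w hw).trans
      (mul_le_mul_of_nonneg_right ?_ (mul_nonneg (hTn n x w) (hNn x v)))
    exact mul_le_mul_of_nonneg_right c2 (pow_nonneg (by linarith) n)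
  · intro n x v hv w hw
    refine (hr5 n x v hv w hw).trans
      (mul_le_mul_of_nonneg_right ?_ (mul_nonneg (hTn n x w) (hNn x v)))
    exact mul_le_mul_of_nonneg_right c3 (pow_nonneg (by linarith) n)

end Pool.Agent.Q192.PT
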