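import Pool.Agent.Q192.PT.StmP
import Pool.Agent.Q192.PK.K12

/-!
# Project PT, ST12: distortion from the distortion at the periodic points (by helper151)
-/

set_option autoImplicit false
set_option linter.unusedSectionVars false

open Filter Topology Set Metric

namespace Pool.Agent.Q192.PT

open Pool.Agent.H721R2 Pool.Agent.H779R2.An Pool.Agent.Y321.PD Pool.Agent.Q192.PK

universe u v

section

variable {X : Type u} {E : Type v} [MetricSpace X] [CompactSpace X] [NormedAddCommGroup E]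
  [InnerProductSpace ℝ E] [FiniteDimensional ℝ E]

/-- The volume factor and the conorm at a periodic point. -/
theorem T12.per (h1 : SK1.{v}) (h2 : SK2.{v}) (S : HypSys X E) (D : ℕ) (hD : 1 ≤ D)
    (hfin : ∀ x, Module.finrank ℝ (S.Vu x) = D) (N : ℕ) (p : X) (hp : S.g^[N] p = p) (c : ℝ)
    (hc : 0 < c) (h : ∀ v ∈ S.Vu p, c * ‖v‖ ≤ ‖Dn S N p v‖) (w : E) (hw : w ∈ S.Vu p) :
    c ^ (D - 1) * ‖Dn S N p w‖ ≤ jac (Dn S N p) (S.Vu p) * ‖w‖ := by
  set T := Dn S N p with hT
  set T' := Dn S.symm N p with hT'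
  have hmap : (S.Vu p).map T = S.Vu p := by
    have := Vu_map h1 S D hD hfin N p
    rwa [hp] at this
  have hTT : ∀ v ∈ S.Vu p, T' (T v) = v := by
    intro v hv
    have := Dn_symm_Dn S N p hv
    rwa [hp] at this
  have hTm : ∀ v ∈ S.Vu p, T v ∈ S.Vu p := by
    intro v hv
    have := Dn_mem S N p hv
    rwa [hp] at this
  have hTT' : ∀ v ∈ S.Vu p, T (T' v) = v := by
    intro v hv
    rw [← hmap] at hv
    obtain ⟨u, hu, rfl⟩ := hv
    rw [hTT u hu]
  have hTm' : ∀ v ∈ S.Vu p, T' v ∈ S.Vu p := by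
    intro v hv
    rw [← hmap] at hv
    obtain ⟨u, hu, rfl⟩ := hv
    rw [hTT u hu]
    exact hu
  have hone : jac (T' ∘ₗ T) (S.Vu p) = 1 := by
    have ha := (h1 E).2.1 (T' ∘ₗ T) (S.Vu p) 1 zero_le_one (fun v hv => by
      rw [LinearMap.comp_apply, hTT v hv, one_mul])
    have hb := (h1 E).2.2.1 (T' ∘ₗ T) (S.Vu p) 1 zero_le_one (fun v hv => by
      rw [LinearMap.comp_apply, hTT v hv, one_mul])
    rw [one_pow] at ha hb
    exact le_antisymm ha hb
  rw [(h1 E).1, hmap] at hone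
  have hj0 : 0 < jac T (S.Vu p) := jac_Dn_pos h1 S D hD hfin N p
  have h3 := (h2 E).2 T' (S.Vu p) c⁻¹ (by positivity) (fun v hv => by
    rw [le_inv_mul_iff₀ hc]
    have := h _ (hTm' v hv)
    rwa [hTT' v hv] at this) (T w) (hTm w hw)
  rw [hfin, hTT w hw] at h3
  have h4 := mul_le_mul_of_nonneg_right h3 hj0.le
  have h5 : ‖T w‖ ≤ c⁻¹ ^ (D - 1) * ‖w‖ * jac T (S.Vu p) := by
    calc ‖T w‖ = jac T' (S.Vu p) * jac T (S.Vu p) * ‖T w‖ := by rw [hone, one_mul]
      _ = jac T' (S.Vu p) * ‖T w‖ * jac T (S.Vu p) := by ring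
      _ ≤ _ := h4
  have h6 := mul_le_mul_of_nonneg_left h5 (pow_pos hc (D - 1)).le
  refine h6.trans (le_of_eq ?_)
  rw [inv_pow]
  field_simp

end

/-- ST12. -/
theorem sT12 (h1 : SK1.{v}) (h2 : SK2.{v}) (h9 : SK9.{u, v}) (h10 : SK10.{u, v})
    (h11 : SK11.{u, v}) : ST12.{u, v} := by
  intro X _ _ E _ _ _ S Q r D hQ hfin κ₀ hκ₀ hper κ hκ
  rcases isEmpty_or_nonempty X with hX | hX
  · exact ⟨0, fun n x => (hX.false x).elim⟩
  rcases Nat.eq_zero_or_pos D with hD | hD
  · refine ⟨0, fun n x v hv w hw => ?_⟩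
    have h1 : S.Vu x = ⊥ := by
      have := hfin x
      rw [hD] at this
      exact Submodule.finrank_eq_zero.mp this
    rw [h1, Submodule.mem_bot] at hv
    rw [hv, map_zero, norm_zero]
    simp
  obtain ⟨C₀, c₁, hC₀, hc₁, hcl⟩ := h10 X E S Q r hQ
  obtain ⟨C₂, hC₂⟩ := h11 X E S C₀ D hC₀ hD hfin
  let C : Coc X E := hcoc h1 S D hD hfin
  have hD0 : (0 : ℝ) < D := by exact_mod_cast hD
  have hit : ∀ n x, C.it n x = Dn S n x := hcoc_it h1 S D hD hfin
  have hbs : ∀ (n : ℕ) (x : X), Real.exp (C.bs n x) ^ D = jac (Dn S n x) (S.Vu x) := by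
    intro n x
    rw [← Real.exp_nat_mul, hcoc_bs h1 S D hD hfin, Real.exp_log (jac_Dn_pos h1 S D hD hfin n x)]
  have hclo : Clos C C₀ C₂ (min c₁ (1 / 4)) := by
    intro c hc hcc
    obtain ⟨ε, hε, h⟩ := hcl c hc (hcc.trans (min_le_left _ _))
    refine ⟨ε, hε, fun x n hn hx => ?_⟩
    obtain ⟨p, hp, J, hJ⟩ := h x n hn hx
    exact ⟨p, hp, hC₂ c n x p J hc (hcc.trans (min_le_right _ _)) hJ, J, hJ⟩
  obtain ⟨lam, hup, hlow⟩ := h9 X E C D C₀ C₂ (min c₁ (1 / 4)) hD hfin hC₀
    (lt_min hc₁ (by norm_num)) hclo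
  set t := Real.log κ₀ with ht
  have ht0 : 0 ≤ t := Real.log_nonneg hκ₀
  have het : Real.exp t = κ₀ := Real.exp_log (by linarith)
  obtain ⟨m, rfl⟩ : ∃ m, D = m + 1 := ⟨D - 1, by omega⟩
  rw [Nat.add_sub_cancel] at hκ
  have hm1 : (((m + 1 : ℕ) : ℝ)) = m + 1 := by push_cast; ring
  -- the bound of the rate
  have hlam : (m + 1) * lam ≤ m * t := by
    by_contra hcon
    push Not at hcon
    -- the rates `l` and `t₁`
    set s := ((m + 1) * lam - m * t) / 4 with hs
    have hs0 : 0 < s := by rw [hs]; linarith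
    have hm0 : (0 : ℝ) ≤ m := Nat.cast_nonneg m
    set l := lam - s / (m + 1) with hl
    have hl2 : (m + 1) * l = m * t + 3 * s := by
      rw [hl, mul_sub, mul_div_cancel₀ _ (by positivity : (m + 1 : ℝ) ≠ 0), hs]
      ring
    set t₁ := t + s / (m + 1) with ht₁
    have hsm : 0 < s / (m + 1) := by positivity
    have ht₁2 : m * t₁ ≤ m * t + s := by
      rw [ht₁, mul_add]
      have : m * (s / (m + 1)) ≤ s := by
        rw [mul_div_assoc', div_le_iff₀ (by positivity)]
        nlinarith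
      linarith
    obtain ⟨p, n, hn, hp, w, hw, hw0, a, ha, h3⟩ := hlow l (by rw [hl]; linarith)
    obtain ⟨A, hA⟩ := hper p n hn hp (Real.exp t₁) (by
      rw [← het]
      exact Real.exp_lt_exp.2 (by rw [ht₁]; linarith))
    have hwn : 0 < ‖w‖ := norm_pos_iff.mpr hw0
    have hpN : ∀ q : ℕ, S.g^[n * q] p = p := by
      intro q
      rw [Function.iterate_mul]
      exact Function.iterate_fixed hp q
    -- the upper bound at the periodic point
    have h4 : ∀ q : ℕ, ‖Dn S (n * q) p w‖ ^ (m + 1) ≤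
        (|A| * Real.exp t₁ ^ (n * q)) ^ m * Real.exp (C.bs (n * q) p) ^ (m + 1) *
          ‖w‖ ^ (m + 1) := by
      intro q
      set T := Dn S (n * q) p with hT
      set K := |A| * Real.exp t₁ ^ (n * q) with hK
      have hKA : QA S (n * q) p K := (hA q).mono
        (mul_le_mul_of_nonneg_right (le_abs_self _) (by positivity))
      have hTw : 0 < ‖T w‖ := Dn_pos (n * q) hw hw0
      have hK0 : 0 < K := by
        have := hKA w hw w hw
        have h5 : 0 < ‖T w‖ * ‖w‖ := by positivity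
        by_contra hneg
        push Not at hneg
        nlinarith
      have h5 : ∀ v ∈ S.Vu p, ‖T w‖ / (K * ‖w‖) * ‖v‖ ≤ ‖T v‖ := by
        intro v hv
        have := hKA w hw v hv
        rw [div_mul_eq_mul_div, div_le_iff₀ (by positivity)]
        calc ‖T w‖ * ‖v‖ ≤ K * (‖T v‖ * ‖w‖) := this
          _ = _ := by ring
      have h6 := T12.per h1 h2 S (m + 1) hD hfin (n * q) p (hpN q) (‖T w‖ / (K * ‖w‖))
        (by positivity) h5 w hw
      rw [← hbs, Nat.add_sub_cancel, ← hT, div_pow, div_mul_eq_mul_div,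
        div_le_iff₀ (by positivity)] at h6
      calc ‖T w‖ ^ (m + 1) = ‖T w‖ ^ m * ‖T w‖ := pow_succ _ _
        _ ≤ _ := h6
        _ = _ := by ring
    have h5 : ∀ q : ℕ, a ^ (m + 1) * (s * q) ≤ |A| ^ m := by
      intro q
      have h6 := h3 q
      rw [hit] at h6
      have h7 := (pow_le_pow_left₀ (by positivity) h6 (m + 1)).trans (h4 q)
      set Z := Real.exp (C.bs (n * q) p) ^ (m + 1) * ‖w‖ ^ (m + 1) with hZ
      have hZ0 : 0 < Z := by positivity
      have e1 : (a * Real.exp (l * (n * q) + C.bs (n * q) p) * ‖w‖) ^ (m + 1) =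
          a ^ (m + 1) * Real.exp ((m * t + 3 * s) * (n * q)) * Z := by
        rw [Real.exp_add, hZ]
        have : Real.exp ((m * t + 3 * s) * (n * q)) = Real.exp (l * (n * q)) ^ (m + 1) := by
          rw [← Real.exp_nat_mul]
          congr 1
          push_cast
          rw [← hl2]
          ring
        rw [this]
        ring
      have e2 : (|A| * Real.exp t₁ ^ (n * q)) ^ m * Real.exp (C.bs (n * q) p) ^ (m + 1) *
          ‖w‖ ^ (m + 1) = |A| ^ m * Real.exp (m * t₁ * (n * q)) * Z := by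
        have : Real.exp (m * t₁ * (n * q)) = (Real.exp t₁ ^ (n * q)) ^ m := by
          rw [← Real.exp_nat_mul, ← Real.exp_nat_mul]
          congr 1
          push_cast
          ring
        rw [this, hZ]
        ring
      rw [e1, e2] at h7
      have h8 : a ^ (m + 1) * Real.exp ((m * t + 3 * s) * (n * q)) ≤
          |A| ^ m * Real.exp (m * t₁ * (n * q)) := le_of_mul_le_mul_right h7 hZ0
      have hnq : (0 : ℝ) ≤ n * q := by positivity
      have e3 : Real.exp ((m * t + 3 * s) * (n * q)) =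
          Real.exp ((m * t + 3 * s - m * t₁) * (n * q)) * Real.exp (m * t₁ * (n * q)) := by
        rw [← Real.exp_add]
        congr 1
        ring
      rw [e3, ← mul_assoc] at h8
      have h9' : a ^ (m + 1) * Real.exp ((m * t + 3 * s - m * t₁) * (n * q)) ≤ |A| ^ m :=
        le_of_mul_le_mul_right h8 (Real.exp_pos _)
      refine le_trans (mul_le_mul_of_nonneg_left ?_ (by positivity)) h9'
      have h10' : (m * t + 3 * s - m * t₁) * (n * q) + 1 ≤
          Real.exp ((m * t + 3 * s - m * t₁) * (n * q)) := Real.add_one_le_exp _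
      have h11' : (q : ℝ) ≤ n * q := by
        have : (1 : ℝ) ≤ n := by exact_mod_cast hn
        have h0 : (0 : ℝ) ≤ q := Nat.cast_nonneg q
        nlinarith
      have h12' : s * q ≤ (m * t + 3 * s - m * t₁) * (n * q) :=
        mul_le_mul (by linarith) h11' (Nat.cast_nonneg q) (by linarith)
      linarith
    obtain ⟨q, hq⟩ := exists_nat_gt (|A| ^ m / (a ^ (m + 1) * s))
    have h6 := h5 q
    rw [div_lt_iff₀ (by positivity)] at hq
    nlinarith
  -- the distortion
  have hκ1 : 0 < κ := lt_of_le_of_lt (by positivity) hκ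
  have hlogκ : m * t < Real.log κ := by
    rw [ht, ← Real.log_pow]
    exact Real.log_lt_log (by positivity) hκ
  obtain ⟨A, hA⟩ := hup (Real.log κ / (m + 1 : ℕ) - lam) (by
    rw [hm1, sub_pos, lt_div_iff₀ (by positivity)]
    linarith)
  refine ⟨max A 1 ^ (m + 1), fun n x v hv w hw => ?_⟩
  set A' := max A 1 with hA'
  have hA'1 : 1 ≤ A' := le_max_right _ _
  set e := Real.exp (Real.log κ / (m + 1 : ℕ) * n) with he
  have he0 : 0 < e := Real.exp_pos _
  set z := Real.exp (C.bs n x) with hz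
  have hz0 : 0 < z := Real.exp_pos _
  have heD : e ^ (m + 1) = κ ^ n := by
    rw [he, ← Real.exp_nat_mul]
    have : ((m + 1 : ℕ) : ℝ) * (Real.log κ / (m + 1 : ℕ) * n) = n * Real.log κ := by
      field_simp
    rw [this, Real.exp_nat_mul, Real.exp_log hκ1]
  have hb : ∀ v ∈ S.Vu x, ‖Dn S n x v‖ ≤ (A' * e * z) * ‖v‖ := by
    intro v hv
    have h3 := hA n x v hv
    rw [hit] at h3
    refine h3.trans (mul_le_mul_of_nonneg_right ?_ (norm_nonneg _))
    have e1 : (lam + (Real.log κ / (m + 1 : ℕ) - lam)) * n + C.bs n x =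
        Real.log κ / (m + 1 : ℕ) * n + C.bs n x := by ring
    rw [e1, Real.exp_add, ← he, ← hz, mul_assoc]
    exact mul_le_mul_of_nonneg_right (le_max_left _ _) (by positivity)
  have h3 := (h2 E).2 (Dn S n x) (S.Vu x) (A' * e * z) (by positivity) hb w hw
  rw [hfin, ← hbs, ← hz] at h3
  have h4 := hb v hv
  rw [Nat.add_sub_cancel] at h3
  -- combine
  have h5 : z ^ (m + 1) * (‖Dn S n x v‖ * ‖w‖) ≤
      z ^ (m + 1) * (A' ^ (m + 1) * κ ^ n * (‖Dn S n x w‖ * ‖v‖)) := by
    calc z ^ (m + 1) * (‖Dn S n x v‖ * ‖w‖) = ‖Dn S n x v‖ * (z ^ (m + 1) * ‖w‖) := by ring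
      _ ≤ (A' * e * z * ‖v‖) * ((A' * e * z) ^ m * ‖Dn S n x w‖) :=
        mul_le_mul h4 h3 (by positivity) (by positivity)
      _ = z ^ (m + 1) * (A' ^ (m + 1) * e ^ (m + 1) * (‖Dn S n x w‖ * ‖v‖)) := by ring
      _ = _ := by rw [heD]
  exact le_of_mul_le_mul_left h5 (by positivity)

end Pool.Agent.Q192.PT
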