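import Pool.Agent.Q192.PT.ManQ
import Pool.Agent.Q192.PT.T12
import Pool.Agent.Q192.PK.Fin0
import Pool.Agent.Q192.PG.Fin

/-!
# Project PT: both conditions together
-/

set_option autoImplicit false
set_option linter.unusedSectionVars false

open scoped Manifold ContDiff Topology Bundle
open Set Filter Bundle

namespace Pool.Agent.Q192.PT

open Pool.Agent.H721R2 Pool.Agent.H779R2.An Pool.Agent.Y321.PD Pool.Agent.H789R2.AN
  Pool.Agent.H789R2.GP Pool.Agent.Y330.J Pool.Agent.Q192.PG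
  Pool.Agent.Q192.PI.B Pool.Agent.Q192.PK Pool.Agent.TH289 Pool.Agent.TH289.K

universe u v w

theorem fT12 : ST12.{u, v} := sT12 sK1 sK2 fK9 sK10 (Pool.Agent.Q95.PK.sK11 sK1)

variable {E : Type w} [NormedAddCommGroup E] [NormedSpace ℝ E] [FiniteDimensional ℝ E]
  {M : Type u} [TopologicalSpace M] [T2Space M] [CompactSpace M] [ConnectedSpace M]
  [ChartedSpace E M] [IsManifold 𝓘(ℝ, E) ∞ M]

/-- **Two-sided distortion bounds**, both forms. -/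
theorem man_two_all (H : LemT.{u, 0}) (f : Diffeomorph 𝓘(ℝ, E) 𝓘(ℝ, E) M M 1)
    (Es Eu : ∀ x : M, Submodule ℝ (TangentSpace 𝓘(ℝ, E) x)) (hA : IsAnosov f Es Eu)
    (hNW : NWall f) (N : TangentBundle 𝓘(ℝ, E) M → ℝ) (hN : IsTangentNorm N)
    (D D' : ℕ) (hD : 2 ≤ D) (hD' : 2 ≤ D') (hrk : ∀ x, Module.finrank ℝ (Eu x) = D)
    (hrk' : ∀ x, Module.finrank ℝ (Es x) = D')
    (μ l κ κ' : ℝ) (hμ0 : 0 < μ) (hμ : μ < 1) (hl : 1 < l) (hκ : 1 ≤ κ) (hκ' : 1 ≤ κ')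
    (h : (4 * D * D' * Real.log κ * Real.log κ' < -Real.log μ * Real.log l ∧
        ∃ C : ℝ, UpperRate f N Es C μ ∧ LowerRate f N Eu C l ∧ DistortionOn f N Eu C κ ∧
          DistortionOn f N Es C κ') ∨
      (4 * D * (D - 1) * D' * (D' - 1) * Real.log κ * Real.log κ' <
          -Real.log μ * Real.log l ∧
        ContMDiff 𝓘(ℝ, E) 𝓘(ℝ, E) 2 f ∧ ContMDiff 𝓘(ℝ, E) 𝓘(ℝ, E) 2 f.symm ∧
        PeriodicUpper f Es μ ∧ PeriodicLower f Eu l ∧ PeriodicQuotients f Eu κ ∧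
        PeriodicQuotients f Es κ')) :
    TopTransitive f ∧ GPS f.toHomeomorph ∧
      (∃ P : E → M, IsCoveringMap P ∧ Function.Surjective P) ∧ PG M := by
  rcases h with ⟨hp, C, hs, hu, hd, hd'⟩ | ⟨hp, hf2, hf2', hs, hu, hd, hd'⟩
  · exact man_two H ⟨sG1, sG2, sG3⟩ f Es Eu hA hNW N hN D D' hD hD' hrk hrk' C μ l κ κ' hμ0 hμ hl
      hκ hκ' hs hu hd hd' hp
  · refine man_two_per H ⟨sG1, sG2, sG3⟩ fT12 f hf2 hf2' Es Eu hA hNW D D' hD hD' hrk hrk' μ l κ κ'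
      hμ0 hμ hl hκ hκ' hs hu hd hd' ?_
    rw [Real.log_pow, Real.log_pow, Nat.cast_sub (by omega), Nat.cast_sub (by omega), Nat.cast_one]
    refine lt_of_eq_of_lt ?_ hp
    ring

end Pool.Agent.Q192.PT
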